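import Pool.Agent.H95.SQ.Defs

/-!
# Job SQ-HalB: Fourier inequality for the number of 0/1 vectors orthogonal to a subspace

`fourier_bound`.  PROOF.  Let `ψ : ZMod p → ℂ` be the standard additive character
`ψ y = exp (2 π i y.val / p)` (`ZMod.stdAddChar`).  For `b : V → Bool` put
`z_a = bv b ⬝ᵥ w a ∈ ZMod p`; `b` is orthogonal to `W` iff all `z_a = 0` (`w` is a basis), and
`∑_{ξ : Fin T → ZMod p} ψ (∑_a ξ a * z_a) = ∏_a ∑_{y} ψ (y * z_a) = p^T` if all `z_a = 0` and `0`
otherwise (orthogonality, `AddChar.sum_mulShift` and `Finset.prod_univ_sum`/`Fintype.piFinset_univ`).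
So `orth W * p^T = ∑_ξ ∑_b ψ (∑_v b_v y_v(ξ))`, `y_v(ξ) = ∑_a ξ a * (w a) v`, and
`∑_{b : V → Bool} ψ (∑_v b_v y_v) = ∏_v (1 + ψ (y_v))`.  As
`|1 + ψ y| = 2 |cos (π y.val / p)| ≤ 2` (`1 + e^(iθ) = e^(iθ/2) 2 cos (θ/2)`), the absolute value of
the product is at most `2^(card V)` times the product of `|cos (π y_v.val / p)|` over the
`v` in the range of the injective map `c` (all the other factors `|cos| ≤ 1`).
-/

set_option autoImplicit false

namespace Pool.Agent.H95.SQ

open Matrix Classical Pool.Agent.H66.SP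

theorem halB_norm (p : ℕ) [NeZero p] (t : ZMod p) :
    ‖(1 : ℂ) + ZMod.stdAddChar t‖ = 2 * |Real.cos (Real.pi * (t.val : ℝ) / p)| := by
  rw [ZMod.stdAddChar_apply, ZMod.toCircle_apply]
  set θ : ℝ := Real.pi * (t.val : ℝ) / p with hθ
  have e1 : (2 * (Real.pi : ℂ) * Complex.I * (t.val : ℂ) / (p : ℂ)) = ((θ : ℂ) * Complex.I) +
      ((θ : ℂ) * Complex.I) := by
    rw [hθ]
    push_cast
    ring
  rw [e1, Complex.exp_add]
  have e2 : (1 : ℂ) + Complex.exp ((θ : ℂ) * Complex.I) * Complex.exp ((θ : ℂ) * Complex.I) =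
      Complex.exp ((θ : ℂ) * Complex.I) * (2 * Complex.cos (θ : ℂ)) := by
    rw [Complex.two_cos]
    rw [mul_add, ← Complex.exp_add, ← Complex.exp_add]
    rw [show (θ : ℂ) * Complex.I + -(θ : ℂ) * Complex.I = 0 by ring, Complex.exp_zero]
    rw [add_comm]
  rw [e2, norm_mul, Complex.norm_exp_ofReal_mul_I, one_mul, norm_mul]
  rw [← Complex.ofReal_cos, Complex.norm_real, Real.norm_eq_abs]
  simp

theorem halB_map_sum (p : ℕ) [NeZero p] {ι : Type*} (s : Finset ι) (f : ι → ZMod p) :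
    (ZMod.stdAddChar (N := p)) (∑ i ∈ s, f i) = ∏ i ∈ s, (ZMod.stdAddChar (N := p)) (f i) := by
  classical
  induction s using Finset.induction_on with
  | empty => simp
  | insert a s ha ih => rw [Finset.sum_insert ha, Finset.prod_insert ha, AddChar.map_add_eq_mul, ih]

theorem halB_char_sum (p : ℕ) [Fact p.Prime] {T : ℕ} (z : Fin T → ZMod p) :
    ∑ ξ : Fin T → ZMod p, (ZMod.stdAddChar (N := p)) (∑ a, ξ a * z a) =
      if ∀ a, z a = 0 then (p : ℂ) ^ T else 0 := by
  have h1 : ∀ ξ : Fin T → ZMod p, (ZMod.stdAddChar (N := p)) (∑ a, ξ a * z a) =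
      ∏ a, (ZMod.stdAddChar (N := p)) (ξ a * z a) := by
    intro ξ
    exact halB_map_sum p Finset.univ _
  have h2 : ∑ ξ : Fin T → ZMod p, ∏ a, (ZMod.stdAddChar (N := p)) (ξ a * z a) =
      ∏ a, ∑ y : ZMod p, (ZMod.stdAddChar (N := p)) (y * z a) := by
    rw [Finset.prod_univ_sum, Fintype.piFinset_univ]
  rw [Finset.sum_congr rfl fun ξ _ => h1 ξ, h2]
  have h3 : ∀ a, ∑ y : ZMod p, (ZMod.stdAddChar (N := p)) (y * z a) =
      if z a = 0 then (p : ℂ) else 0 := by
    intro a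
    rw [AddChar.sum_mulShift (z a) (ZMod.isPrimitive_stdAddChar p)]
    rw [ZMod.card]
    split_ifs <;> simp
  rw [Finset.prod_congr rfl fun a _ => h3 a]
  split_ifs with h
  · rw [Finset.prod_congr rfl fun a _ => if_pos (h a)]
    simp
  · push Not at h
    obtain ⟨a, ha⟩ := h
    exact Finset.prod_eq_zero (Finset.mem_univ a) (if_neg ha)

theorem halB_bool_sum (p : ℕ) [Fact p.Prime] {V : Type*} [Fintype V] [DecidableEq V]
    (y : V → ZMod p) :
    ∑ b : V → Bool, (ZMod.stdAddChar (N := p)) (∑ v, bv (ZMod p) b v * y v) =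
      ∏ v, (1 + (ZMod.stdAddChar (N := p)) (y v)) := by
  have h1 : ∀ b : V → Bool, (ZMod.stdAddChar (N := p)) (∑ v, bv (ZMod p) b v * y v) =
      ∏ v, (if b v = true then (ZMod.stdAddChar (N := p)) (y v) else 1) := by
    intro b
    rw [halB_map_sum p Finset.univ]
    refine Finset.prod_congr rfl fun v _ => ?_
    unfold bv
    split_ifs with h
    · rw [one_mul]
    · rw [zero_mul]
      exact AddChar.map_zero_eq_one _
  have h2 : ∀ v, (1 + (ZMod.stdAddChar (N := p)) (y v)) =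
      ∑ β : Bool, (if β = true then (ZMod.stdAddChar (N := p)) (y v) else 1) := by
    intro v
    rw [Fintype.sum_bool]
    simp [add_comm]
  rw [Finset.sum_congr rfl fun b _ => h1 b, Finset.prod_congr rfl fun v _ => h2 v,
    Finset.prod_univ_sum, Fintype.piFinset_univ]

theorem halB_orth_iff (p : ℕ) [Fact p.Prime] {V : Type*} [Fintype V] {T : ℕ}
    (W : Submodule (ZMod p) (V → ZMod p)) (w : Module.Basis (Fin T) (ZMod p) W) (b : V → Bool) :
    (∀ x ∈ W, bv (ZMod p) b ⬝ᵥ x = 0) ↔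
      ∀ a, bv (ZMod p) b ⬝ᵥ ((w a : W) : V → ZMod p) = 0 := by
  constructor
  · intro h a
    exact h _ (w a).2
  · intro h x hx
    have h1 : x = ∑ a, (w.repr ⟨x, hx⟩ a) • ((w a : W) : V → ZMod p) := by
      have h2 := w.sum_repr ⟨x, hx⟩
      have h3 := congrArg (fun u : W => (u : V → ZMod p)) h2
      simp only [Submodule.coe_sum, Submodule.coe_smul] at h3
      exact h3.symm
    rw [h1, dotProduct_sum]
    refine Finset.sum_eq_zero fun a _ => ?_
    rw [dotProduct_smul, h a, smul_zero]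

theorem halB_identity (p : ℕ) [Fact p.Prime] {V : Type*} [Fintype V] [DecidableEq V] {T : ℕ}
    (W : Submodule (ZMod p) (V → ZMod p)) (w : Module.Basis (Fin T) (ZMod p) W) :
    ((orth W : ℂ) * (p : ℂ) ^ T) = ∑ ξ : Fin T → ZMod p,
      ∏ v, (1 + (ZMod.stdAddChar (N := p))
        (∑ a : Fin T, ξ a * ((w a : W) : V → ZMod p) v)) := by
  have h1 : ((orth W : ℂ) * (p : ℂ) ^ T) = ∑ b : V → Bool,
      (if ∀ a, bv (ZMod p) b ⬝ᵥ ((w a : W) : V → ZMod p) = 0 then (p : ℂ) ^ T else 0) := by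
    rw [← Finset.sum_filter, Finset.sum_const, nsmul_eq_mul]
    congr 2
    unfold orth
    congr 1
    ext b
    simp only [Finset.mem_filter, Finset.mem_univ, true_and]
    exact halB_orth_iff p W w b
  rw [h1]
  have h2 : ∀ b : V → Bool,
      (if ∀ a, bv (ZMod p) b ⬝ᵥ ((w a : W) : V → ZMod p) = 0 then (p : ℂ) ^ T else 0) =
      ∑ ξ : Fin T → ZMod p, (ZMod.stdAddChar (N := p))
        (∑ v, bv (ZMod p) b v * (∑ a : Fin T, ξ a * ((w a : W) : V → ZMod p) v)) := by
    intro b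
    rw [← halB_char_sum p (fun a => bv (ZMod p) b ⬝ᵥ ((w a : W) : V → ZMod p))]
    refine Finset.sum_congr rfl fun ξ _ => ?_
    congr 1
    simp only [dotProduct, Finset.mul_sum]
    rw [Finset.sum_comm]
    refine Finset.sum_congr rfl fun v _ => ?_
    refine Finset.sum_congr rfl fun a _ => ?_
    ring
  rw [Finset.sum_congr rfl fun b _ => h2 b, Finset.sum_comm]
  refine Finset.sum_congr rfl fun ξ _ => ?_
  exact halB_bool_sum p (fun v => ∑ a : Fin T, ξ a * ((w a : W) : V → ZMod p) v)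

theorem halB_prod_le {V : Type*} [Fintype V] [DecidableEq V] {T N : ℕ} (f : V → ℝ)
    (h0 : ∀ v, 0 ≤ f v) (h1 : ∀ v, f v ≤ 1) (c : Fin N × Fin T → V)
    (hc : Function.Injective c) :
    ∏ v, f v ≤ ∏ l : Fin N, ∏ a' : Fin T, f (c (l, a')) := by
  have e1 : ∏ l : Fin N, ∏ a' : Fin T, f (c (l, a')) = ∏ q : Fin N × Fin T, f (c q) := by
    rw [Fintype.prod_prod_type]
  have e2 : ∏ q : Fin N × Fin T, f (c q) =
      ∏ v ∈ (Finset.univ : Finset (Fin N × Fin T)).image c, f v := by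
    rw [Finset.prod_image]
    intro a _ b _ hab
    exact hc hab
  rw [e1, e2, ← Finset.prod_mul_prod_compl ((Finset.univ : Finset (Fin N × Fin T)).image c)]
  have h2 : ∏ v ∈ ((Finset.univ : Finset (Fin N × Fin T)).image c)ᶜ, f v ≤ 1 :=
    Finset.prod_le_one (fun v _ => h0 v) (fun v _ => h1 v)
  calc _ ≤ (∏ v ∈ (Finset.univ : Finset (Fin N × Fin T)).image c, f v) * 1 :=
        mul_le_mul_of_nonneg_left h2 (Finset.prod_nonneg fun v _ => h0 v)
    _ = _ := mul_one _

theorem fourier_bound (p : ℕ) [Fact p.Prime] {V : Type*} [Fintype V] [DecidableEq V] {T N : ℕ}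
    (W : Submodule (ZMod p) (V → ZMod p)) (w : Module.Basis (Fin T) (ZMod p) W)
    (c : Fin N × Fin T → V) (hc : Function.Injective c) :
    (orth W : ℝ) * (p : ℝ) ^ T ≤ 2 ^ Fintype.card V *
      ∑ ξ : Fin T → ZMod p, ∏ l : Fin N, ∏ a' : Fin T,
        |Real.cos (Real.pi *
          ((∑ a : Fin T, ξ a * ((w a : W) : V → ZMod p) (c (l, a')) : ZMod p).val : ℝ) / p)| := by
  have hid := halB_identity p W w
  have hn : (orth W : ℝ) * (p : ℝ) ^ T = ‖((orth W : ℂ) * (p : ℂ) ^ T)‖ := by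
    rw [norm_mul, norm_pow, Complex.norm_natCast, Complex.norm_natCast]
  rw [hn, hid, Finset.mul_sum]
  refine (norm_sum_le _ _).trans (Finset.sum_le_sum fun ξ _ => ?_)
  rw [norm_prod, Finset.prod_congr rfl fun v _ => halB_norm p _, Finset.prod_mul_distrib]
  rw [Finset.prod_const, Finset.card_univ]
  refine mul_le_mul_of_nonneg_left ?_ (by positivity)
  exact halB_prod_le (fun v => |Real.cos (Real.pi *
    ((∑ a : Fin T, ξ a * ((w a : W) : V → ZMod p) v : ZMod p).val : ℝ) / p)|)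
    (fun v => abs_nonneg _) (fun v => Real.abs_cos_le_one _) c hc

end Pool.Agent.H95.SQ
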