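import Pool.Agent.H66.SP.Defs

/-!
# Constantly many roots: definitions

`nz x` number of nonzero entries, `Dense W s`: every nonzero vector of `W` has more than `s`
nonzero entries, `NS s G` (non sparsity, all primes at once), `orth W` the number of 0/1 vectors
orthogonal to `W`, `gg p N` the mean of `|cos (π x / p)|^N` over the residues `x`.
-/

set_option autoImplicit false

namespace Pool.Agent.H95.SQ

open Matrix Classical Pool.Agent.H66.SP

/-- number of nonzero entries -/
noncomputable def nz {K : Type*} [Zero K] {V : Type*} [Fintype V] (x : V → K) : ℕ :=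
  ((Finset.univ : Finset V).filter (fun v => x v ≠ 0)).card

/-- every nonzero vector of `W` has more than `s` nonzero entries -/
def Dense {K : Type*} [Field K] {V : Type*} [Fintype V] (W : Submodule K (V → K)) (s : ℕ) : Prop :=
  ∀ x ∈ W, x ≠ 0 → s < nz x

/-- for every prime `p` and every `x ≠ 0` over `ZMod p` with at most `s` nonzero entries, `A x` has
more than `s` nonzero entries outside of the support of `x` -/
def NS (s : ℕ) {V : Type*} [Fintype V] (G : SimpleGraph V) : Prop :=
  ∀ (p : ℕ) [Fact p.Prime] (x : V → ZMod p), x ≠ 0 → nz x ≤ s →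
    s < ((Finset.univ : Finset V).filter
      (fun v => x v = 0 ∧ (adj (ZMod p) G *ᵥ x) v ≠ 0)).card

/-- the number of 0/1 vectors orthogonal to `W` -/
noncomputable def orth {K : Type*} [Field K] {V : Type*} [Fintype V]
    (W : Submodule K (V → K)) : ℕ :=
  ((Finset.univ : Finset (V → Bool)).filter (fun b => ∀ x ∈ W, bv K b ⬝ᵥ x = 0)).card

/-- the mean of `|cos (π x / p)|^N` over `x = 0, ..., p - 1` -/
noncomputable def gg (p N : ℕ) : ℝ :=
  (1 / (p : ℝ)) * ∑ x ∈ Finset.range p, |Real.cos (Real.pi * x / p)| ^ N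

/-- the degree of `μ` over the prime field -/
noncomputable def dg (p : ℕ) [Fact p.Prime] (μ : KK p) : ℕ :=
  (minpoly (ZMod p) μ).natDegree

/-- `M` has a nonzero vector in its kernel modulo some prime -/
def KerP {I S : Type*} [Fintype S] (M : I → S → Bool) : Prop :=
  ∃ (p : ℕ) (_ : Fact p.Prime) (x : S → ZMod p), x ≠ 0 ∧ ∀ i, bv (ZMod p) (M i) ⬝ᵥ x = 0

/-- the invariant of the vertex exposure, for a graph with `k = card V` vertices: non sparsity,
multiplicities in characteristic `p₀` at most `40` as soon as `k ≥ 2 (n / 4)`, and, for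
`k ≥ n / 2`, multiplicities at most `30 + (n - k)` in characteristics `p ≤ q` and at most
`80 + (n - k)` in characteristics `p > q`, apart from the initial term `2 (n / 2) - k` -/
def OKK (n q p₀ : ℕ) [Fact p₀.Prime] {V : Type*} [Fintype V] (G : SimpleGraph V) : Prop :=
  NS (Fintype.card V / 400) G ∧
  (∀ μ : KK p₀, mult (adj (KK p₀) G) μ ≤ max 40 (2 * (n / 4) - Fintype.card V)) ∧
  (n / 2 ≤ Fintype.card V →
    (∀ (p : ℕ) [Fact p.Prime] (μ : KK p), p ≤ q →
      mult (adj (KK p) G) μ ≤ max (30 + (n - Fintype.card V)) (2 * (n / 2) - Fintype.card V)) ∧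
    (∀ (p : ℕ) [Fact p.Prime] (μ : KK p), q < p →
      mult (adj (KK p) G) μ ≤ max (80 + (n - Fintype.card V)) (2 * (n / 2) - Fintype.card V)))

theorem nz_zero {K : Type*} [Zero K] {V : Type*} [Fintype V] : nz (0 : V → K) = 0 := by
  simp [nz]

theorem Dense.mono {K : Type*} [Field K] {V : Type*} [Fintype V] {W W' : Submodule K (V → K)}
    {s : ℕ} (h : Dense W s) (hW : W' ≤ W) : Dense W' s :=
  fun x hx hx0 => h x (hW hx) hx0

theorem orth_anti {K : Type*} [Field K] {V : Type*} [Fintype V] {W W' : Submodule K (V → K)}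
    (hW : W' ≤ W) : orth W ≤ orth W' := by
  unfold orth
  refine Finset.card_le_card fun b hb => ?_
  rw [Finset.mem_filter] at hb ⊢
  exact ⟨hb.1, fun x hx => hb.2 x (hW hx)⟩

end Pool.Agent.H95.SQ
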