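import Pool.Agent.H66.SP.Prim
import Pool.Agent.H95.SQ.Defs

/-!
# Job SQ-RmA: full column rank over `ℂ` gives full column rank outside of few primes

PROOF.  Let `σ = card S`.  The rows of `M` (as vectors of `ℂ^S`) span `ℂ^S` (otherwise some `x ≠ 0` is
orthogonal to all of them), so `σ` of them, `M (c u)`, `u : S`, form a basis
(`exists_linearIndependent'`; see `exists_pivots` in H66/SP/Odl.lean and `primes_ctrl` in
H66/SP/Prim.lean), and the integer matrix `(M (c u) u')_{u, u'}` has a determinant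
`Δ ≠ 0` with `|Δ| ≤ σ! ≤ σ^σ ≤ 2^(σ^2)` (`Matrix.det_le`, entries `0, 1`; `σ ≤ 2^σ`).  Let `P` be the set of
the prime divisors of `Δ` (`Nat.primeFactors`); `2^(card P) ≤ ∏_{p ∈ P} p ≤ |Δ|`, so
`card P ≤ σ^2`.  If `p ∉ P` is a prime then `Δ` is a unit in `ZMod p`, and `x = 0` if all
`bv (ZMod p) (M i) ⬝ᵥ x = 0`.
-/

set_option autoImplicit false

namespace Pool.Agent.H95.SQ

open Matrix Classical Pool.Agent.H66.SP

/-- full column rank over `ℂ` gives full column rank outside of few primes -/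
theorem primes_rank {S I : Type*} [Fintype S] [DecidableEq S] [Fintype I] (M : I → S → Bool)
    (h : ∀ x : S → ℂ, (∀ i, bv ℂ (M i) ⬝ᵥ x = 0) → x = 0) :
    ∃ P : Finset ℕ, P.card ≤ Fintype.card S ^ 2 ∧
      ∀ (p : ℕ) [Fact p.Prime], p ∉ P → ∀ x : S → ZMod p, (∀ i, bv (ZMod p) (M i) ⬝ᵥ x = 0) →
        x = 0 := by
  obtain ⟨k, hk⟩ : ∃ k, k = Fintype.card S := ⟨_, rfl⟩
  have hspan : Submodule.span ℂ {y : S → ℂ | ∃ i, y = bv ℂ (M i)} = ⊤ := by
    by_contra hne
    obtain ⟨f, hf0, hf⟩ := Submodule.exists_le_ker_of_lt_top _ (lt_top_iff_ne_top.2 hne)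
    let x : S → ℂ := fun w => f (Pi.single w 1)
    have hfx : ∀ y : S → ℂ, f y = y ⬝ᵥ x := by
      intro y
      have h1 : y = ∑ w, y w • (Pi.single w (1 : ℂ) : S → ℂ) := by
        ext u
        rw [Finset.sum_apply]
        simp [Pi.single_apply]
      conv_lhs => rw [h1]
      rw [map_sum]
      simp only [map_smul, smul_eq_mul, dotProduct, x]
    have hx : x = 0 := by
      apply h
      intro i
      rw [← hfx]
      exact hf (Submodule.subset_span ⟨i, rfl⟩)
    apply hf0
    apply LinearMap.ext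
    intro y
    rw [hfx, hx, dotProduct_zero]
    rfl
  obtain ⟨B, hBs, hBspan, hBli⟩ := exists_linearIndependent ℂ
    {y : S → ℂ | ∃ i, y = bv ℂ (M i)}
  have hBtop : ⊤ ≤ Submodule.span ℂ (Set.range (fun x : B => (x : S → ℂ))) := by
    rw [Subtype.range_coe, hBspan, hspan]
  let bas := Module.Basis.mk hBli hBtop
  have : Finite B := hBli.finite
  have : Fintype B := Fintype.ofFinite B
  have hcard : Fintype.card S = Fintype.card B := by
    rw [← Module.finrank_eq_card_basis bas, Module.finrank_fintype_fun_eq_card]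
  let e : S ≃ B := Fintype.equivOfCardEq hcard
  have hc : ∀ v : S, ∃ i, ((e v : B) : S → ℂ) = bv ℂ (M i) :=
    fun v => hBs (e v).2
  choose i hi using hc
  obtain ⟨W, hW⟩ : ∃ W : Matrix S S ℤ, W = Matrix.of fun v u => bv ℤ (M (i v)) u :=
    ⟨_, rfl⟩
  have hWK : ∀ (K : Type) [Field K] (v u : S), (W.map (Int.castRingHom K)) v u =
      bv K (M (i v)) u := by
    intro K _ v u
    rw [hW, Matrix.map_apply, Matrix.of_apply]
    exact congrFun (prim_bv_map (K := K) (M (i v))) u
  have hdet : W.det ≠ 0 := by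
    have h1 : LinearIndependent ℂ (W.map (Int.castRingHom ℂ)).row := by
      have h2 : (W.map (Int.castRingHom ℂ)).row = fun v => ((e v : B) : S → ℂ) := by
        funext v u
        rw [hi v]
        exact hWK ℂ v u
      rw [h2]
      exact hBli.comp _ e.injective
    have h3 := (Matrix.isUnit_iff_isUnit_det _).1 (Matrix.linearIndependent_rows_iff_isUnit.1 h1)
    have h4 : (W.map (Int.castRingHom ℂ)).det = ((W.det : ℤ) : ℂ) := by
      have := RingHom.map_det (Int.castRingHom ℂ) W
      rw [RingHom.mapMatrix_apply] at this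
      exact this.symm
    rw [h4] at h3
    intro h5
    rw [h5] at h3
    simp at h3
  refine ⟨W.det.natAbs.primeFactors, ?_, ?_⟩
  · have h1 : ∀ v u : S, AbsoluteValue.abs (W v u) ≤ (1 : ℤ) := by
      intro v u
      rw [AbsoluteValue.abs_apply, hW, Matrix.of_apply]
      unfold bv
      split_ifs <;> simp
    have h2 := Matrix.det_le h1
    rw [AbsoluteValue.abs_apply, ← hk, nsmul_eq_mul, one_pow, mul_one] at h2
    have h3 : W.det.natAbs ≤ k.factorial := by
      have : ((W.det.natAbs : ℕ) : ℤ) ≤ ((k.factorial : ℕ) : ℤ) := by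
        rw [Int.natCast_natAbs]
        exact h2
      exact_mod_cast this
    have h4 : 2 ^ W.det.natAbs.primeFactors.card ≤ W.det.natAbs := by
      have h5 : ∏ _p ∈ W.det.natAbs.primeFactors, 2 ≤ ∏ p ∈ W.det.natAbs.primeFactors, p :=
        Finset.prod_le_prod (fun _ _ => by norm_num)
          (fun p hp => (Nat.prime_of_mem_primeFactors hp).two_le)
      rw [Finset.prod_const] at h5
      exact h5.trans (Nat.le_of_dvd (Int.natAbs_pos.2 hdet) (Nat.prod_primeFactors_dvd _))
    have h6 : k.factorial ≤ 2 ^ (k ^ 2) := by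
      have h7 : k ≤ 2 ^ k := Nat.lt_two_pow_self.le
      calc k.factorial ≤ k ^ k := Nat.factorial_le_pow k
        _ ≤ (2 ^ k) ^ k := Nat.pow_le_pow_left h7 _
        _ = 2 ^ (k ^ 2) := by rw [← pow_mul, sq]
    rw [← hk]
    exact (Nat.pow_le_pow_iff_right (by norm_num)).1 (h4.trans (h3.trans h6))
  · intro p hp hpP x hbx
    have hdetK : (W.map (Int.castRingHom (ZMod p))).det ≠ 0 := by
      have h4 : (W.map (Int.castRingHom (ZMod p))).det = ((W.det : ℤ) : ZMod p) := by
        have := RingHom.map_det (Int.castRingHom (ZMod p)) W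
        rw [RingHom.mapMatrix_apply] at this
        exact this.symm
      rw [h4]
      intro h5
      rw [CharP.intCast_eq_zero_iff (ZMod p) p] at h5
      apply hpP
      rw [Nat.mem_primeFactors]
      exact ⟨hp.out, Int.natCast_dvd.1 h5, (Int.natAbs_pos.2 hdet).ne'⟩
    refine Matrix.eq_zero_of_mulVec_eq_zero hdetK ?_
    funext v
    have h6 : ((W.map (Int.castRingHom (ZMod p))) *ᵥ x) v = bv (ZMod p) (M (i v)) ⬝ᵥ x := by
      show ∑ u, (W.map (Int.castRingHom (ZMod p))) v u * x u = ∑ u, _ * x u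
      refine Finset.sum_congr rfl fun u _ => ?_
      rw [hWK (ZMod p) v u]
    rw [h6, hbx]
    rfl

end Pool.Agent.H95.SQ
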