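import Pool.Agent.H66.SP.Kill
import Pool.Agent.H95.SQ.RmA

/-!
# Job SQ-Rm: random rectangular 0/1 matrices have full column rank modulo all primes

`card_kerP_le`.  PROOF.  Let `σ = card S`.  Write `M = (M₁, M₂)`, `M₁ : Fin N₁ → S → Bool`,
`M₂ : Fin N₂ → S → Bool`.
(i) By `kill` (H66/SP/Kill) over `ℂ` with `E = ⊤`, `t = σ` the number of `M₁` for which some
`x ≠ 0` in `ℂ^S` is orthogonal to all rows is at most `2^(σ N₁) (2/3)^N₁ 3^σ`.
(ii) Suppose `M₁` is not of this kind.  Let `P = P(M₁)`, `card P ≤ σ^2`, be the set of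
`primes_rank`.  If `M` has a kernel vector `x ≠ 0` modulo `p` then `p ∈ P`, and `M₂` has a
kernel vector mod `p`; by `kill` over `ZMod p` the number of such `M₂` is at most
`2^(σ N₂) (2/3)^N₂ 3^σ`.
The union bound gives the result.  (See `card_final_le` in H66/SP/FinC.lean for the same two step
count.)
-/

set_option autoImplicit false

namespace Pool.Agent.H95.SQ

open Matrix Classical Pool.Agent.H66.SP

/-- the matrices with a kernel vector -/
noncomputable def rmBad (K : Type*) [Field K] (S : Type*) [Fintype S] (N : ℕ) :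
    Finset (Fin N → S → Bool) :=
  (Finset.univ : Finset (Fin N → S → Bool)).filter
    (fun b => ∃ x : S → K, x ≠ 0 ∧ ∀ i, bv K (b i) ⬝ᵥ x = 0)

theorem rm_mem {K : Type*} [Field K] {S : Type*} [Fintype S] {N : ℕ} (b : Fin N → S → Bool) :
    b ∈ rmBad K S N ↔ ∃ x : S → K, x ≠ 0 ∧ ∀ i, bv K (b i) ⬝ᵥ x = 0 := by
  unfold rmBad
  rw [Finset.mem_filter]
  exact ⟨fun h => h.2, fun h => ⟨Finset.mem_univ _, h⟩⟩

theorem rm_kill {K : Type*} [Field K] {S : Type*} [Fintype S] [DecidableEq S] (N : ℕ) :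
    ((rmBad K S N).card : ℝ) ≤
      2 ^ (Fintype.card S * N) * ((2 / 3) ^ N * 3 ^ Fintype.card S) := by
  have h0 : rmBad K S N = (Finset.univ : Finset (Fin N → S → Bool)).filter
      (fun b => ∃ x ∈ (⊤ : Submodule K (S → K)), x ≠ 0 ∧ ∀ i, bv K (b i) ⬝ᵥ x = 0) := by
    ext b
    rw [rm_mem, Finset.mem_filter]
    constructor
    · rintro ⟨x, h1, h2⟩
      exact ⟨Finset.mem_univ _, x, Submodule.mem_top, h1, h2⟩
    · rintro ⟨-, x, -, h1, h2⟩
      exact ⟨x, h1, h2⟩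
  have h1 := kill N (Fintype.card S) (⊤ : Submodule K (S → K))
    (by rw [finrank_top, Module.finrank_fintype_fun_eq_card])
  rw [← h0] at h1
  have h3 : (0 : ℝ) < 3 ^ N := by positivity
  have e : (2 : ℝ) ^ (Fintype.card S * N) * ((2 / 3) ^ N * 3 ^ Fintype.card S) =
      (2 ^ (Fintype.card S * N) * (2 ^ N * 3 ^ Fintype.card S)) / 3 ^ N := by
    rw [div_pow]
    ring
  rw [e, le_div_iff₀ h3]
  exact_mod_cast h1

/-- the same for a number `p` which need not be prime -/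
noncomputable def rmBadP (p : ℕ) (S : Type*) [Fintype S] (N : ℕ) : Finset (Fin N → S → Bool) :=
  if hp : p.Prime then (haveI : Fact p.Prime := ⟨hp⟩; rmBad (ZMod p) S N) else ∅

theorem rm_memP {p : ℕ} [hp : Fact p.Prime] {S : Type*} [Fintype S] {N : ℕ}
    (b : Fin N → S → Bool) (x : S → ZMod p) (hx : x ≠ 0) (h : ∀ i, bv (ZMod p) (b i) ⬝ᵥ x = 0) :
    b ∈ rmBadP p S N := by
  unfold rmBadP
  rw [dif_pos hp.out, rm_mem]
  exact ⟨x, hx, h⟩

theorem rm_killP (p : ℕ) {S : Type*} [Fintype S] [DecidableEq S] (N : ℕ) :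
    ((rmBadP p S N).card : ℝ) ≤
      2 ^ (Fintype.card S * N) * ((2 / 3) ^ N * 3 ^ Fintype.card S) := by
  unfold rmBadP
  by_cases hp : p.Prime
  · rw [dif_pos hp]
    haveI : Fact p.Prime := ⟨hp⟩
    exact rm_kill N
  · rw [dif_neg hp, Finset.card_empty, Nat.cast_zero]
    positivity

theorem card_kerP_le {S : Type*} [Fintype S] [DecidableEq S] (N₁ N₂ : ℕ) :
    (((Finset.univ : Finset (Fin N₁ ⊕ Fin N₂ → S → Bool)).filter (fun M => KerP M)).card : ℝ) ≤
      2 ^ (Fintype.card S * (N₁ + N₂)) *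
        ((2 / 3) ^ N₁ * 3 ^ Fintype.card S +
          (Fintype.card S : ℝ) ^ 2 * ((2 / 3) ^ N₂ * 3 ^ Fintype.card S)) := by
  have hP0 : ∀ b : Fin N₁ → S → Bool, ∃ P : Finset ℕ, P.card ≤ Fintype.card S ^ 2 ∧
      (b ∉ rmBad ℂ S N₁ →
        ∀ (p : ℕ) [Fact p.Prime], p ∉ P → ∀ x : S → ZMod p,
          (∀ i, bv (ZMod p) (b i) ⬝ᵥ x = 0) → x = 0) := by
    intro b
    by_cases h : b ∈ rmBad ℂ S N₁
    · exact ⟨∅, by simp, fun h' => absurd h h'⟩
    · obtain ⟨P, h1, h2⟩ := primes_rank b (fun x hx => by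
        by_contra hx0
        exact h ((rm_mem b).2 ⟨x, hx0, hx⟩))
      exact ⟨P, h1, fun _ => h2⟩
  choose P hPc hP using hP0
  set B1 : Finset (Fin N₁ → S → Bool) := rmBad ℂ S N₁ with hB1
  set B2 : ℕ → Finset (Fin N₂ → S → Bool) := fun p => rmBadP p S N₂ with hB2
  set k := Fintype.card S with hk
  set Q := ((Finset.univ : Finset (Fin N₁ ⊕ Fin N₂ → S → Bool)).filter (fun M => KerP M)) with hQ
  have hS : ∀ b ∈ Q, (fun i => b (Sum.inl i)) ∈ B1 ∨
      ∃ p ∈ P (fun i => b (Sum.inl i)), (fun i => b (Sum.inr i)) ∈ B2 p := by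
    intro b hb
    rw [hQ, Finset.mem_filter] at hb
    obtain ⟨p, hp, x, hx0, hx⟩ := hb.2
    by_cases hc : (fun i => b (Sum.inl i)) ∈ rmBad ℂ S N₁
    · left
      exact hc
    · right
      refine ⟨p, ?_, ?_⟩
      · by_contra hnp
        exact hx0 (hP _ hc p hnp x (fun i => hx (Sum.inl i)))
      · exact rm_memP _ x hx0 (fun i => hx (Sum.inr i))
  let T : Finset ((Fin N₁ → S → Bool) × (Fin N₂ → S → Bool)) :=
    B1 ×ˢ Finset.univ ∪
      (Finset.univ : Finset (Fin N₁ → S → Bool)).biUnion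
        (fun b1 => ({b1} : Finset _) ×ˢ (P b1).biUnion B2)
  have hcard : Q.card ≤ T.card := by
    apply Finset.card_le_card_of_injOn
      (fun b => ((fun i => b (Sum.inl i)), (fun i => b (Sum.inr i))))
    · intro b hb
      simp only [T, Finset.coe_union, Finset.coe_product, Finset.mem_coe, Finset.mem_union,
        Finset.mem_product, Finset.mem_univ, and_true, Finset.mem_biUnion, true_and,
        Finset.mem_singleton, Set.mem_union, Set.mem_prod, Finset.coe_univ, Set.mem_univ]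
      rcases hS b hb with h | ⟨p, hp, hp2⟩
      · left
        exact h
      · right
        exact ⟨fun i => b (Sum.inl i), rfl, p, hp, hp2⟩
    · intro b _ b' _ hbb
      simp only [Prod.mk.injEq] at hbb
      funext i
      rcases i with i | i
      · exact congrFun hbb.1 i
      · exact congrFun hbb.2 i
  have hu1 : (Finset.univ : Finset (Fin N₁ → S → Bool)).card = 2 ^ (k * N₁) := by
    rw [Finset.card_univ, Fintype.card_fun, Fintype.card_fun, Fintype.card_bool,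
      Fintype.card_fin, ← pow_mul]
  have hu2 : (Finset.univ : Finset (Fin N₂ → S → Bool)).card = 2 ^ (k * N₂) := by
    rw [Finset.card_univ, Fintype.card_fun, Fintype.card_fun, Fintype.card_bool,
      Fintype.card_fin, ← pow_mul]
  have hT : (T.card : ℝ) ≤ B1.card * 2 ^ (k * N₂) +
      ∑ b1 : Fin N₁ → S → Bool, ∑ p ∈ P b1, ((B2 p).card : ℝ) := by
    have e1 : T.card ≤ B1.card * 2 ^ (k * N₂) +
        ∑ b1 : Fin N₁ → S → Bool, ∑ p ∈ P b1, (B2 p).card := by
      refine (Finset.card_union_le _ _).trans (Nat.add_le_add ?_ ?_)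
      · rw [Finset.card_product, hu2]
      · refine Finset.card_biUnion_le.trans (Finset.sum_le_sum fun b1 _ => ?_)
        rw [Finset.card_product, Finset.card_singleton, one_mul]
        exact Finset.card_biUnion_le
    exact_mod_cast e1
  have r1 : (B1.card : ℝ) ≤ 2 ^ (k * N₁) * ((2 / 3) ^ N₁ * 3 ^ k) := rm_kill (K := ℂ) N₁
  have hnn : (0 : ℝ) ≤ 2 ^ (k * N₂) * ((2 / 3) ^ N₂ * 3 ^ k) := by positivity
  have r2 : ∀ p, ((B2 p).card : ℝ) ≤ 2 ^ (k * N₂) * ((2 / 3) ^ N₂ * 3 ^ k) :=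
    fun p => rm_killP p N₂
  have r3 : ∑ b1 : Fin N₁ → S → Bool, ∑ p ∈ P b1, ((B2 p).card : ℝ) ≤
      2 ^ (k * N₁) * ((k : ℝ) ^ 2 * (2 ^ (k * N₂) * ((2 / 3) ^ N₂ * 3 ^ k))) := by
    calc ∑ b1 : Fin N₁ → S → Bool, ∑ p ∈ P b1, ((B2 p).card : ℝ)
        ≤ ∑ b1 : Fin N₁ → S → Bool, ((k : ℝ) ^ 2 *
          (2 ^ (k * N₂) * ((2 / 3) ^ N₂ * 3 ^ k))) := by
          refine Finset.sum_le_sum fun b1 _ => ?_
          refine (Finset.sum_le_sum fun p _ => r2 p).trans ?_
          rw [Finset.sum_const, nsmul_eq_mul]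
          refine mul_le_mul_of_nonneg_right ?_ hnn
          exact_mod_cast hPc b1
      _ = _ := by
          rw [Finset.sum_const, nsmul_eq_mul, hu1]
          push_cast
          ring
  have hS' : (Q.card : ℝ) ≤ T.card := by exact_mod_cast hcard
  have r4 : (B1.card : ℝ) * 2 ^ (k * N₂) ≤
      2 ^ (k * N₁) * ((2 / 3) ^ N₁ * 3 ^ k) * 2 ^ (k * N₂) :=
    mul_le_mul_of_nonneg_right r1 (by positivity)
  have e5 : (2 : ℝ) ^ (k * (N₁ + N₂)) = 2 ^ (k * N₁) * 2 ^ (k * N₂) := by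
    rw [← pow_add, mul_add]
  calc (Q.card : ℝ) ≤ T.card := hS'
    _ ≤ _ := hT
    _ ≤ 2 ^ (k * N₁) * ((2 / 3) ^ N₁ * 3 ^ k) * 2 ^ (k * N₂) +
        2 ^ (k * N₁) * ((k : ℝ) ^ 2 * (2 ^ (k * N₂) * ((2 / 3) ^ N₂ * 3 ^ k))) :=
          add_le_add r4 r3
    _ = _ := by
        rw [e5]
        ring

end Pool.Agent.H95.SQ
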