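import Pool.Agent.H66.SP.GEquiv
import Pool.Agent.H95.SQ.Rm

/-!
# Job SQ-NsA: graphs with a sparse vector whose image is sparse, for fixed supports

`card_ker_graph`.  PROOF.  Let `V₁ = {v // v ∈ S}`, `R = {v // v ∉ S}`; transport along
`V ≃ V₁ ⊕ R` (`Equiv.sumCompl`; `Equiv.simpleGraph`, `Finset.card_equiv`) and use
`card_filter_glue`: a graph is a triple `(G₁, b, H)` with `b : R → V₁ → Bool`,
`b r u = true` iff `r` and `u` are adjacent.  Let `R₀ = {v // v ∉ S ∧ v ∉ T}`, with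
`card R₀ = N₁ + N₂` elements; identify it with `Fin N₁ ⊕ Fin N₂`.  If `x ≠ 0` vanishes outside of
`S` and `(A x) v = 0` for `v ∉ S`, `v ∉ T`, then the restriction of `x` to `V₁` is a nonzero vector
in the kernel mod `p` of the matrix `M : R₀ → V₁ → Bool`, the restriction of `b` (`KerP M`).
For fixed `G₁, H` the number of such `b` is at most `2^(card V₁ * card {r ∈ T})` times the number of
`M` with `KerP M` (the restriction map `b ↦ (b|_{R₀}, b|_T)` is a bijection, as
`S` and `T` are disjoint), and `card_kerP_le` gives the factor; sum over `G₁`, `H` and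
`card_graph_sum`.
-/

set_option autoImplicit false

namespace Pool.Agent.H95.SQ

open Matrix Classical Pool.Agent.H66.SP

/-- the event -/
def NsA_P {V : Type*} [Fintype V] (S T : Finset V) (G : SimpleGraph V) : Prop :=
  ∃ (p : ℕ) (_ : Fact p.Prime) (x : V → ZMod p), x ≠ 0 ∧ (∀ v, v ∉ S → x v = 0) ∧
    ∀ v, v ∉ S → v ∉ T → (adj (ZMod p) G *ᵥ x) v = 0

theorem NsA_transport {V W : Type*} [Fintype V] [DecidableEq V] [Fintype W] [DecidableEq W]
    (e : W ≃ V) (P : SimpleGraph V → Prop) :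
    ((Finset.univ : Finset (SimpleGraph V)).filter P).card =
      ((Finset.univ : Finset (SimpleGraph W)).filter (fun K => P (e.simpleGraph K))).card := by
  rw [Finset.card_filter, Finset.card_filter,
    ← Equiv.sum_comp e.simpleGraph (fun G => if P G then 1 else 0)]

theorem NsA_kerP {V : Type*} [Fintype V] [DecidableEq V] (S T : Finset V) {I : Type*}
    (ψ : I → {v // v ∉ S}) (hψ : ∀ i, (ψ i).1 ∉ T)
    (G : SimpleGraph {v // v ∈ S}) (b : {v // v ∉ S} → {v // v ∈ S} → Bool)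
    (H : SimpleGraph {v // v ∉ S})
    (h : NsA_P S T ((Equiv.sumCompl (fun v => v ∈ S)).simpleGraph (glue G b H))) :
    KerP (fun i => b (ψ i)) := by
  obtain ⟨p, hp, x, hx, hx0, hA⟩ := h
  refine ⟨p, hp, fun u => x u.1, ?_, ?_⟩
  · intro h0
    apply hx
    funext v
    by_cases hv : v ∈ S
    · exact congrFun h0 ⟨v, hv⟩
    · exact hx0 v hv
  · intro i
    have h1 := hA (ψ i).1 (ψ i).2 (hψ i)
    have h2 : (adj (ZMod p) ((Equiv.sumCompl (fun v => v ∈ S)).simpleGraph (glue G b H)) *ᵥ x)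
        (ψ i).1 = ∑ w, adj (ZMod p) ((Equiv.sumCompl (fun v => v ∈ S)).simpleGraph (glue G b H))
          (ψ i).1 w * x w := rfl
    rw [h2, ← Equiv.sum_comp (Equiv.sumCompl (fun v => v ∈ S)), Fintype.sum_sum_type] at h1
    have h3 : ∑ r : {v // v ∉ S}, adj (ZMod p)
        ((Equiv.sumCompl (fun v => v ∈ S)).simpleGraph (glue G b H)) (ψ i).1
        ((Equiv.sumCompl (fun v => v ∈ S)) (Sum.inr r)) *
          x ((Equiv.sumCompl (fun v => v ∈ S)) (Sum.inr r)) = 0 := by
      refine Finset.sum_eq_zero fun r _ => ?_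
      have : x ((Equiv.sumCompl (fun v => v ∈ S)) (Sum.inr r)) = 0 := hx0 r.1 r.2
      rw [this, mul_zero]
    rw [h3, add_zero] at h1
    rw [← h1]
    refine Finset.sum_congr rfl fun u _ => ?_
    have h4 : adj (ZMod p) ((Equiv.sumCompl (fun v => v ∈ S)).simpleGraph (glue G b H)) (ψ i).1
        ((Equiv.sumCompl (fun v => v ∈ S)) (Sum.inl u)) = bv (ZMod p) (b (ψ i)) u := by
      have h5 : ((Equiv.sumCompl (fun v => v ∈ S)).simpleGraph (glue G b H)).Adj (ψ i).1
          ((Equiv.sumCompl (fun v => v ∈ S)) (Sum.inl u)) ↔ b (ψ i) u = true := by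
        have h6 : (Equiv.sumCompl (fun v => v ∈ S)).symm (ψ i).1 = Sum.inr (ψ i) :=
          Equiv.sumCompl_symm_apply_of_neg (ψ i).2
        show (glue G b H).Adj ((Equiv.sumCompl (fun v => v ∈ S)).symm (ψ i).1)
          ((Equiv.sumCompl (fun v => v ∈ S)).symm
            ((Equiv.sumCompl (fun v => v ∈ S)) (Sum.inl u))) ↔ _
        rw [h6, Equiv.symm_apply_apply]
        exact Iff.rfl
      simp only [adj, bv, Matrix.of_apply]
      by_cases hb : b (ψ i) u = true
      · rw [if_pos (h5.2 hb), if_pos hb]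
      · rw [if_neg (fun hc => hb (h5.1 hc)), if_neg hb]
    rw [h4]
    rfl

theorem NsA_count {R R' I X : Type*} [Fintype R] [DecidableEq R] [Fintype R'] [DecidableEq R']
    [Fintype I] [DecidableEq I] [Fintype X] [DecidableEq X]
    (ψ : I → R) (χ : R' → R) (hs : ∀ r, (∃ i, ψ i = r) ∨ ∃ j, χ j = r) (P : (R → X) → Prop)
    (Q : (I → X) → Prop) (h : ∀ b, P b → Q (fun i => b (ψ i))) :
    ((Finset.univ : Finset (R → X)).filter P).card ≤
      ((Finset.univ : Finset (I → X)).filter Q).card * Fintype.card X ^ Fintype.card R' := by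
  rw [← Fintype.card_fun, ← Finset.card_univ, ← Finset.card_product]
  refine Finset.card_le_card_of_injOn (fun b => (fun i => b (ψ i), fun j => b (χ j))) ?_ ?_
  · intro b hb
    have hb' := (Finset.mem_filter.1 (Finset.mem_coe.1 hb)).2
    exact Finset.mem_coe.2 (Finset.mem_product.2
      ⟨Finset.mem_filter.2 ⟨Finset.mem_univ _, h b hb'⟩, Finset.mem_univ _⟩)
  · intro b _ b' _ hbb
    obtain ⟨h1, h2⟩ := Prod.ext_iff.1 hbb
    funext r
    rcases hs r with ⟨i, rfl⟩ | ⟨j, rfl⟩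
    · exact congrFun h1 i
    · exact congrFun h2 j

theorem card_ker_graph {V : Type*} [Fintype V] [DecidableEq V] (S T : Finset V)
    (hST : Disjoint S T) (N₁ N₂ : ℕ) (hN : N₁ + N₂ + S.card + T.card = Fintype.card V) :
    (((Finset.univ : Finset (SimpleGraph V)).filter (fun G =>
      ∃ (p : ℕ) (_ : Fact p.Prime) (x : V → ZMod p), x ≠ 0 ∧ (∀ v, v ∉ S → x v = 0) ∧
        ∀ v, v ∉ S → v ∉ T → (adj (ZMod p) G *ᵥ x) v = 0)).card : ℝ) ≤
      (Fintype.card (SimpleGraph V) : ℝ) *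
        ((2 / 3) ^ N₁ * 3 ^ S.card + (S.card : ℝ) ^ 2 * ((2 / 3) ^ N₂ * 3 ^ S.card)) := by
  have e0 : ((Finset.univ : Finset (SimpleGraph V)).filter (fun G =>
      ∃ (p : ℕ) (_ : Fact p.Prime) (x : V → ZMod p), x ≠ 0 ∧ (∀ v, v ∉ S → x v = 0) ∧
        ∀ v, v ∉ S → v ∉ T → (adj (ZMod p) G *ᵥ x) v = 0)).card =
      ((Finset.univ : Finset (SimpleGraph V)).filter (NsA_P S T)).card := rfl
  have hcS : Fintype.card {v // v ∈ S} = S.card := Fintype.card_coe S
  have hcR : Fintype.card {v // v ∉ S} = N₁ + N₂ + T.card := by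
    have h := Fintype.card_subtype_compl (fun v => v ∈ S)
    rw [hcS] at h
    omega
  have hcT : Fintype.card {v // v ∈ T} = T.card := Fintype.card_coe T
  have hc0 : Fintype.card (Fin N₁ ⊕ Fin N₂) = Fintype.card {v // v ∉ S ∧ v ∉ T} := by
    have h1 : Fintype.card {v // v ∉ S ∧ v ∉ T} = Fintype.card {v // ¬ v ∈ S ∪ T} := by
      refine Fintype.card_congr (Equiv.subtypeEquivRight fun v => ?_)
      rw [Finset.mem_union, not_or]
    have h2 := Fintype.card_subtype_compl (fun v => v ∈ S ∪ T)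
    have h3 : Fintype.card {v // v ∈ S ∪ T} = S.card + T.card := by
      rw [Fintype.card_coe, Finset.card_union_of_disjoint hST]
    rw [h1, h2, h3, Fintype.card_sum, Fintype.card_fin, Fintype.card_fin]
    omega
  let φ : Fin N₁ ⊕ Fin N₂ ≃ {v // v ∉ S ∧ v ∉ T} := Fintype.equivOfCardEq hc0
  let ψ : Fin N₁ ⊕ Fin N₂ → {v // v ∉ S} := fun i => ⟨(φ i).1, (φ i).2.1⟩
  let χ : {v // v ∈ T} → {v // v ∉ S} := fun j =>
    ⟨j.1, fun h => Finset.disjoint_left.1 hST h j.2⟩
  have hs : ∀ r : {v // v ∉ S}, (∃ i, ψ i = r) ∨ ∃ j, χ j = r := by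
    rintro ⟨r, hr⟩
    by_cases hT : r ∈ T
    · exact Or.inr ⟨⟨r, hT⟩, rfl⟩
    · refine Or.inl ⟨φ.symm ⟨r, hr, hT⟩, ?_⟩
      refine Subtype.ext ?_
      show (φ (φ.symm ⟨r, hr, hT⟩)).1 = r
      rw [Equiv.apply_symm_apply]
  set δ : ℝ := (2 / 3) ^ N₁ * 3 ^ S.card + (S.card : ℝ) ^ 2 * ((2 / 3) ^ N₂ * 3 ^ S.card) with hδ
  have hδ0 : 0 ≤ δ := by positivity
  have key : ∀ (G : SimpleGraph {v // v ∈ S}) (H : SimpleGraph {v // v ∉ S}),
      (((Finset.univ : Finset ({v // v ∉ S} → {v // v ∈ S} → Bool)).filter (fun b =>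
        NsA_P S T ((Equiv.sumCompl (fun v => v ∈ S)).simpleGraph (glue G b H)))).card : ℝ) ≤
        2 ^ (S.card * (N₁ + N₂ + T.card)) * δ := by
    intro G H
    have h1 := NsA_count ψ χ hs (fun b =>
        NsA_P S T ((Equiv.sumCompl (fun v => v ∈ S)).simpleGraph (glue G b H)))
        (fun M => KerP M) (fun b hb => NsA_kerP S T ψ (fun i => (φ i).2.2) G b H hb)
    have h2 := card_kerP_le (S := {v // v ∈ S}) N₁ N₂
    rw [hcS] at h2
    have h3 : (Fintype.card ({v // v ∈ S} → Bool) ^ Fintype.card {v // v ∈ T} : ℕ) =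
        2 ^ (S.card * T.card) := by
      rw [Fintype.card_fun, hcS, Fintype.card_bool, hcT, pow_mul]
    rw [h3] at h1
    have h1' : (((Finset.univ : Finset ({v // v ∉ S} → {v // v ∈ S} → Bool)).filter (fun b =>
        NsA_P S T ((Equiv.sumCompl (fun v => v ∈ S)).simpleGraph (glue G b H)))).card : ℝ) ≤
        (((Finset.univ : Finset (Fin N₁ ⊕ Fin N₂ → {v // v ∈ S} → Bool)).filter
          (fun M => KerP M)).card : ℝ) * 2 ^ (S.card * T.card) := by
      exact_mod_cast h1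
    refine h1'.trans ((mul_le_mul_of_nonneg_right h2 (by positivity)).trans (le_of_eq ?_))
    rw [mul_add S.card (N₁ + N₂) T.card, pow_add]
    ring
  rw [e0, NsA_transport (Equiv.sumCompl (fun v => v ∈ S)) (NsA_P S T), card_filter_glue]
  push_cast
  have h4 : ∑ G : SimpleGraph {v // v ∈ S}, ∑ H : SimpleGraph {v // v ∉ S},
      (((Finset.univ : Finset ({v // v ∉ S} → {v // v ∈ S} → Bool)).filter (fun b =>
        NsA_P S T ((Equiv.sumCompl (fun v => v ∈ S)).simpleGraph (glue G b H)))).card : ℝ) ≤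
      ∑ _G : SimpleGraph {v // v ∈ S}, ∑ _H : SimpleGraph {v // v ∉ S},
        2 ^ (S.card * (N₁ + N₂ + T.card)) * δ :=
    Finset.sum_le_sum fun G _ => Finset.sum_le_sum fun H _ => key G H
  refine h4.trans (le_of_eq ?_)
  rw [Finset.sum_const, Finset.sum_const, Finset.card_univ, Finset.card_univ, nsmul_eq_mul,
    nsmul_eq_mul]
  have h5 : Fintype.card (SimpleGraph V) =
      Fintype.card (SimpleGraph ({v // v ∈ S} ⊕ {v // v ∉ S})) :=
    Fintype.card_congr (Equiv.sumCompl (fun v => v ∈ S)).simpleGraph.symm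
  rw [h5, card_graph_sum, hcS, hcR]
  push_cast
  ring

end Pool.Agent.H95.SQ
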