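import Pool.Agent.H95.SQ.Defs

/-!
# Job SQ-HalA: many disjoint bases among the coordinates of a dense subspace

`exists_bases`.  `W` has a basis `w : Fin T → W` and every nonzero vector of `W` has more than `s`
nonzero coordinates; `N * T ≤ s`.  Then there are `N * T` different coordinates `c (l, a)` such that
for every `l` the `T × T` matrix `(w a) (c (l, a'))` is invertible.

PROOF by induction on `N`.  `N = 0`: nothing (`Fin 0 × Fin T` is empty).  Step `N → N + 1`,
`(N + 1) * T ≤ s`: let `c` be as given by induction for `N`, `U` the set of the `N * T` used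
coordinates.  The functionals `x ↦ x v`, `v ∉ U`, on `W` span the dual of `W`: otherwise there is
`x ∈ W`, `x ≠ 0`, with `x v = 0` for all `v ∉ U`, so `nz x ≤ card U = N * T ≤ s`, a contradiction.
So some `T` of them, with coordinates `v_1, ..., v_T ∉ U` form a basis of the dual
(`exists_linearIndependent'`, see `exists_pivots` in `H66/SP/Odl.lean`; one may also apply
`exists_pivots` to the image of `W` under the restriction to the coordinates outside `U`, which is
injective on `W`), and the matrix `(w a) v_{a'}` is invertible: its rows are linearly independent,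
as `∑_a λ_a w a` vanishes at all `v_{a'}` only if it is `0`.  Put `c (N, a') = v_{a'}`
(`Fin.snoc`/`Fin.lastCases` in the first variable).
A variant that is easier for the induction: state the induction for all finite sets `U` of
forbidden coordinates with `card U + N * T ≤ s` and all values of `c` outside of `U`.
-/

set_option autoImplicit false
set_option linter.style.haveILetI false

namespace Pool.Agent.H95.SQ

open Matrix Classical Pool.Agent.H66.SP

theorem exists_bases_step {K : Type*} [Field K] {V : Type*} [Fintype V] [DecidableEq V] {T : ℕ}
    (W : Submodule K (V → K)) (w : Module.Basis (Fin T) K W) (s : ℕ) (hW : Dense W s)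
    (U : Finset V) (hU : U.card ≤ s) :
    ∃ c : Fin T → V, Function.Injective c ∧ (∀ a, c a ∉ U) ∧
      IsUnit (Matrix.of fun a a' : Fin T => ((w a : W) : V → K) (c a')).det := by
  let col : {v : V // v ∉ U} → (Fin T → K) := fun v a => ((w a : W) : V → K) v
  have hspan : Submodule.span K (Set.range col) = ⊤ := by
    by_contra hne
    obtain ⟨f, hf0, hf⟩ := Submodule.exists_le_ker_of_lt_top _ (lt_top_iff_ne_top.2 hne)
    apply hf0
    have hfe : ∀ y : Fin T → K, f y = ∑ a, y a * f (Pi.single a 1) := by
      intro y
      conv_lhs => rw [← Finset.univ_sum_single y]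
      rw [map_sum]
      refine Finset.sum_congr rfl fun a _ => ?_
      rw [← smul_eq_mul, ← map_smul]
      congr 1
      ext b
      by_cases hb : b = a
      · subst hb; simp
      · simp [Pi.single_eq_of_ne hb]
    let x : W := ∑ a, f (Pi.single a 1) • w a
    have hx : ∀ v : V, v ∉ U → (x : V → K) v = 0 := by
      intro v hv
      have h1 : f (col ⟨v, hv⟩) = 0 := hf (Submodule.subset_span ⟨⟨v, hv⟩, rfl⟩)
      rw [hfe] at h1
      simp only [x, Submodule.coe_sum, Submodule.coe_smul, Finset.sum_apply, Pi.smul_apply,
        smul_eq_mul]
      rw [← h1]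
      exact Finset.sum_congr rfl fun a _ => mul_comm _ _
    have hx0 : x = 0 := by
      by_contra hx0
      have h1 := hW (x : V → K) x.2 (by simpa using hx0)
      have h2 : nz (x : V → K) ≤ U.card := by
        unfold nz
        refine Finset.card_le_card fun v hv => ?_
        rw [Finset.mem_filter] at hv
        by_contra hvU
        exact hv.2 (hx v hvU)
      omega
    have hl := Fintype.linearIndependent_iff.1 w.linearIndependent _ hx0
    ext a
    simpa using hl a
  obtain ⟨κ, a, ha, hs, hl⟩ := exists_linearIndependent' (K := K) col
  rw [hspan] at hs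
  haveI : Finite κ := Finite.of_injective a ha
  haveI : Fintype κ := Fintype.ofFinite κ
  let B := Module.Basis.mk hl (le_of_eq hs.symm)
  have hcard : Fintype.card κ = Fintype.card (Fin T) := by
    rw [← Module.finrank_eq_card_basis B]
    simp
  let e : Fin T ≃ κ := (Fintype.equivOfCardEq hcard).symm
  refine ⟨fun t => (a (e t) : V), fun t t' h => e.injective (ha (Subtype.ext h)),
    fun t => (a (e t)).2, ?_⟩
  rw [← Matrix.isUnit_iff_isUnit_det, ← Matrix.linearIndependent_cols_iff_isUnit]
  have h3 : LinearIndependent K ((col ∘ a) ∘ e) := hl.comp _ e.injective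
  exact h3

theorem exists_bases_aux {K : Type*} [Field K] {V : Type*} [Fintype V] [DecidableEq V] {T : ℕ}
    (W : Submodule K (V → K)) (w : Module.Basis (Fin T) K W) (s : ℕ) (hW : Dense W s) :
    ∀ (N : ℕ) (U : Finset V), U.card + N * T ≤ s →
    ∃ c : Fin N × Fin T → V, Function.Injective c ∧ (∀ x, c x ∉ U) ∧ ∀ l : Fin N,
      IsUnit (Matrix.of fun a a' : Fin T => ((w a : W) : V → K) (c (l, a'))).det := by
  intro N
  induction N with
  | zero =>
    intro U _
    exact ⟨fun x => x.1.elim0, fun x => x.1.elim0, fun x => x.1.elim0, fun l => l.elim0⟩
  | succ N ih =>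
    intro U hU
    rw [Nat.succ_mul] at hU
    obtain ⟨v, hvi, hvU, hvd⟩ := exists_bases_step W w s hW U (by omega)
    have hcU : (U ∪ Finset.univ.image v).card ≤ U.card + T := by
      refine (Finset.card_union_le _ _).trans ?_
      have := Finset.card_image_le (s := (Finset.univ : Finset (Fin T))) (f := v)
      simp at this
      omega
    obtain ⟨c, hci, hcU', hcd⟩ := ih (U ∪ Finset.univ.image v) (by omega)
    have hcv : ∀ x t, c x ≠ v t := by
      intro x t h
      apply hcU' x
      rw [h]
      exact Finset.mem_union_right _ (Finset.mem_image_of_mem _ (Finset.mem_univ t))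
    refine ⟨fun x => Fin.cases (motive := fun _ => V) (v x.2) (fun l => c (l, x.2)) x.1,
      ?_, ?_, ?_⟩
    · rintro ⟨l, t⟩ ⟨l', t'⟩ h
      induction l using Fin.cases with
      | zero =>
        induction l' using Fin.cases with
        | zero =>
          simp only [Fin.cases_zero] at h
          rw [hvi h]
        | succ l' =>
          simp only [Fin.cases_zero, Fin.cases_succ] at h
          exact absurd h.symm (hcv _ _)
      | succ l =>
        induction l' using Fin.cases with
        | zero =>
          simp only [Fin.cases_zero, Fin.cases_succ] at h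
          exact absurd h (hcv _ _)
        | succ l' =>
          simp only [Fin.cases_succ] at h
          have := hci h
          rw [Prod.mk.injEq] at this
          rw [this.1, this.2]
    · rintro ⟨l, t⟩
      induction l using Fin.cases with
      | zero => exact hvU t
      | succ l =>
        intro h
        exact hcU' (l, t) (Finset.mem_union_left _ h)
    · intro l
      induction l using Fin.cases with
      | zero => exact hvd
      | succ l => exact hcd l

theorem exists_bases {K : Type*} [Field K] {V : Type*} [Fintype V] [DecidableEq V] {T : ℕ}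
    (W : Submodule K (V → K)) (w : Module.Basis (Fin T) K W) (s N : ℕ) (hW : Dense W s)
    (hN : N * T ≤ s) :
    ∃ c : Fin N × Fin T → V, Function.Injective c ∧ ∀ l : Fin N,
      IsUnit (Matrix.of fun a a' : Fin T => ((w a : W) : V → K) (c (l, a'))).det := by
  obtain ⟨c, h1, _, h3⟩ := exists_bases_aux W w s hW N ∅ (by simpa using hN)
  exact ⟨c, h1, h3⟩

end Pool.Agent.H95.SQ
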