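import Pool.Agent.H95.SQ.Desc

/-!
# Job SQ-Desc2: dimension of the descent

`desc_finrank`: let `d = dg p μ`, `K = KK p`.  For `i < d` let `μ_i = μ^(p^i)`; these are `d`
different elements.  Let `E_i` be the image of `E` under `x ↦ (x_v^(p^i))_v`, a `K`-subspace with
`finrank E_i = finrank E`, and `E_i ≤ eig (adj K G) μ_i`.  Eigenspaces for
different eigenvalues are independent, so `F = ⨆_i E_i` has
dimension `d * finrank E`.  Every `c ∈ ann E`, mapped to `K`, is orthogonal to `F`:
`c · x^(p^i) = (c · x)^(p^i) = 0`.  A matrix over `ZMod p` with a right inverse has a right inverse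
over `K`.
-/

set_option autoImplicit false

namespace Pool.Agent.H95.SQ

open Matrix Classical Pool.Agent.H66.SP

/-- the Frobenius twist of a subspace -/
noncomputable def frobSub (p : ℕ) [Fact p.Prime] {V : Type*} (i : ℕ)
    (E : Submodule (KK p) (V → KK p)) : Submodule (KK p) (V → KK p) where
  carrier := {y | (fun v => (iterateFrobeniusEquiv (KK p) p i).symm (y v)) ∈ E}
  add_mem' := by
    intro a b ha hb
    have h := E.add_mem ha hb
    have h3 : (fun v => (iterateFrobeniusEquiv (KK p) p i).symm ((a + b) v)) =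
        (fun v => (iterateFrobeniusEquiv (KK p) p i).symm (a v)) +
          (fun v => (iterateFrobeniusEquiv (KK p) p i).symm (b v)) := by
      funext v
      simp
    show (fun v => (iterateFrobeniusEquiv (KK p) p i).symm ((a + b) v)) ∈ E
    rw [h3]
    exact h
  zero_mem' := by
    show (fun v => (iterateFrobeniusEquiv (KK p) p i).symm ((0 : V → KK p) v)) ∈ E
    have h3 : (fun v => (iterateFrobeniusEquiv (KK p) p i).symm ((0 : V → KK p) v)) = 0 := by
      funext v
      simp
    rw [h3]
    exact E.zero_mem
  smul_mem' := by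
    intro r a ha
    have h := E.smul_mem ((iterateFrobeniusEquiv (KK p) p i).symm r) ha
    have h3 : (fun v => (iterateFrobeniusEquiv (KK p) p i).symm ((r • a) v)) =
        ((iterateFrobeniusEquiv (KK p) p i).symm r) •
          (fun v => (iterateFrobeniusEquiv (KK p) p i).symm (a v)) := by
      funext v
      simp
    show (fun v => (iterateFrobeniusEquiv (KK p) p i).symm ((r • a) v)) ∈ E
    rw [h3]
    exact h

theorem mem_frobSub (p : ℕ) [Fact p.Prime] {V : Type*} (i : ℕ)
    (E : Submodule (KK p) (V → KK p)) (y : V → KK p) :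
    y ∈ frobSub p i E ↔ (fun v => (iterateFrobeniusEquiv (KK p) p i).symm (y v)) ∈ E := Iff.rfl

theorem exists_of_mem_frobSub (p : ℕ) [Fact p.Prime] {V : Type*} (i : ℕ)
    (E : Submodule (KK p) (V → KK p)) (y : V → KK p) (hy : y ∈ frobSub p i E) :
    ∃ x ∈ E, y = fun v => iterateFrobenius (KK p) p i (x v) := by
  refine ⟨_, (mem_frobSub p i E y).mp hy, ?_⟩
  funext v
  have h := (iterateFrobeniusEquiv (KK p) p i).apply_symm_apply (y v)
  rw [← coe_iterateFrobeniusEquiv, h]

/-- the twist is a semilinear bijection -/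
noncomputable def frobEquiv (p : ℕ) [Fact p.Prime] {V : Type*} (i : ℕ)
    (E : Submodule (KK p) (V → KK p)) : E ≃+ frobSub p i E where
  toFun x := ⟨fun v => iterateFrobeniusEquiv (KK p) p i (x.1 v), by
    rw [mem_frobSub]
    have h3 : (fun v => (iterateFrobeniusEquiv (KK p) p i).symm
        (iterateFrobeniusEquiv (KK p) p i (x.1 v))) = x.1 := by
      funext v
      exact (iterateFrobeniusEquiv (KK p) p i).symm_apply_apply (x.1 v)
    rw [h3]
    exact x.2⟩
  invFun y := ⟨fun v => (iterateFrobeniusEquiv (KK p) p i).symm (y.1 v), y.2⟩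
  left_inv x := by
    apply Subtype.ext
    funext v
    exact (iterateFrobeniusEquiv (KK p) p i).symm_apply_apply (x.1 v)
  right_inv y := by
    apply Subtype.ext
    funext v
    exact (iterateFrobeniusEquiv (KK p) p i).apply_symm_apply (y.1 v)
  map_add' x y := by
    apply Subtype.ext
    funext v
    simp

theorem finrank_frobSub (p : ℕ) [Fact p.Prime] {V : Type*} [Fintype V] (i : ℕ)
    (E : Submodule (KK p) (V → KK p)) :
    Module.finrank (KK p) (frobSub p i E) = Module.finrank (KK p) E := by
  have h := rank_eq_of_equiv_equiv (iterateFrobeniusEquiv (KK p) p i) (frobEquiv p i E)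
    (iterateFrobeniusEquiv (KK p) p i).bijective (by
      intro r m
      apply Subtype.ext
      funext v
      show iterateFrobeniusEquiv (KK p) p i (r * m.1 v) =
        iterateFrobeniusEquiv (KK p) p i r * iterateFrobeniusEquiv (KK p) p i (m.1 v)
      exact map_mul _ _ _)
  unfold Module.finrank
  rw [h]

theorem frobSub_le (p : ℕ) [Fact p.Prime] {V : Type*} [Fintype V] [DecidableEq V]
    (G : SimpleGraph V) (μ : KK p) (E : Submodule (KK p) (V → KK p))
    (hE : E ≤ eig (adj (KK p) G) μ) (i : ℕ) :
    frobSub p i E ≤ eig (adj (KK p) G) (μ ^ p ^ i) := by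
  intro y hy
  obtain ⟨x, hx, rfl⟩ := exists_of_mem_frobSub p i E y hy
  have h1 := (mem_eig _ _ _).mp (hE hx)
  rw [mem_eig]
  funext v
  have h2 := congrArg (iterateFrobenius (KK p) p i) (congrFun h1 v)
  have h3 : iterateFrobenius (KK p) p i ((adj (KK p) G *ᵥ x) v) =
      (adj (KK p) G *ᵥ (fun v => iterateFrobenius (KK p) p i (x v))) v := by
    unfold Matrix.mulVec dotProduct
    rw [map_sum]
    refine Finset.sum_congr rfl fun u _ => ?_
    rw [map_mul]
    congr 1
    show iterateFrobenius (KK p) p i (if G.Adj v u then 1 else 0) = if G.Adj v u then 1 else 0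
    split_ifs
    · exact map_one _
    · exact map_zero _
  rw [← h3, h2]
  show iterateFrobenius (KK p) p i (μ * x v) = μ ^ p ^ i * iterateFrobenius (KK p) p i (x v)
  rw [map_mul]
  rfl

theorem conj_inj (p : ℕ) [Fact p.Prime] (μ : KK p) :
    Function.Injective (fun i : Fin (dg p μ) => μ ^ p ^ (i : ℕ)) := by
  have key : ∀ i j : ℕ, i < j → j < dg p μ → μ ^ p ^ i ≠ μ ^ p ^ j := by
    intro i j hij hj h
    have hj' : j = i + (j - i) := by omega
    have h1 : iterateFrobenius (KK p) p i μ =
        iterateFrobenius (KK p) p i (iterateFrobenius (KK p) p (j - i) μ) := by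
      rw [← iterateFrobenius_add_apply, ← hj']
      exact h
    have h2 := iterateFrobenius_inj (KK p) p i h1
    rw [iterateFrobenius_def] at h2
    have hint : IsIntegral (ZMod p) μ := Algebra.IsIntegral.isIntegral μ
    have h3 : minpoly (ZMod p) μ ∣ Polynomial.X ^ (Nat.card (ZMod p)) ^ (j - i) - Polynomial.X := by
      apply minpoly.dvd
      rw [map_sub, map_pow, Polynomial.aeval_X, Nat.card_zmod, ← h2, sub_self]
    have h4 := Irreducible.natDegree_dvd_of_dvd_X_pow_card_pow_sub_X (minpoly.irreducible hint) h3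
    have h5 := Nat.le_of_dvd (by omega) h4
    unfold dg at hj
    omega
  intro i j hij
  apply Fin.ext
  rcases lt_trichotomy (i : ℕ) (j : ℕ) with h | h | h
  · exact absurd hij (key i j h j.2)
  · exact h
  · exact absurd hij.symm (key j i h i.2)

/-- rank of a matrix over `ZMod p` with a right inverse, over an extension -/
theorem finrank_ker_map (F K : Type*) [Field F] [Field K] [Algebra F K] {V : Type*} [Fintype V]
    [DecidableEq V] {a : ℕ} (C : Matrix (Fin a) V F) (D : Matrix V (Fin a) F) (h : C * D = 1) :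
    Module.finrank K (LinearMap.ker (C.map (algebraMap F K)).mulVecLin) + a = Fintype.card V := by
  have h1 : (C.map (algebraMap F K)) * (D.map (algebraMap F K)) = 1 := by
    rw [← Matrix.map_mul, h, Matrix.map_one _ (map_zero _) (map_one _)]
  have hs : Function.Surjective (C.map (algebraMap F K)).mulVecLin := by
    intro y
    refine ⟨D.map (algebraMap F K) *ᵥ y, ?_⟩
    rw [Matrix.mulVecLin_apply, Matrix.mulVec_mulVec, h1, Matrix.one_mulVec]
  have h2 := LinearMap.finrank_range_add_finrank_ker (C.map (algebraMap F K)).mulVecLin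
  rw [LinearMap.range_eq_top.mpr hs, finrank_top, Module.finrank_fin_fun,
    Module.finrank_fintype_fun_eq_card] at h2
  omega

theorem exists_basis_matrix {F : Type*} [Field F] {V : Type*} [Fintype V] [DecidableEq V]
    (W : Submodule F (V → F)) :
    ∃ (C : Matrix (Fin (Module.finrank F W)) V F) (D : Matrix V (Fin (Module.finrank F W)) F),
      C * D = 1 ∧ (∀ i, C i ∈ W) ∧ ∀ c ∈ W, ∃ t : Fin (Module.finrank F W) → F,
        c = ∑ i, t i • C i := by
  have b := Module.finBasis F W
  refine ⟨Matrix.of (fun i => (b i : V → F)), ?_⟩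
  have hli : LinearIndependent F (fun i => (b i : V → F)) := by
    have h := b.linearIndependent.map' W.subtype (Submodule.ker_subtype W)
    exact h
  have hvm : Function.Injective (Matrix.of (fun i => (b i : V → F))).vecMul :=
    Matrix.vecMul_injective_iff.mpr hli
  have hms : Function.Surjective (Matrix.of (fun i => (b i : V → F))).mulVec := by
    have hr : (Matrix.of (fun i => (b i : V → F))).rank = Module.finrank F W := by
      have := hli.rank_matrix (R := F)
      rw [Fintype.card_fin] at this
      exact this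
    unfold Matrix.rank at hr
    have h3 : LinearMap.range (Matrix.of (fun i => (b i : V → F))).mulVecLin = ⊤ := by
      apply Submodule.eq_top_of_finrank_eq
      rw [hr, Module.finrank_fin_fun]
    intro y
    obtain ⟨x, hx⟩ := LinearMap.range_eq_top.mp h3 y
    exact ⟨x, hx⟩
  obtain ⟨D, hD⟩ := Matrix.mulVec_surjective_iff_exists_right_inverse.mp hms
  refine ⟨D, hD, fun i => (b i).2, ?_⟩
  intro c hc
  refine ⟨fun i => b.repr ⟨c, hc⟩ i, ?_⟩
  have h := b.sum_repr ⟨c, hc⟩
  have h2 := congrArg (Subtype.val) h
  rw [Submodule.coe_sum] at h2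
  exact h2.symm

theorem desc_finrank (p : ℕ) [Fact p.Prime] {V : Type*} [Fintype V] [DecidableEq V]
    (G : SimpleGraph V) (μ : KK p) (E : Submodule (KK p) (V → KK p))
    (hE : E ≤ eig (adj (KK p) G) μ) :
    dg p μ * Module.finrank (KK p) E ≤ Module.finrank (ZMod p) (desc p E) := by
  obtain ⟨C, D, hCD, hC, hCs⟩ := exists_basis_matrix (ann p E)
  -- the descent is the kernel of `C`
  have hker := finrank_ker_map (ZMod p) (ZMod p) C D hCD
  have hkerK := finrank_ker_map (ZMod p) (KK p) C D hCD
  have hdesc : LinearMap.ker (C.map (algebraMap (ZMod p) (ZMod p))).mulVecLin ≤ desc p E := by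
    intro y hy c hc
    rw [LinearMap.mem_ker, Matrix.mulVecLin_apply] at hy
    obtain ⟨t, ht⟩ := hCs c hc
    rw [ht, sum_dotProduct]
    refine Finset.sum_eq_zero fun i _ => ?_
    rw [smul_dotProduct]
    have h1 : C i ⬝ᵥ y = 0 := congrFun hy i
    rw [h1, smul_zero]
  have h1 := Submodule.finrank_mono hdesc
  -- the sum of the twists
  have hind : iSupIndep (fun i : Fin (dg p μ) => frobSub p (i : ℕ) E) := by
    have h2 := (Module.End.eigenspaces_iSupIndep (adj (KK p) G).mulVecLin).comp (conj_inj p μ)
    exact h2.mono fun i => frobSub_le p G μ E hE i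
  have hinj := hind.dfinsupp_lsum_injective
  have hle : ∀ i : Fin (dg p μ), frobSub p (i : ℕ) E ≤
      LinearMap.ker (C.map (algebraMap (ZMod p) (KK p))).mulVecLin := by
    intro i y hy
    obtain ⟨x, hx, rfl⟩ := exists_of_mem_frobSub p i E y hy
    rw [LinearMap.mem_ker, Matrix.mulVecLin_apply]
    funext j
    have h3 := hC j x hx
    have h4 := congrArg (iterateFrobenius (KK p) p i) h3
    rw [map_zero] at h4
    rw [Pi.zero_apply, ← h4]
    unfold Matrix.mulVec dotProduct
    rw [map_sum]
    refine Finset.sum_congr rfl fun u _ => ?_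
    rw [map_mul]
    congr 1
    show algebraMap (ZMod p) (KK p) (C j u) =
      (algebraMap (ZMod p) (KK p) (C j u)) ^ p ^ (i : ℕ)
    rw [← map_pow, ZMod.pow_card_pow]
  have h5 : ∑ i : Fin (dg p μ), Module.finrank (KK p) (frobSub p (i : ℕ) E) ≤
      Module.finrank (KK p) (LinearMap.ker (C.map (algebraMap (ZMod p) (KK p))).mulVecLin) := by
    rw [← Module.finrank_directSum]
    have h6 : LinearMap.range (DFinsupp.lsum ℕ (fun i : Fin (dg p μ) =>
        (frobSub p (i : ℕ) E).subtype)) ≤
        LinearMap.ker (C.map (algebraMap (ZMod p) (KK p))).mulVecLin := by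
      rw [← Submodule.iSup_eq_range_dfinsupp_lsum]
      exact iSup_le hle
    have h7 := Submodule.finrank_mono h6
    have h8 := LinearMap.finrank_range_of_inj hinj
    rw [h8] at h7
    exact h7
  rw [Finset.sum_congr rfl (fun (i : Fin (dg p μ)) _ => finrank_frobSub p (i : ℕ) E),
    Finset.sum_const, Finset.card_univ, Fintype.card_fin, smul_eq_mul] at h5
  omega

end Pool.Agent.H95.SQ
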