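import Pool.Agent.H66.SP.Kill
import Pool.Agent.H95.SQ.Defs

/-!
# Job SQ-Kill2: random 0/1 vectors kill a subspace, general rate

`kill2`.  PROOF.  Put `λ = 16 / ρ ≥ 16`, `k = card V`.  For `E' ≤ E` let
`c m E'` be the number of `b : Fin m → V → Bool` for which some `x ∈ E'`, `x ≠ 0`, is orthogonal to
all `bv K (b i)`.  Claim: `c m E' ≤ 2^(k m) (17/16 * ρ)^m (λ^(finrank E') - 1)`, by induction on `m`
for all `E' ≤ E`.  `m = 0`: `c = 0` if `E' = ⊥`, otherwise `c = 1 ≤ λ - 1`.  Step: split off the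
first vector `b` (`Fin.consEquiv`): `c (m+1) E' = ∑_b c m E'_b`, `E'_b = {x ∈ E' | b · x = 0}`
(exactly as in H66/SP/Kill.lean).  If `E' = ⊥` everything is `0`.  Otherwise at most
`ρ 2^k` vectors `b` are orthogonal to `E'` (hypothesis), for them `E'_b = E'`, for the others
`finrank E'_b ≤ finrank E' - 1`, so with `L = λ^(finrank E') ≥ λ`
`∑_b (λ^(finrank E'_b) - 1) ≤ ρ 2^k (L - 1) + 2^k (L / λ - 1) ≤ 2^k (ρ + 1/λ) (L - 1)`
(`L/λ - 1 ≤ (L - 1)/λ`), and `ρ + 1/λ = (17/16) ρ`.  (The `b` counted twice does no harm, all the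
terms are nonnegative.)  Finally `λ^(finrank E) - 1 ≤ λ^t = 16^t ρ^(-t)` and `ρ^m ρ^(-t) = ρ^(m-t)`.
-/

set_option autoImplicit false

namespace Pool.Agent.H95.SQ

open Matrix Classical Pool.Agent.H66.SP

/-- the subspace of `E` orthogonal to the 0/1 vector `b` -/
private noncomputable def cut {K : Type*} [Field K] {V : Type*} [Fintype V] [DecidableEq V]
    (E : Submodule K (V → K)) (b : V → Bool) : Submodule K (V → K) :=
  { carrier := {x | x ∈ E ∧ bv K b ⬝ᵥ x = 0}
    add_mem' := fun {x y} hx hy => ⟨E.add_mem hx.1 hy.1, by rw [dotProduct_add, hx.2, hy.2, add_zero]⟩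
    zero_mem' := ⟨E.zero_mem, dotProduct_zero _⟩
    smul_mem' := fun c x hx => ⟨E.smul_mem c hx.1, by rw [dotProduct_smul, hx.2, smul_zero]⟩ }

private lemma mem_cut {K : Type*} [Field K] {V : Type*} [Fintype V] [DecidableEq V]
    {E : Submodule K (V → K)} {b : V → Bool} {x : V → K} :
    x ∈ cut E b ↔ x ∈ E ∧ bv K b ⬝ᵥ x = 0 := Iff.rfl

private lemma cut_sub {K : Type*} [Field K] {V : Type*} [Fintype V] [DecidableEq V]
    (E : Submodule K (V → K)) (b : V → Bool) : cut E b ≤ E := fun _ hx => hx.1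

private lemma cut_le {K : Type*} [Field K] {V : Type*} [Fintype V] [DecidableEq V]
    (E : Submodule K (V → K)) (b : V → Bool) :
    Module.finrank K (cut E b) ≤ Module.finrank K E :=
  Submodule.finrank_mono (cut_sub E b)

private lemma cut_lt {K : Type*} [Field K] {V : Type*} [Fintype V] [DecidableEq V]
    (E : Submodule K (V → K)) (b : V → Bool) (h : ¬ ∀ x ∈ E, bv K b ⬝ᵥ x = 0) :
    Module.finrank K (cut E b) + 1 ≤ Module.finrank K E := by
  have h1 : cut E b < E := by
    refine lt_of_le_of_ne (cut_sub E b) fun h2 => h fun x hx => ?_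
    rw [← h2] at hx
    exact (mem_cut.1 hx).2
  exact Submodule.finrank_lt_finrank_of_lt h1

/-- the counting function -/
private noncomputable def cnt {K : Type*} [Field K] {V : Type*} [Fintype V] [DecidableEq V] (m : ℕ)
    (E : Submodule K (V → K)) : ℕ :=
  ((Finset.univ : Finset (Fin m → V → Bool)).filter
      (fun b => ∃ x ∈ E, x ≠ 0 ∧ ∀ i, bv K (b i) ⬝ᵥ x = 0)).card

private lemma cnt_succ {K : Type*} [Field K] {V : Type*} [Fintype V] [DecidableEq V] (m : ℕ)
    (E : Submodule K (V → K)) : cnt (m + 1) E = ∑ b : V → Bool, cnt m (cut E b) := by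
  unfold cnt
  simp only [Finset.card_filter]
  rw [← (Fin.consEquiv (fun _ : Fin (m + 1) => V → Bool)).sum_comp, Fintype.sum_prod_type]
  refine Finset.sum_congr rfl fun b _ => Finset.sum_congr rfl fun c _ => ?_
  have e : (∃ x ∈ E, x ≠ 0 ∧ ∀ i, bv K ((Fin.consEquiv (fun _ : Fin (m + 1) => V → Bool)) (b, c) i)
      ⬝ᵥ x = 0) ↔ (∃ x ∈ cut E b, x ≠ 0 ∧ ∀ i, bv K (c i) ⬝ᵥ x = 0) := by
    constructor
    · rintro ⟨x, hx, hx0, h⟩
      exact ⟨x, mem_cut.2 ⟨hx, h 0⟩, hx0, fun i => h i.succ⟩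
    · rintro ⟨x, hx, hx0, h⟩
      refine ⟨x, (mem_cut.1 hx).1, hx0, fun i => ?_⟩
      refine Fin.cases ?_ (fun j => ?_) i
      · exact (mem_cut.1 hx).2
      · exact h j
  simp only [e]

private lemma kill_sum {K : Type*} [Field K] {V : Type*} [Fintype V] [DecidableEq V]
    (E : Submodule K (V → K)) (ρ l : ℝ) (hl1 : 1 ≤ l)
    (hE : E ≠ ⊥ → (orth E : ℝ) ≤ 2 ^ Fintype.card V * ρ) :
    ∑ b : V → Bool, (l ^ Module.finrank K (cut E b) - 1) ≤
      2 ^ Fintype.card V * (ρ + 1 / l) * (l ^ Module.finrank K E - 1) := by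
  have hl0 : 0 < l := by linarith
  rcases Nat.eq_zero_or_pos (Module.finrank K E) with h0 | hpos
  · have h1 : ∀ b : V → Bool, l ^ Module.finrank K (cut E b) - 1 = 0 := by
      intro b
      have h2 := cut_le E b
      rw [h0] at h2
      rw [Nat.le_zero.1 h2]
      simp
    simp [h1, h0]
  · have hne : E ≠ ⊥ := by
      intro h
      rw [h, finrank_bot] at hpos
      omega
    have hN := hE hne
    obtain ⟨e, he⟩ : ∃ e, Module.finrank K E = e + 1 := ⟨Module.finrank K E - 1, by omega⟩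
    rw [he]
    have hA : 1 ≤ l ^ e := one_le_pow₀ hl1
    have hB : 1 ≤ l ^ (e + 1) := one_le_pow₀ hl1
    have hle : ∑ b : V → Bool, (l ^ Module.finrank K (cut E b) - 1) ≤
        (orth E : ℝ) * (l ^ (e + 1) - 1) + 2 ^ Fintype.card V * (l ^ e - 1) := by
      have hterm : ∀ b : V → Bool, l ^ Module.finrank K (cut E b) - 1 ≤
          (if ∀ x ∈ E, bv K b ⬝ᵥ x = 0 then (l ^ (e + 1) - 1) else 0) + (l ^ e - 1) := by
        intro b
        by_cases hb : ∀ x ∈ E, bv K b ⬝ᵥ x = 0
        · rw [if_pos hb]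
          have h4 := cut_le E b
          rw [he] at h4
          have h5 : l ^ Module.finrank K (cut E b) ≤ l ^ (e + 1) := pow_le_pow_right₀ hl1 h4
          linarith
        · rw [if_neg hb]
          have h4 := cut_lt E b hb
          rw [he] at h4
          have h5 : l ^ Module.finrank K (cut E b) ≤ l ^ e := pow_le_pow_right₀ hl1 (by omega)
          linarith
      refine (Finset.sum_le_sum fun b _ => hterm b).trans ?_
      rw [Finset.sum_add_distrib, Finset.sum_const, Finset.card_univ, Fintype.card_fun,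
        Fintype.card_bool, ← Finset.sum_filter, Finset.sum_const]
      unfold orth
      rw [nsmul_eq_mul, nsmul_eq_mul]
      push_cast
      refine le_of_eq ?_
      congr
      exact Subsingleton.elim _ _
    refine hle.trans ?_
    have hP : (0 : ℝ) ≤ 2 ^ Fintype.card V := by positivity
    have h1 : (orth E : ℝ) * (l ^ (e + 1) - 1) ≤ 2 ^ Fintype.card V * ρ * (l ^ (e + 1) - 1) :=
      mul_le_mul_of_nonneg_right hN (by linarith)
    have h2 : l ^ e - 1 ≤ 1 / l * (l ^ (e + 1) - 1) := by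
      rw [pow_succ, mul_sub, mul_one]
      have : 1 / l * (l ^ e * l) = l ^ e := by field_simp
      rw [this]
      have h3 : 1 / l ≤ 1 := by
        rw [div_le_one hl0]
        exact hl1
      linarith
    have h3 : 2 ^ Fintype.card V * (l ^ e - 1) ≤
        2 ^ Fintype.card V * (1 / l * (l ^ (e + 1) - 1)) := mul_le_mul_of_nonneg_left h2 hP
    calc (orth E : ℝ) * (l ^ (e + 1) - 1) + 2 ^ Fintype.card V * (l ^ e - 1)
        ≤ 2 ^ Fintype.card V * ρ * (l ^ (e + 1) - 1) +
          2 ^ Fintype.card V * (1 / l * (l ^ (e + 1) - 1)) := add_le_add h1 h3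
      _ = _ := by ring

private lemma kill_aux {K : Type*} [Field K] {V : Type*} [Fintype V] [DecidableEq V]
    (E : Submodule K (V → K)) (ρ l : ℝ) (hρ : 0 < ρ) (hl : 2 ≤ l)
    (hE : ∀ E' : Submodule K (V → K), E' ≤ E → E' ≠ ⊥ → (orth E' : ℝ) ≤ 2 ^ Fintype.card V * ρ)
    (m : ℕ) :
    ∀ F : Submodule K (V → K), F ≤ E → (cnt m F : ℝ) ≤
      2 ^ (Fintype.card V * m) * (ρ + 1 / l) ^ m * (l ^ Module.finrank K F - 1) := by
  have hl0 : 0 < l := by linarith
  induction m with
  | zero =>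
    intro F _
    simp only [pow_zero, mul_one, Nat.mul_zero, one_mul]
    by_cases h : Module.finrank K F = 0
    · have h1 : cnt 0 F = 0 := by
        unfold cnt
        rw [Finset.card_eq_zero, Finset.filter_eq_empty_iff]
        rintro b _ ⟨x, hx, hx0, _⟩
        rw [Submodule.finrank_eq_zero] at h
        rw [h, Submodule.mem_bot] at hx
        exact hx0 hx
      rw [h1, h]
      simp
    · have h1 : cnt 0 F ≤ 1 := by
        unfold cnt
        refine (Finset.card_le_univ _).trans ?_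
        simp
      have h2 : l ^ 1 ≤ l ^ Module.finrank K F :=
        pow_le_pow_right₀ (by linarith) (Nat.pos_of_ne_zero h)
      rw [pow_one] at h2
      have h3 : (cnt 0 F : ℝ) ≤ 1 := by exact_mod_cast h1
      linarith
  | succ m ih =>
    intro F hF
    rw [cnt_succ]
    push_cast
    have h0 : 0 ≤ ρ + 1 / l := by positivity
    calc ∑ b : V → Bool, (cnt m (cut F b) : ℝ)
        ≤ ∑ b : V → Bool, 2 ^ (Fintype.card V * m) * (ρ + 1 / l) ^ m *
            (l ^ Module.finrank K (cut F b) - 1) :=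
          Finset.sum_le_sum fun b _ => ih (cut F b) ((cut_sub F b).trans hF)
      _ = 2 ^ (Fintype.card V * m) * (ρ + 1 / l) ^ m *
            ∑ b : V → Bool, (l ^ Module.finrank K (cut F b) - 1) := by
          rw [← Finset.mul_sum]
      _ ≤ 2 ^ (Fintype.card V * m) * (ρ + 1 / l) ^ m *
            (2 ^ Fintype.card V * (ρ + 1 / l) * (l ^ Module.finrank K F - 1)) :=
          mul_le_mul_of_nonneg_left (kill_sum F ρ l (by linarith) (hE F hF)) (by positivity)
      _ = 2 ^ (Fintype.card V * (m + 1)) * (ρ + 1 / l) ^ (m + 1) *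
            (l ^ Module.finrank K F - 1) := by
          rw [Nat.mul_succ, pow_add, pow_succ (ρ + 1 / l)]
          ring

theorem kill2 {K : Type*} [Field K] {V : Type*} [Fintype V] [DecidableEq V] (m t : ℕ)
    (E : Submodule K (V → K)) (ht : Module.finrank K E ≤ t) (htm : t ≤ m) (ρ : ℝ) (hρ : 0 < ρ)
    (hρ1 : ρ ≤ 1)
    (hE : ∀ E' : Submodule K (V → K), E' ≤ E → E' ≠ ⊥ → (orth E' : ℝ) ≤ 2 ^ Fintype.card V * ρ) :
    (((Finset.univ : Finset (Fin m → V → Bool)).filter
      (fun b => ∃ x ∈ E, x ≠ 0 ∧ ∀ i, bv K (b i) ⬝ᵥ x = 0)).card : ℝ) ≤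
      2 ^ (Fintype.card V * m) * ((17 / 16) ^ m * 16 ^ t * ρ ^ (m - t)) := by
  have hl : 16 ≤ 16 / ρ := by
    rw [le_div_iff₀ hρ]
    linarith
  have h1 := kill_aux E ρ (16 / ρ) hρ (by linarith) hE m E le_rfl
  have h2 : ρ + 1 / (16 / ρ) = 17 / 16 * ρ := by
    field_simp
    ring
  have h3 : (16 / ρ) ^ Module.finrank K E - 1 ≤ (16 / ρ) ^ t := by
    have : (16 / ρ) ^ Module.finrank K E ≤ (16 / ρ) ^ t := pow_le_pow_right₀ (by linarith) ht
    linarith
  have h4 : (16 / ρ) ^ t * ρ ^ m = 16 ^ t * ρ ^ (m - t) := by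
    obtain ⟨d, rfl⟩ := Nat.exists_eq_add_of_le htm
    rw [Nat.add_sub_cancel_left, pow_add, div_pow]
    field_simp
  rw [h2] at h1
  calc _ ≤ 2 ^ (Fintype.card V * m) * (17 / 16 * ρ) ^ m *
        ((16 / ρ) ^ Module.finrank K E - 1) := h1
    _ ≤ 2 ^ (Fintype.card V * m) * (17 / 16 * ρ) ^ m * (16 / ρ) ^ t :=
        mul_le_mul_of_nonneg_left h3 (by positivity)
    _ = 2 ^ (Fintype.card V * m) * ((17 / 16) ^ m * ((16 / ρ) ^ t * ρ ^ m)) := by
        rw [mul_pow]; ring
    _ = _ := by rw [h4]; ring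

end Pool.Agent.H95.SQ
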