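import Pool.Agent.H95.SQ.Defs

/-!
# Job SQ-Gb: bounds for `gg p N`, the mean of `|cos (π x / p)|^N`

PROOF.  `0 ≤ gg`, `gg ≤ 1` are clear (`|cos| ≤ 1`).  Let `1 ≤ x < p` and `y = min x (p - x)`,
`1 ≤ y ≤ p / 2`.  Then `|cos (π x / p)| = cos (π y / p)` (`cos (π - θ) = - cos θ`) and by
`Real.cos_quadratic_upper_bound` (`cos θ ≤ 1 - 2 / π^2 * θ^2` for `|θ| ≤ π`)
`cos (π y / p) ≤ 1 - 2 y^2 / p^2 ≤ exp (- 2 y^2 / p^2)`, so `|cos (π x / p)|^N ≤ exp (-2 N y^2 / p^2)`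
(this is `cos_pow_le`).

`gg_le_small`: the term `x = 0` is `1`, all the others are at most `exp (-2 N / p^2)` (`y ≥ 1`).
-/

set_option autoImplicit false

namespace Pool.Agent.H95.SQ

open Matrix Classical Pool.Agent.H66.SP

theorem gg_nonneg (p N : ℕ) : 0 ≤ gg p N := by
  unfold gg
  exact mul_nonneg (by positivity) (Finset.sum_nonneg fun x _ => by positivity)

theorem gg_le_one (p N : ℕ) (hp : 1 ≤ p) : gg p N ≤ 1 := by
  unfold gg
  have hp0 : (0 : ℝ) < p := by exact_mod_cast hp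
  have h1 : ∑ x ∈ Finset.range p, |Real.cos (Real.pi * x / p)| ^ N ≤ p := by
    calc ∑ x ∈ Finset.range p, |Real.cos (Real.pi * x / p)| ^ N
        ≤ ∑ x ∈ Finset.range p, (1 : ℝ) := by
          apply Finset.sum_le_sum
          intro x _
          exact pow_le_one₀ (abs_nonneg _) (Real.abs_cos_le_one _)
      _ = p := by simp
  rw [one_div, inv_mul_le_iff₀ hp0]
  linarith

theorem cos_pow_le (p N x : ℕ) (hx : 1 ≤ x) (hxp : x < p) :
    |Real.cos (Real.pi * x / p)| ^ N ≤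
      Real.exp (-(2 * N * (min x (p - x) : ℕ) ^ 2 / (p : ℝ) ^ 2)) := by
  have hp0 : (0 : ℝ) < p := by exact_mod_cast (by omega : 0 < p)
  obtain ⟨y, hy⟩ : ∃ y, y = min x (p - x) := ⟨_, rfl⟩
  rw [← hy]
  have hy2 : 2 * y ≤ p := by omega
  have hy2' : (2 : ℝ) * y ≤ p := by exact_mod_cast hy2
  have hy0 : (0 : ℝ) ≤ y := Nat.cast_nonneg y
  have h1 : |Real.cos (Real.pi * x / p)| = |Real.cos (Real.pi * y / p)| := by
    rcases le_total x (p - x) with h | h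
    · rw [hy, min_eq_left h]
    · rw [hy, min_eq_right h, Nat.cast_sub hxp.le]
      have e : Real.pi * ((p : ℝ) - x) / p = Real.pi - Real.pi * x / p := by
        field_simp
      rw [e, Real.cos_pi_sub, abs_neg]
  have hpi := Real.pi_pos
  have hθ0 : 0 ≤ Real.pi * y / p := by positivity
  have hθ1 : Real.pi * y / p ≤ Real.pi / 2 := by
    rw [div_le_iff₀ hp0]
    nlinarith
  have h2 : |Real.cos (Real.pi * y / p)| ≤ Real.exp (-(2 * (y : ℝ) ^ 2 / (p : ℝ) ^ 2)) := by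
    rw [abs_of_nonneg (Real.cos_nonneg_of_neg_pi_div_two_le_of_le (by linarith) hθ1)]
    have h3 := Real.cos_le_one_sub_mul_cos_sq (x := Real.pi * y / p) (by
      rw [abs_of_nonneg hθ0]
      linarith)
    have e : 2 / Real.pi ^ 2 * (Real.pi * y / p) ^ 2 = 2 * (y : ℝ) ^ 2 / (p : ℝ) ^ 2 := by
      field_simp
    rw [e] at h3
    exact h3.trans (Real.one_sub_le_exp_neg _)
  rw [h1]
  calc |Real.cos (Real.pi * y / p)| ^ N ≤ Real.exp (-(2 * (y : ℝ) ^ 2 / (p : ℝ) ^ 2)) ^ N := by gcongr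
    _ = Real.exp (-(2 * N * (y : ℝ) ^ 2 / (p : ℝ) ^ 2)) := by
      rw [← Real.exp_nat_mul]
      congr 1
      ring

theorem gg_le_small (p N : ℕ) (hp : 1 ≤ p) :
    gg p N ≤ (1 / (p : ℝ)) * (1 + p * Real.exp (-(2 * N / (p : ℝ) ^ 2))) := by
  unfold gg
  have hp0 : (0 : ℝ) < p := by exact_mod_cast hp
  apply mul_le_mul_of_nonneg_left _ (by positivity)
  obtain ⟨q, rfl⟩ : ∃ q, p = q + 1 := ⟨p - 1, by omega⟩
  rw [Finset.sum_range_succ']
  have h0 : |Real.cos (Real.pi * ((0 : ℕ) : ℝ) / ((q + 1 : ℕ) : ℝ))| ^ N = 1 := by simp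
  rw [h0]
  have h1 : ∑ k ∈ Finset.range q, |Real.cos (Real.pi * ((k + 1 : ℕ) : ℝ) / ((q + 1 : ℕ) : ℝ))| ^ N ≤
      q * Real.exp (-(2 * N / ((q + 1 : ℕ) : ℝ) ^ 2)) := by
    calc _ ≤ ∑ k ∈ Finset.range q, Real.exp (-(2 * N / ((q + 1 : ℕ) : ℝ) ^ 2)) := by
          apply Finset.sum_le_sum
          intro k hk
          rw [Finset.mem_range] at hk
          refine (cos_pow_le (q + 1) N (k + 1) (by omega) (by omega)).trans ?_
          apply Real.exp_le_exp.mpr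
          have h2 : (1 : ℝ) ≤ ((min (k + 1) (q + 1 - (k + 1)) : ℕ) : ℝ) := by
            have : 1 ≤ min (k + 1) (q + 1 - (k + 1)) := by omega
            exact_mod_cast this
          have h3 : (1 : ℝ) ≤ ((min (k + 1) (q + 1 - (k + 1)) : ℕ) : ℝ) ^ 2 := by nlinarith
          have h4 : 2 * (N : ℝ) * 1 / ((q + 1 : ℕ) : ℝ) ^ 2 ≤
              2 * N * ((min (k + 1) (q + 1 - (k + 1)) : ℕ) : ℝ) ^ 2 / ((q + 1 : ℕ) : ℝ) ^ 2 := by
            gcongr
          rw [mul_one] at h4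
          linarith
      _ = _ := by simp
  have h5 : (q : ℝ) * Real.exp (-(2 * N / ((q + 1 : ℕ) : ℝ) ^ 2)) ≤
      ((q + 1 : ℕ) : ℝ) * Real.exp (-(2 * N / ((q + 1 : ℕ) : ℝ) ^ 2)) := by
    gcongr
    exact Nat.le_succ q
  linarith

end Pool.Agent.H95.SQ
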