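import Pool.Agent.H95.SQ.Defs

/-!
# Job SQ-LemW: invariant subspaces contain dense subspaces of half the dimension

`exists_dense_sub`.  PROOF.  Write `A` for `adj (ZMod p) G`, `D = finrank W`, `m = min ((D+1)/2) T`;
call `x` sparse if `nz x ≤ s'`.  Among the linearly independent families of at most `T` sparse
vectors in `W` choose one with the largest number `e ≤ T` of elements and let `U` be its span, so
`finrank U = e`.  All vectors of `U` are supported on a set `S'` with `card S' ≤ e * s' ≤ T * s' ≤ s`
(union of the supports).  So for `x ∈ U`, `x ≠ 0`, `nz x ≤ s` and by `NS` the vector `A x` has more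
than `s` nonzero entries outside of the support of `x`; in particular `nz (A x) > s ≥ s'`, `A x ≠ 0`
and, since `card S' ≤ s`, some nonzero entry of `A x` is outside of `S'`, so `A x ∉ U`.
Hence `A` is injective on `U`, the space `A U ≤ W` (`W` is invariant) has dimension `e`, all its
nonzero vectors have more than `s'` nonzero entries, and `A U ∩ U = 0`, so `2 e ≤ D`.
CASE `e = T` : `A U` is dense, of dimension `T ≥ m`; take any subspace of dimension `m`.
CASE `e < T` : every sparse vector of `W` is in `U` (otherwise the family could be extended).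
Let `W₀ ≤ W` be a complement of `U` in `W` (`Submodule.exists_isCompl` in `W`), of dimension
`D - e ≥ (D+1)/2 ≥ m` (as `2 e ≤ D`); a nonzero `x ∈ W₀` is not in `U`, so it is not sparse.  Take a
subspace of dimension `m`.
(`s' * T ≤ s`, `T ≥ 1` give `s' ≤ s`.  A subspace of given smaller dimension: span of a part of a
basis, e.g. `Submodule.exists_le_finrank_eq`-style lemma or `exists_linearIndependent`.)
-/

set_option autoImplicit false

namespace Pool.Agent.H95.SQ

open Matrix Classical Pool.Agent.H66.SP

/-- a subspace of given smaller dimension -/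
theorem exists_sub_finrank {K : Type*} [Field K] {V : Type*} [Fintype V]
    (P : Submodule K (V → K)) (m : ℕ) (hm : m ≤ Module.finrank K P) :
    ∃ Q ≤ P, Module.finrank K Q = m := by
  let B := Module.finBasis K P
  let f : Fin m → (V → K) := fun i => ((B (Fin.castLE hm i) : P) : V → K)
  have hf : LinearIndependent K f := by
    have h1 : LinearIndependent K (fun i : Fin m => B (Fin.castLE hm i)) :=
      B.linearIndependent.comp _ (Fin.castLE_injective hm)
    exact h1.map' P.subtype (Submodule.ker_subtype P)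
  refine ⟨Submodule.span K (Set.range f), ?_, ?_⟩
  · rw [Submodule.span_le]
    rintro _ ⟨i, rfl⟩
    exact (B (Fin.castLE hm i)).2
  · rw [finrank_span_eq_card hf, Fintype.card_fin]

theorem nz_le_card {K : Type*} [Zero K] {V : Type*} [Fintype V] (x : V → K) (S : Finset V)
    (h : ∀ v, v ∉ S → x v = 0) : nz x ≤ S.card := by
  unfold nz
  refine Finset.card_le_card ?_
  intro v hv
  by_contra hvS
  exact (Finset.mem_filter.1 hv).2 (h v hvS)

theorem card_le_nz {K : Type*} [Zero K] {V : Type*} [Fintype V] (x : V → K) (S : Finset V)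
    (h : ∀ v, v ∈ S → x v ≠ 0) : S.card ≤ nz x := by
  unfold nz
  refine Finset.card_le_card ?_
  intro v hv
  exact Finset.mem_filter.2 ⟨Finset.mem_univ _, h v hv⟩

/-- the support as a finset -/
noncomputable def supp {K : Type*} [Zero K] {V : Type*} [Fintype V] (x : V → K) : Finset V :=
  (Finset.univ : Finset V).filter (fun v => x v ≠ 0)

theorem mem_supp {K : Type*} [Zero K] {V : Type*} [Fintype V] (x : V → K) (v : V) :
    v ∈ supp x ↔ x v ≠ 0 := by
  unfold supp
  rw [Finset.mem_filter]
  exact ⟨fun h => h.2, fun h => ⟨Finset.mem_univ _, h⟩⟩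

theorem card_supp {K : Type*} [Zero K] {V : Type*} [Fintype V] (x : V → K) :
    (supp x).card = nz x := rfl

theorem exists_dense_sub (p : ℕ) [Fact p.Prime] {V : Type*} [Fintype V] [DecidableEq V]
    (G : SimpleGraph V) (s s' T : ℕ) (hNS : NS s G) (hs : s' * T ≤ s) (hT : 1 ≤ T)
    (W : Submodule (ZMod p) (V → ZMod p)) (hW : ∀ x ∈ W, adj (ZMod p) G *ᵥ x ∈ W) :
    ∃ W' ≤ W, Dense W' s' ∧
      Module.finrank (ZMod p) W' = min ((Module.finrank (ZMod p) W + 1) / 2) T := by
  have hs's : s' ≤ s := le_trans (Nat.le_mul_of_pos_right s' hT) hs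
  -- a largest linearly independent family of sparse vectors
  let PP : ℕ → Prop := fun e => ∃ f : Fin e → (V → ZMod p), LinearIndependent (ZMod p) f ∧
    ∀ i, f i ∈ W ∧ nz (f i) ≤ s'
  have hP0 : PP 0 := ⟨fun i => i.elim0, linearIndependent_empty_type, fun i => i.elim0⟩
  obtain ⟨f, hf, hfW⟩ : PP (Nat.findGreatest PP T) :=
    Nat.findGreatest_spec (P := PP) (Nat.zero_le T) hP0
  have heT : Nat.findGreatest PP T ≤ T := Nat.findGreatest_le T
  have hmax : ∀ k, Nat.findGreatest PP T < k → k ≤ T → ¬ PP k :=
    fun k hk hkT => Nat.findGreatest_is_greatest hk hkT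
  generalize Nat.findGreatest PP T = e at f hf hfW heT hmax
  set U : Submodule (ZMod p) (V → ZMod p) := Submodule.span (ZMod p) (Set.range f) with hU
  have hUe : Module.finrank (ZMod p) U = e := by
    rw [hU, finrank_span_eq_card hf, Fintype.card_fin]
  have hUW : U ≤ W := by
    rw [hU, Submodule.span_le]
    rintro _ ⟨i, rfl⟩
    exact (hfW i).1
  -- the support
  let S : Finset V := Finset.univ.biUnion (fun i : Fin e => supp (f i))
  have hScard : S.card ≤ s := by
    calc S.card ≤ ∑ i : Fin e, (supp (f i)).card :=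
          Finset.card_biUnion_le
      _ ≤ ∑ _i : Fin e, s' := Finset.sum_le_sum (fun i _ => (hfW i).2)
      _ = e * s' := by simp
      _ ≤ T * s' := Nat.mul_le_mul_right _ heT
      _ = s' * T := Nat.mul_comm _ _
      _ ≤ s := hs
  have hsupp : ∀ x ∈ U, ∀ v, v ∉ S → x v = 0 := by
    intro x hx v hv
    have hle : U ≤ LinearMap.ker (LinearMap.proj (R := ZMod p) (φ := fun _ : V => ZMod p) v) := by
      rw [hU, Submodule.span_le]
      rintro _ ⟨i, rfl⟩
      rw [SetLike.mem_coe, LinearMap.mem_ker, LinearMap.proj_apply]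
      by_contra hne
      exact hv (Finset.mem_biUnion.2 ⟨i, Finset.mem_univ _, (mem_supp _ _).2 hne⟩)
    have := hle hx
    rwa [LinearMap.mem_ker, LinearMap.proj_apply] at this
  have hnzU : ∀ x ∈ U, nz x ≤ s := by
    intro x hx
    exact le_trans (nz_le_card x S (hsupp x hx)) hScard
  have key : ∀ x ∈ U, x ≠ 0 → s < nz (adj (ZMod p) G *ᵥ x) ∧ adj (ZMod p) G *ᵥ x ∉ U := by
    intro x hx hx0
    have h1 := hNS p x hx0 (hnzU x hx)
    constructor
    · refine lt_of_lt_of_le h1 (card_le_nz _ _ ?_)
      intro v hv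
      exact (Finset.mem_filter.1 hv).2.2
    · intro hAx
      have h2 : ((Finset.univ : Finset V).filter
          (fun v => x v = 0 ∧ (adj (ZMod p) G *ᵥ x) v ≠ 0)) ⊆ S := by
        intro v hv
        by_contra hvS
        exact (Finset.mem_filter.1 hv).2.2 (hsupp _ hAx v hvS)
      exact absurd (lt_of_lt_of_le h1 (Finset.card_le_card h2)) (not_lt.2 hScard)
  -- the image
  let L : (V → ZMod p) →ₗ[ZMod p] (V → ZMod p) := (adj (ZMod p) G).mulVecLin
  have hL : ∀ x, L x = adj (ZMod p) G *ᵥ x := fun x => rfl
  have hker : ∀ x ∈ U, L x = 0 → x = 0 := by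
    intro x hx hLx
    by_contra hx0
    apply (key x hx hx0).2
    rw [← hL, hLx]
    exact U.zero_mem
  have hmapW : U.map L ≤ W := by
    rintro _ ⟨x, hx, rfl⟩
    exact hW x (hUW hx)
  have hmape : Module.finrank (ZMod p) (U.map L) = e := by
    have hinj : Function.Injective (L.domRestrict U) := by
      rw [← LinearMap.ker_eq_bot, LinearMap.ker_eq_bot']
      intro x hx
      have := hker x.1 x.2 hx
      exact Subtype.ext this
    have h1 := LinearMap.finrank_range_of_inj hinj
    rw [LinearMap.range_domRestrict] at h1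
    rw [h1, hUe]
  have hdisj : U ⊓ U.map L = ⊥ := by
    rw [Submodule.eq_bot_iff]
    rintro y ⟨hyU, x, hx, rfl⟩
    by_cases hx0 : x = 0
    · rw [hx0, map_zero]
    · exact absurd hyU (key x hx hx0).2
  have h2e : 2 * e ≤ Module.finrank (ZMod p) W := by
    have h1 := Submodule.finrank_sup_add_finrank_inf_eq U (U.map L)
    rw [hdisj, finrank_bot, hmape, hUe] at h1
    have h2 : Module.finrank (ZMod p) ((U ⊔ U.map L : Submodule (ZMod p) (V → ZMod p))) ≤
        Module.finrank (ZMod p) W := Submodule.finrank_mono (sup_le hUW hmapW)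
    omega
  rcases Nat.lt_or_ge e T with hlt | hge
  · -- case e < T
    have hsparse : ∀ x ∈ W, nz x ≤ s' → x ∈ U := by
      intro x hx hnx
      by_contra hxU
      apply hmax (e + 1) (Nat.lt_succ_self e) hlt
      refine ⟨Fin.cons x f, ?_, ?_⟩
      · exact hf.finCons hxU
      · intro i
        refine Fin.cases ?_ ?_ i
        · exact ⟨hx, hnx⟩
        · intro j
          exact hfW j
    obtain ⟨Q, hQ⟩ := Submodule.exists_isCompl U
    have hdim : Module.finrank (ZMod p) ((W ⊓ Q : Submodule (ZMod p) (V → ZMod p))) + e =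
        Module.finrank (ZMod p) W := by
      have h1 := Submodule.finrank_sup_add_finrank_inf_eq U (W ⊓ Q)
      have h2 : U ⊓ (W ⊓ Q) = ⊥ := by
        rw [eq_bot_iff]
        refine le_trans (inf_le_inf_left U inf_le_right) ?_
        exact hQ.disjoint.le_bot
      have h3 : U ⊔ (W ⊓ Q) = W := by
        rw [inf_comm, ← sup_inf_assoc_of_le Q hUW, hQ.sup_eq_top, top_inf_eq]
      rw [h2, h3, finrank_bot, hUe] at h1
      omega
    obtain ⟨W', hW'1, hW'2⟩ := exists_sub_finrank (W ⊓ Q)
      (min ((Module.finrank (ZMod p) W + 1) / 2) T) (by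
        refine le_trans (min_le_left _ _) ?_
        omega)
    refine ⟨W', le_trans hW'1 inf_le_left, ?_, hW'2⟩
    intro x hx hx0
    by_contra hns
    have hxW : x ∈ W := (hW'1 hx).1
    have hxQ : x ∈ Q := (hW'1 hx).2
    have hxU : x ∈ U := hsparse x hxW (not_lt.1 hns)
    exact hx0 ((Submodule.mem_bot _).1 (hQ.disjoint.le_bot ⟨hxU, hxQ⟩))
  · -- case e = T
    have heq : e = T := le_antisymm heT hge
    obtain ⟨W', hW'1, hW'2⟩ := exists_sub_finrank (U.map L)
      (min ((Module.finrank (ZMod p) W + 1) / 2) T) (by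
        rw [hmape, heq]
        exact min_le_right _ _)
    refine ⟨W', le_trans hW'1 hmapW, ?_, hW'2⟩
    intro x hx hx0
    obtain ⟨y, hy, rfl⟩ := hW'1 hx
    have hy0 : y ≠ 0 := by
      intro h
      apply hx0
      rw [h, map_zero]
    exact lt_of_le_of_lt hs's (key y hy hy0).1

end Pool.Agent.H95.SQ
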