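import Pool.Agent.H95.SQ.HalC
import Pool.Agent.H95.SQ.Gb
import Pool.Agent.H95.SQ.LemW
import Pool.Agent.H95.SQ.Desc2

/-!
# Job SQ-Qb: 0/1 vectors orthogonal to a subspace of an eigenspace

`orth_le`.  PROOF.  Let `W = desc p E`, invariant by `desc_inv`, `D = finrank W ≥ dg p μ * finrank E`
(`desc_finrank`).  `exists_dense_sub` with `s' = N * T` (`s' * T ≤ s`) gives `W' ≤ W`, dense for
`N * T`, of dimension `r = min ((D+1)/2) T`.  As `N * r ≤ N * T`, `halasz` gives
`orth W' ≤ 2^(card V) (gg p N)^r`.  `orth E ≤ orth W ≤ orth W'` (`desc_orth`, `orth_anti`), and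
`(gg p N)^r ≤ (gg p N)^(min ((dg p μ * finrank E + 1)/2) T)` as `0 ≤ gg ≤ 1`.

`orth_le'`: `dg p μ ≥ 1` (`minpoly` of an integral element has positive degree).
-/

set_option autoImplicit false

namespace Pool.Agent.H95.SQ

open Matrix Classical Pool.Agent.H66.SP

theorem dg_pos (p : ℕ) [Fact p.Prime] (μ : KK p) : 1 ≤ dg p μ := by
  have hint : IsIntegral (ZMod p) μ := (Algebra.IsAlgebraic.isAlgebraic μ).isIntegral
  exact minpoly.natDegree_pos hint

theorem orth_le (p : ℕ) [Fact p.Prime] {V : Type*} [Fintype V] [DecidableEq V]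
    (G : SimpleGraph V) (s T N : ℕ) (hNS : NS s G) (hT : 1 ≤ T) (hN : N * T * T ≤ s) (μ : KK p)
    (E : Submodule (KK p) (V → KK p)) (hE : E ≤ eig (adj (KK p) G) μ) :
    (orth E : ℝ) ≤ 2 ^ Fintype.card V *
      gg p N ^ (min ((dg p μ * Module.finrank (KK p) E + 1) / 2) T) := by
  obtain ⟨W', hW', hdense, hfr⟩ := exists_dense_sub p G s (N * T) T hNS hN hT (desc p E)
    (desc_inv p G μ E hE)
  have hle : Module.finrank (ZMod p) W' ≤ T := by
    rw [hfr]
    exact Nat.min_le_right _ _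
  have h1 := halasz p W' (N * T) N hdense (Nat.mul_le_mul_left N hle)
  have h2 : orth E ≤ orth W' := by
    refine le_trans ?_ (orth_anti hW')
    unfold orth
    refine Finset.card_le_card fun b hb => ?_
    simp only [Finset.mem_filter, Finset.mem_univ, true_and] at hb ⊢
    exact desc_orth p E b hb
  have h3 : min ((dg p μ * Module.finrank (KK p) E + 1) / 2) T ≤ Module.finrank (ZMod p) W' := by
    rw [hfr]
    refine min_le_min ?_ le_rfl
    have h4 := desc_finrank p G μ E hE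
    omega
  have hp1 : 1 ≤ p := (Fact.out : p.Prime).one_lt.le
  have h5 : gg p N ^ Module.finrank (ZMod p) W' ≤
      gg p N ^ (min ((dg p μ * Module.finrank (KK p) E + 1) / 2) T) :=
    pow_le_pow_of_le_one (gg_nonneg p N) (gg_le_one p N hp1) h3
  calc (orth E : ℝ) ≤ (orth W' : ℝ) := by exact_mod_cast h2
    _ ≤ 2 ^ Fintype.card V * gg p N ^ Module.finrank (ZMod p) W' := h1
    _ ≤ _ := mul_le_mul_of_nonneg_left h5 (by positivity)

theorem orth_le' (p : ℕ) [Fact p.Prime] {V : Type*} [Fintype V] [DecidableEq V]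
    (G : SimpleGraph V) (s T N : ℕ) (hNS : NS s G) (hT : 1 ≤ T) (hN : N * T * T ≤ s) (μ : KK p)
    (E : Submodule (KK p) (V → KK p)) (hE : E ≤ eig (adj (KK p) G) μ) :
    (orth E : ℝ) ≤ 2 ^ Fintype.card V *
      gg p N ^ (min ((Module.finrank (KK p) E + 1) / 2) T) := by
  refine (orth_le p G s T N hNS hT hN μ E hE).trans ?_
  have hp1 : 1 ≤ p := (Fact.out : p.Prime).one_lt.le
  refine mul_le_mul_of_nonneg_left (pow_le_pow_of_le_one (gg_nonneg p N) (gg_le_one p N hp1) ?_)
    (by positivity)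
  refine min_le_min ?_ le_rfl
  have h1 := Nat.le_mul_of_pos_left (Module.finrank (KK p) E) (dg_pos p μ)
  omega

end Pool.Agent.H95.SQ
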