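import Pool.Agent.H95.SQ.Defs

/-!
# Bad events of one exposure step
-/

set_option autoImplicit false

namespace Pool.Agent.H95.SQ

open Matrix Classical Pool.Agent.H66.SP

/-- in characteristic `p` some eigenspace of dimension at least `M` is orthogonal to `b` -/
def BadO (p : ℕ) [Fact p.Prime] (M : ℕ) {V : Type*} [Fintype V] (G : SimpleGraph V)
    (b : V → Bool) : Prop :=
  ∃ μ : KK p, M ≤ mult (adj (KK p) G) μ ∧ ∀ x ∈ eig (adj (KK p) G) μ, bv (KK p) b ⬝ᵥ x = 0

/-- the same for some characteristic `p ≤ q` -/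
def BadS (q M : ℕ) {V : Type*} [Fintype V] (G : SimpleGraph V) (b : V → Bool) : Prop :=
  ∃ (p : ℕ) (_ : Fact p.Prime), p ≤ q ∧ BadO p M G b

/-- the same for some characteristic `p > q` -/
def BadL (q M : ℕ) {V : Type*} [Fintype V] (G : SimpleGraph V) (b : V → Bool) : Prop :=
  ∃ (p : ℕ) (_ : Fact p.Prime), q < p ∧ BadO p M G b

theorem gg_pos (p N : ℕ) (hp : 1 ≤ p) : 0 < gg p N := by
  unfold gg
  have hp' : (0 : ℝ) < p := by exact_mod_cast hp
  refine mul_pos (by positivity) (Finset.sum_pos' (fun i _ => by positivity) ⟨0, ?_, ?_⟩)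
  · exact Finset.mem_range.2 (by omega)
  · simp

end Pool.Agent.H95.SQ
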