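import Pool.Agent.H95.SQ.Defs

/-!
# Job SQ-Deg: few elements of given degree over the prime field

`card_dg_le`.  PROOF.  If `dg p μ = d` then the field `ZMod p⟮μ⟯` has `p^d` elements
(`IntermediateField.adjoin.finrank`, `Module.card_eq_pow_finrank`), so `μ^(p^d) = μ`
(`FiniteField.pow_card`), i.e. `μ` is a root of `X^(p^d) - X`, which has at most `p^d` roots
(`Polynomial.card_roots'`, degree `p^d`, `FiniteField.X_pow_card_sub_X_natDegree_eq`).
-/

set_option autoImplicit false

namespace Pool.Agent.H95.SQ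

open Matrix Classical Pool.Agent.H66.SP

theorem Deg_int (p : ℕ) [Fact p.Prime] (μ : KK p) : IsIntegral (ZMod p) μ :=
  (Algebra.IsAlgebraic.isAlgebraic μ).isIntegral

theorem Deg_pow (p : ℕ) [Fact p.Prime] (μ : KK p) : μ ^ (p ^ dg p μ) = μ := by
  have hint := Deg_int p μ
  have hfd : FiniteDimensional (ZMod p) (IntermediateField.adjoin (ZMod p) {μ}) :=
    IntermediateField.adjoin.finiteDimensional hint
  have hfin : Finite (IntermediateField.adjoin (ZMod p) {μ}) := Module.finite_of_finite (ZMod p)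
  have hft : Fintype (IntermediateField.adjoin (ZMod p) {μ}) := Fintype.ofFinite _
  have hcard : Fintype.card (IntermediateField.adjoin (ZMod p) {μ}) = p ^ dg p μ := by
    rw [Module.card_eq_pow_finrank (K := ZMod p), ZMod.card,
      IntermediateField.adjoin.finrank hint]
    rfl
  have h := FiniteField.pow_card
    (⟨μ, IntermediateField.mem_adjoin_simple_self (ZMod p) μ⟩ :
      IntermediateField.adjoin (ZMod p) {μ})
  rw [hcard] at h
  exact congrArg Subtype.val h

theorem card_dg_le (p : ℕ) [Fact p.Prime] (d : ℕ) (S : Finset (KK p))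
    (hS : ∀ μ ∈ S, dg p μ = d) : S.card ≤ p ^ d := by
  rcases S.eq_empty_or_nonempty with h0 | ⟨μ₀, hμ₀⟩
  · rw [h0, Finset.card_empty]
    exact Nat.zero_le _
  have hd : d ≠ 0 := by
    rw [← hS μ₀ hμ₀]
    exact (minpoly.natDegree_pos (Deg_int p μ₀)).ne'
  have hp1 : 1 < p := (Fact.out : p.Prime).one_lt
  have hpd : 1 < p ^ d := Nat.one_lt_pow hd hp1
  set P : Polynomial (KK p) := Polynomial.X ^ (p ^ d) - Polynomial.X with hP
  have hdeg : P.natDegree = p ^ d := FiniteField.X_pow_card_sub_X_natDegree_eq (KK p) hpd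
  have hP0 : P ≠ 0 := FiniteField.X_pow_card_sub_X_ne_zero (KK p) hpd
  have hsub : S ⊆ P.roots.toFinset := by
    intro μ hμ
    rw [Multiset.mem_toFinset, Polynomial.mem_roots hP0, Polynomial.IsRoot.def, hP,
      Polynomial.eval_sub, Polynomial.eval_pow, Polynomial.eval_X, sub_eq_zero, ← hS μ hμ]
    exact Deg_pow p μ
  calc S.card ≤ P.roots.toFinset.card := Finset.card_le_card hsub
    _ ≤ P.roots.card := Multiset.toFinset_card_le _
    _ ≤ P.natDegree := P.card_roots'
    _ = p ^ d := hdeg

end Pool.Agent.H95.SQ
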