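import Pool.Agent.H66.SP.Eigs
import Pool.Agent.H95.SQ.Qb
import Pool.Agent.H95.SQ.Deg
import Pool.Agent.H95.SQ.Kill2
import Pool.Agent.H95.SQ.Bad

/-!
# Job SQ-FinS: 400 random roots control in a small characteristic

`fin_small_one`.  PROOF.  Let `k = card V`, `g = gg p N`, `0 < g ≤ 1.01 / p` (`hg`, `T ≥ 100`).  For
an eigenvalue `μ`, `d = dg p μ ≥ 1`, put `x_μ = min ((d+1)/2) T ≥ 1`, `ρ_μ = g^(x_μ)`; for
`E' ≤ eig μ`, `E' ≠ ⊥`: `orth E' ≤ 2^k ρ_μ` by `orth_le` (`(d * finrank E' + 1)/2 ≥ (d+1)/2`,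
`g ≤ 1`).  By `kill2` (`m = 400`, `t = 30`) the number of `b` such that some nonzero
`x ∈ eig μ` is orthogonal to all `b i` is at most `2^(400 k) (17/16)^400 16^30 ρ_μ^370`.  Sum over
the at most `k` eigenvalues: those with `(d+1)/2 ≥ T` contribute at most `k (1.01/p)^(370 T)`; for
the others `ρ_μ^370 = g^(370 ((d+1)/2)) ≤ (1.01/p)^(185 d)` (`2 ((d+1)/2) ≥ d`, `1.01 / p ≤ 1`) and
there are at most `p^d` for every `d` (`card_dg_le`), in total
`∑_{d ≥ 1} (p (1.01/p)^185)^d ≤ 2 p (1.01/p)^185 ≤ 13 (1/p)^184`, as `1.01^185 ≤ 6.4` and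
`p (1.01/p)^185 ≤ 1/2`.
-/

set_option autoImplicit false

namespace Pool.Agent.H95.SQ

open Matrix Classical Pool.Agent.H66.SP

theorem finS_geom (r : ℝ) (hr : 0 ≤ r) (hr2 : r ≤ 1 / 2) (n : ℕ) :
    ∑ i ∈ Finset.range n, r ^ (i + 1) + 2 * r ^ (n + 1) ≤ 2 * r := by
  induction n with
  | zero => simp
  | succ n ih =>
    rw [Finset.sum_range_succ]
    have h1 : 0 ≤ r ^ (n + 1) := pow_nonneg hr _
    have h2 : r ^ (n + 1 + 1) = r ^ (n + 1) * r := pow_succ _ _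
    have h3 : r ^ (n + 1) * r ≤ r ^ (n + 1) * (1 / 2) := mul_le_mul_of_nonneg_left hr2 h1
    rw [h2]
    linarith

theorem finS_sum (p : ℕ) [Fact p.Prime] (r : ℝ) (hr : 0 ≤ r) (hr2 : (p : ℝ) * r ≤ 1 / 2)
    (S : Finset (KK p)) :
    ∑ μ ∈ S, r ^ (dg p μ) ≤ 2 * ((p : ℝ) * r) := by
  obtain ⟨n, hn⟩ : ∃ n, ∀ μ ∈ S, dg p μ - 1 < n := by
    refine ⟨S.sup (fun μ => dg p μ) + 1, fun μ hμ => ?_⟩
    have h := Finset.le_sup (f := fun μ => dg p μ) hμ
    have h' : dg p μ ≤ S.sup (fun μ => dg p μ) := h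
    omega
  have h1 := Finset.sum_fiberwise_of_maps_to (s := S) (t := Finset.range n)
    (g := fun μ => dg p μ - 1) (fun μ hμ => Finset.mem_range.2 (hn μ hμ))
    (fun μ => r ^ (dg p μ))
  rw [← h1]
  have h2 : ∀ i ∈ Finset.range n, ∑ μ ∈ S with dg p μ - 1 = i, r ^ (dg p μ) ≤
      ((p : ℝ) * r) ^ (i + 1) := by
    intro i _
    have h3 : ∀ μ ∈ S.filter (fun μ => dg p μ - 1 = i), dg p μ = i + 1 := by
      intro μ hμ
      have h4 := (Finset.mem_filter.1 hμ).2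
      have h5 := dg_pos p μ
      omega
    have h6 : ∑ μ ∈ S with dg p μ - 1 = i, r ^ (dg p μ) =
        ∑ μ ∈ S with dg p μ - 1 = i, r ^ (i + 1) :=
      Finset.sum_congr rfl fun μ hμ => by rw [h3 μ hμ]
    rw [h6, Finset.sum_const, nsmul_eq_mul, mul_pow]
    refine mul_le_mul_of_nonneg_right ?_ (pow_nonneg hr _)
    have h7 := card_dg_le p (i + 1) _ h3
    exact_mod_cast h7
  refine (Finset.sum_le_sum h2).trans ?_
  have hpr : 0 ≤ (p : ℝ) * r := mul_nonneg (Nat.cast_nonneg _) hr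
  have h8 := finS_geom ((p : ℝ) * r) hpr hr2 n
  have h9 : 0 ≤ 2 * ((p : ℝ) * r) ^ (n + 1) := by positivity
  linarith

theorem fin_small_one (p : ℕ) [Fact p.Prime] {V : Type*} [Fintype V] [DecidableEq V]
    (G : SimpleGraph V) (s T N : ℕ) (hNS : NS s G) (hT : 100 ≤ T) (hN : N * T * T ≤ s)
    (hg : gg p N ≤ (1 / (p : ℝ)) * (1 + 1 / T))
    (hmult : ∀ μ : KK p, mult (adj (KK p) G) μ ≤ 30) :
    (((Finset.univ : Finset (Fin 400 → V → Bool)).filter (fun b => ¬ CtlP p G b)).card : ℝ) ≤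
      2 ^ (Fintype.card V * 400) * ((17 / 16) ^ 400 * 16 ^ 30 *
        (Fintype.card V * (1.01 / (p : ℝ)) ^ (370 * T) + 13 * (1 / (p : ℝ)) ^ 184)) := by
  have hp1 : 1 ≤ p := (Fact.out : p.Prime).one_lt.le
  have hp2 : 2 ≤ p := (Fact.out : p.Prime).two_le
  have hp2R : (2 : ℝ) ≤ p := by exact_mod_cast hp2
  have hp0R : (0 : ℝ) < p := by linarith
  obtain ⟨g, hgdef⟩ : ∃ g, g = gg p N := ⟨_, rfl⟩
  have hg0 : 0 < g := by rw [hgdef]; exact gg_pos p N hp1
  have hg1 : g ≤ 1 := by rw [hgdef]; exact gg_le_one p N hp1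
  have hTR : (100 : ℝ) ≤ T := by exact_mod_cast hT
  obtain ⟨c, hc⟩ : ∃ c : ℝ, c = 1.01 / (p : ℝ) := ⟨_, rfl⟩
  have hc0 : 0 < c := by rw [hc]; positivity
  have hc1 : c ≤ 1 := by
    rw [hc, div_le_one hp0R]
    linarith
  have hgc : g ≤ c := by
    rw [hgdef, hc]
    refine hg.trans ?_
    have h1 : (1 : ℝ) / T ≤ 1 / 100 := one_div_le_one_div_of_le (by norm_num) hTR
    calc (1 / (p : ℝ)) * (1 + 1 / T) ≤ (1 / (p : ℝ)) * (1 + 1 / 100) := by
          refine mul_le_mul_of_nonneg_left (by linarith) (by positivity)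
      _ = 1.01 / (p : ℝ) := by
          norm_num
          ring
  obtain ⟨S, hScard, hS⟩ := card_eigs (adj (KK p) G)
  let bad : KK p → Finset (Fin 400 → V → Bool) := fun μ =>
    (Finset.univ : Finset (Fin 400 → V → Bool)).filter
      (fun b => ∃ x ∈ eig (adj (KK p) G) μ, x ≠ 0 ∧ ∀ i, bv (KK p) (b i) ⬝ᵥ x = 0)
  have hbad : ∀ μ, ((bad μ).card : ℝ) ≤ 2 ^ (Fintype.card V * 400) *
      ((17 / 16) ^ 400 * 16 ^ 30 * (g ^ (min ((dg p μ + 1) / 2) T)) ^ (400 - 30)) := by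
    intro μ
    refine kill2 400 30 (eig (adj (KK p) G) μ) (hmult μ) (by norm_num)
      (g ^ (min ((dg p μ + 1) / 2) T)) (pow_pos hg0 _) (pow_le_one₀ hg0.le hg1) ?_
    intro E' hE' hE'0
    have h1 := orth_le p G s T N hNS (by omega) hN μ E' hE'
    rw [← hgdef] at h1
    refine h1.trans (mul_le_mul_of_nonneg_left (pow_le_pow_of_le_one hg0.le hg1 ?_)
      (by positivity))
    refine min_le_min ?_ le_rfl
    have h2 : 0 < Module.finrank (KK p) E' := by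
      rw [Module.finrank_pos_iff]
      exact Submodule.nontrivial_iff_ne_bot.mpr hE'0
    have h3 := Nat.le_mul_of_pos_right (dg p μ) h2
    omega
  have hcov : (Finset.univ : Finset (Fin 400 → V → Bool)).filter (fun b => ¬ CtlP p G b) ⊆
      S.biUnion bad := by
    intro b hb
    have h1 := (Finset.mem_filter.1 hb).2
    unfold CtlP Ctl at h1
    push Not at h1
    obtain ⟨μ, x, hx, hxb, hx0⟩ := h1
    rw [Finset.mem_biUnion]
    refine ⟨μ, hS μ ?_, Finset.mem_filter.2 ⟨Finset.mem_univ _, x, hx, hx0, hxb⟩⟩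
    intro h2
    rw [h2, Submodule.mem_bot] at hx
    exact hx0 hx
  have h1 : (((Finset.univ : Finset (Fin 400 → V → Bool)).filter
      (fun b => ¬ CtlP p G b)).card : ℝ) ≤ ∑ μ ∈ S, ((bad μ).card : ℝ) := by
    have h2 := (Finset.card_le_card hcov).trans Finset.card_biUnion_le
    exact_mod_cast h2
  refine h1.trans ((Finset.sum_le_sum fun μ _ => hbad μ).trans ?_)
  rw [← Finset.mul_sum, ← Finset.mul_sum]
  refine mul_le_mul_of_nonneg_left (mul_le_mul_of_nonneg_left ?_ (by positivity)) (by positivity)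
  -- the sum over the eigenvalues
  have h3 : ∀ μ ∈ S, (g ^ (min ((dg p μ + 1) / 2) T)) ^ (400 - 30) ≤
      c ^ (370 * T) + (c ^ 185) ^ (dg p μ) := by
    intro μ _
    rw [← pow_mul]
    have hA : 0 ≤ c ^ (370 * T) := by positivity
    have hB : 0 ≤ (c ^ 185) ^ (dg p μ) := by positivity
    rcases le_total T ((dg p μ + 1) / 2) with h | h
    · rw [min_eq_right h]
      have h4 : g ^ (T * (400 - 30)) ≤ c ^ (370 * T) := by
        rw [show T * (400 - 30) = 370 * T by omega]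
        exact pow_le_pow_left₀ hg0.le hgc _
      linarith
    · rw [min_eq_left h]
      have h4 : g ^ ((dg p μ + 1) / 2 * (400 - 30)) ≤ (c ^ 185) ^ (dg p μ) := by
        refine (pow_le_pow_left₀ hg0.le hgc _).trans ?_
        rw [← pow_mul]
        exact pow_le_pow_of_le_one hc0.le hc1 (by omega)
      linarith
  refine (Finset.sum_le_sum h3).trans ?_
  rw [Finset.sum_add_distrib, Finset.sum_const, nsmul_eq_mul, ← hc]
  refine add_le_add (mul_le_mul_of_nonneg_right (by exact_mod_cast hScard) (by positivity)) ?_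
  have hpc : (p : ℝ) * c ^ 185 = 1.01 ^ 185 * (1 / (p : ℝ)) ^ 184 := by
    rw [hc, div_pow, one_div, inv_pow, pow_succ (p : ℝ) 184]
    field_simp
  have h101 : (1.01 : ℝ) ^ 185 ≤ 6.5 := by norm_num
  have hinv : (1 / (p : ℝ)) ^ 184 ≤ (1 / 2) ^ 184 :=
    pow_le_pow_left₀ (by positivity) (one_div_le_one_div_of_le (by norm_num) hp2R) _
  have hinv0 : (0 : ℝ) ≤ (1 / (p : ℝ)) ^ 184 := by positivity
  have hr2 : (p : ℝ) * c ^ 185 ≤ 1 / 2 := by
    rw [hpc]
    calc (1.01 : ℝ) ^ 185 * (1 / (p : ℝ)) ^ 184 ≤ 6.5 * (1 / 2) ^ 184 :=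
          mul_le_mul h101 hinv hinv0 (by norm_num)
      _ ≤ 1 / 2 := by norm_num
  have h5 := finS_sum p (c ^ 185) (by positivity) hr2 S
  refine h5.trans ?_
  rw [hpc]
  have h6 := mul_le_mul_of_nonneg_right h101 hinv0
  linarith

end Pool.Agent.H95.SQ
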