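import Pool.Agent.H95.SQ.Defs

/-!
# Parameters: `PP` collects the numerical hypotheses, `del` is the bound for one step
-/

set_option autoImplicit false

namespace Pool.Agent.H95.SQ

open Matrix Classical Pool.Agent.H66.SP

/-- the numerical hypotheses for graphs with `k` vertices -/
structure PP (q p₀ N₁ N₂ T₂ k : ℕ) (z : ℝ) : Prop where
  hq : q < p₀
  hz0 : 0 < z
  hz1 : z ≤ 1
  hN₁ : N₁ * 40 * 40 ≤ k / 400
  hN₂ : N₂ * T₂ * T₂ ≤ k / 400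
  hT₂ : 100 ≤ T₂
  hL : ∀ p : ℕ, p.Prime → q < p → gg p N₁ ≤ z
  hS : ∀ p : ℕ, p.Prime → p ≤ q → gg p N₂ ≤ (1 / (p : ℝ)) * (1 + 1 / T₂)
  hC : (k : ℝ) * ((17 / 16) ^ 60 * 16 ^ 40 * z ^ 20) < 1

/-- the bound for one step -/
noncomputable def del (n q T₂ k : ℕ) (z : ℝ) : ℝ :=
  k * z ^ 20 + 2 * (k : ℝ) ^ 4 * z ^ 40 + 3 * k * q * (1 / 2) ^ T₂ +
    48 * (1 / 2) ^ ((30 + (n - 1 - k)) / 2)

end Pool.Agent.H95.SQ
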