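import Pool.Agent.H95.SQ.Full2a

/-!
# Job SQ-Full2: half of all graphs are generated by 460 fixed vertices

`card_not_full2`.  Transport to `Fin N`, `N = n + 460`, `R : Finset (Fin N)` with 460 elements,
exactly as in `card_not_full` (H66/SP/Main.lean).
-/

set_option autoImplicit false

namespace Pool.Agent.H95.SQ

open Matrix Classical Pool.Agent.H66.SP

theorem card_not_full2 : ∃ n₀ : ℕ, ∀ n : ℕ, n₀ ≤ n → ∀ R : Finset (Fin n), R.card = 460 →
    (((Finset.univ : Finset (SimpleGraph (Fin n))).filter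
      (fun G => ¬ Full G (R : Set (Fin n)))).card : ℝ) ≤
      (1 / 2) * (Fintype.card (SimpleGraph (Fin n)) : ℝ) := by
  obtain ⟨m₀, hm₀⟩ := card_not_full2_sum
  refine ⟨m₀ + 460, fun n hn R hR => ?_⟩
  obtain ⟨n₁, hn₁⟩ : ∃ n₁, n = n₁ + 460 := ⟨n - 460, by omega⟩
  -- the equivalence
  have e1 : {v : Fin n // v ∈ R} ≃ Fin 60 ⊕ Fin 400 := by
    apply Fintype.equivOfCardEq
    rw [Fintype.card_coe, hR, Fintype.card_sum, Fintype.card_fin, Fintype.card_fin]
  have e2 : {v : Fin n // v ∉ R} ≃ Fin n₁ := by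
    apply Fintype.equivOfCardEq
    rw [Fintype.card_subtype_compl, Fintype.card_coe, Fintype.card_fin, Fintype.card_fin, hR]
    omega
  let e : Fin n ≃ Fin n₁ ⊕ (Fin 60 ⊕ Fin 400) :=
    ((Equiv.sumCompl (fun v : Fin n => v ∈ R)).symm.trans (Equiv.sumComm _ _)).trans
      (Equiv.sumCongr e2 e1)
  have he : e '' (R : Set (Fin n)) = Set.range Sum.inr := by
    ext w
    constructor
    · rintro ⟨v, hv, rfl⟩
      have hv' : v ∈ R := hv
      refine ⟨e1 ⟨v, hv'⟩, ?_⟩
      simp only [e, Equiv.trans_apply]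
      rw [Equiv.sumCompl_symm_apply_of_pos (p := fun v : Fin n => v ∈ R) hv']
      rfl
    · rintro ⟨r, rfl⟩
      refine ⟨(e1.symm r : Fin n), (e1.symm r).2, ?_⟩
      simp only [e, Equiv.trans_apply]
      rw [Equiv.sumCompl_symm_apply_of_pos (p := fun v : Fin n => v ∈ R) (e1.symm r).2]
      simp
  have hcard : ((Finset.univ : Finset (SimpleGraph (Fin n))).filter
      (fun G => ¬ Full G (R : Set (Fin n)))).card =
      ((Finset.univ : Finset (SimpleGraph (Fin n₁ ⊕ (Fin 60 ⊕ Fin 400)))).filter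
      (fun K => ¬ Full K (Set.range Sum.inr))).card := by
    apply Finset.card_bij (fun G _ => e.simpleGraph G)
    · intro G hG
      rw [Finset.mem_filter] at hG ⊢
      refine ⟨Finset.mem_univ _, fun h => hG.2 ?_⟩
      rw [full_simpleGraph e G, he]
      exact h
    · intro G _ H _ h
      exact e.simpleGraph.injective h
    · intro K hK
      refine ⟨e.simpleGraph.symm K, ?_, by simp⟩
      rw [Finset.mem_filter] at hK ⊢
      refine ⟨Finset.mem_univ _, fun h => hK.2 ?_⟩
      rw [full_simpleGraph e, he, Equiv.apply_symm_apply] at h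
      exact h
  have hcg : Fintype.card (SimpleGraph (Fin n)) =
      Fintype.card (SimpleGraph (Fin n₁ ⊕ (Fin 60 ⊕ Fin 400))) :=
    Fintype.card_congr e.simpleGraph
  have hmain := hm₀ n₁ (by omega)
  rw [← hcard, ← hcg] at hmain
  exact hmain

end Pool.Agent.H95.SQ
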