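import Pool.Agent.H66.SP.Pigeon
import Pool.Agent.H66.SP.Arith
import Pool.Agent.H95.SQ.Full2

/-!
# Job SQ-Ari2: the number of spectra is `2^(Θ(n^2))`

`sp_lower2`.  PROOF.  For large `n` take `R` with 460 elements.  By `card_not_full2` and
`card_full_le`: `2^(n (n-1)/2) / 2 ≤ #{Full} ≤ n! * sp n ^ (461^2)`, so
`461^2 * log (sp n) ≥ (n (n-1)/2 - 1) log 2 - n log n ≥ n^2 / 8` for large `n`; take
`c = 1 / (8 * 461^2)` there.  For the finitely many other `n ≥ 2` use `2 ≤ sp n` (`two_le_sp`) and a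
small `c`.  Copy `sp_lower_large` and `sp_lower` in H66/SP/Arith.lean, with `(80 L + 1)^2` replaced by
`461^2` and without the division by `log^2`.

`sp_upper`: `sp n ≤ card (SimpleGraph (Fin n)) = 2^(n.choose 2) ≤ 2^(n^2)` (`Finset.card_image_le`,
`card_graph_fin`).
-/

set_option autoImplicit false

namespace Pool.Agent.H95.SQ

open Matrix Classical Pool.Agent.H66.SP

theorem sp_lower2_large : ∃ c : ℝ, 0 < c ∧ ∃ N : ℕ, ∀ n : ℕ, N ≤ n →
    (2 : ℝ) ^ (c * (n : ℝ) ^ 2) ≤ (sp n : ℝ) := by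
  have hlog : ∀ᶠ n : ℕ in Filter.atTop, Real.log (n : ℝ) ≤ (1 / 1000) * (n : ℝ) := by
    have h := Real.isLittleO_log_id_atTop.bound (show (0 : ℝ) < 1 / 1000 by norm_num)
    have h' := tendsto_natCast_atTop_atTop.eventually h
    filter_upwards [h'] with n hn
    have h1 : ‖Real.log (n : ℝ)‖ ≤ 1 / 1000 * ‖(id (n : ℝ) : ℝ)‖ := hn
    rw [Real.norm_eq_abs, Real.norm_eq_abs, id] at h1
    rw [abs_of_nonneg (show (0 : ℝ) ≤ (n : ℝ) from Nat.cast_nonneg n)] at h1
    exact (le_abs_self _).trans h1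
  obtain ⟨N, hN⟩ := Filter.eventually_atTop.mp hlog
  obtain ⟨n₀, hn₀⟩ := card_not_full2
  refine ⟨1 / (8 * 212521), by norm_num, max (max N n₀) 460, ?_⟩
  intro n hn
  have hn1 : N ≤ n := (le_max_left _ _).trans ((le_max_left _ _).trans hn)
  have hn3 : n₀ ≤ n := (le_max_right _ _).trans ((le_max_left _ _).trans hn)
  have hn2 : 460 ≤ n := (le_max_right _ _).trans hn
  have hnR : (460 : ℝ) ≤ n := by exact_mod_cast hn2
  have hl := hN n hn1
  obtain ⟨R, -, hR⟩ := Finset.exists_subset_card_eq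
    (s := (Finset.univ : Finset (Fin n))) (n := 460) (by simpa using hn2)
  have h1 := hn₀ n hn3 R hR
  have h2 := card_full_le n R
  rw [hR] at h2
  have h3 : ((Finset.univ : Finset (SimpleGraph (Fin n))).filter
      (fun G => Full G (R : Set (Fin n)))).card +
      ((Finset.univ : Finset (SimpleGraph (Fin n))).filter
      (fun G => ¬ Full G (R : Set (Fin n)))).card = Fintype.card (SimpleGraph (Fin n)) := by
    rw [Finset.card_filter_add_card_filter_not, Finset.card_univ]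
  rw [card_graph_fin] at h1 h3
  set a := ((Finset.univ : Finset (SimpleGraph (Fin n))).filter
      (fun G => Full G (R : Set (Fin n)))).card with ha
  set b := ((Finset.univ : Finset (SimpleGraph (Fin n))).filter
      (fun G => ¬ Full G (R : Set (Fin n)))).card with hb
  have h3R : (a : ℝ) + b = (2 : ℝ) ^ (n.choose 2) := by exact_mod_cast h3
  have h1R : (b : ℝ) ≤ (1 / 2) * (2 : ℝ) ^ (n.choose 2) := by
    refine h1.trans (le_of_eq ?_)
    push_cast
    rfl
  have h2R : (a : ℝ) ≤ (n.factorial : ℝ) * (sp n : ℝ) ^ ((460 + 1) ^ 2) := by exact_mod_cast h2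
  have hb0 : (0 : ℝ) ≤ b := Nat.cast_nonneg b
  have h4 : (2 : ℝ) ^ (n.choose 2) ≤ 2 * a := by linarith
  have hfac : (n.factorial : ℝ) ≤ (n : ℝ) ^ n := by exact_mod_cast Nat.factorial_le_pow n
  have hsp : (2 : ℝ) ≤ (sp n : ℝ) := by exact_mod_cast two_le_sp n (by omega)
  have h5 : (2 : ℝ) ^ (n.choose 2) ≤ 2 * ((n : ℝ) ^ n * (sp n : ℝ) ^ ((460 + 1) ^ 2)) := by
    refine h4.trans (mul_le_mul_of_nonneg_left (h2R.trans ?_) (by norm_num))
    exact mul_le_mul_of_nonneg_right hfac (by positivity)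
  have hn0 : (0 : ℝ) < n := by linarith
  have hs0 : (0 : ℝ) < sp n := by linarith
  have h6 := Real.log_le_log (by positivity) h5
  rw [Real.log_pow, Real.log_mul (by norm_num) (by positivity),
    Real.log_mul (by positivity) (by positivity), Real.log_pow, Real.log_pow] at h6
  have hch : ((n.choose 2 : ℕ) : ℝ) = (n : ℝ) * (n - 1) / 2 := Nat.cast_choose_two ℝ n
  rw [hch] at h6
  have hlogn : 0 < Real.log n := Real.log_pos (by linarith)
  have hlogs : 0 < Real.log (sp n) := Real.log_pos (by linarith)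
  have h7 : (((460 + 1) ^ 2 : ℕ) : ℝ) = 212521 := by norm_num
  rw [h7] at h6
  have h8 := Real.log_two_gt_d9
  have h9 := Real.log_two_lt_d9
  have h11 : (n : ℝ) ^ 2 / 8 ≤ 212521 * Real.log (sp n) := by
    have h12 : (n : ℝ) * Real.log n ≤ (n : ℝ) * (1 / 1000 * n) :=
      mul_le_mul_of_nonneg_left hl hn0.le
    have h13 : (0.34 : ℝ) * ((n : ℝ) * (n - 1)) ≤ (n : ℝ) * (n - 1) / 2 * Real.log 2 := by
      have : (0 : ℝ) ≤ (n : ℝ) * (n - 1) := mul_nonneg hn0.le (by linarith)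
      nlinarith
    nlinarith
  rw [← Real.log_le_log_iff (by positivity) hs0, Real.log_rpow (by norm_num)]
  have h14 : 1 / (8 * 212521) * (n : ℝ) ^ 2 ≤ Real.log (sp n) := by
    linarith
  have h15 : (0 : ℝ) ≤ 1 / (8 * 212521) * (n : ℝ) ^ 2 := by positivity
  nlinarith

theorem sp_lower2 : ∃ c : ℝ, 0 < c ∧ ∀ n : ℕ, 2 ≤ n →
    (2 : ℝ) ^ (c * (n : ℝ) ^ 2) ≤ (sp n : ℝ) := by
  obtain ⟨c, hc, N, hN⟩ := sp_lower2_large
  refine ⟨min c (1 / (4 * ((N : ℝ) + 1) ^ 2)), lt_min hc (by positivity), ?_⟩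
  intro n hn
  have hnR : (2 : ℝ) ≤ n := by exact_mod_cast hn
  by_cases h : N ≤ n
  · refine le_trans ?_ (hN n h)
    apply Real.rpow_le_rpow_of_exponent_le (by norm_num)
    exact mul_le_mul_of_nonneg_right (min_le_left _ _) (by positivity)
  · have h1 : (2 : ℝ) ^ (min c (1 / (4 * ((N : ℝ) + 1) ^ 2)) * (n : ℝ) ^ 2) ≤
        (2 : ℝ) ^ (1 : ℝ) := by
      apply Real.rpow_le_rpow_of_exponent_le (by norm_num)
      have h2 : (n : ℝ) ≤ N + 1 := by
        have : n ≤ N + 1 := by omega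
        exact_mod_cast this
      have h3 : (n : ℝ) ^ 2 ≤ ((N : ℝ) + 1) ^ 2 := pow_le_pow_left₀ (by linarith) h2 2
      have h4 : min c (1 / (4 * ((N : ℝ) + 1) ^ 2)) * (n : ℝ) ^ 2 ≤
          1 / (4 * ((N : ℝ) + 1) ^ 2) * ((N : ℝ) + 1) ^ 2 :=
        mul_le_mul (min_le_right _ _) h3 (by positivity) (by positivity)
      have h5 : 1 / (4 * ((N : ℝ) + 1) ^ 2) * ((N : ℝ) + 1) ^ 2 = 1 / 4 := by
        field_simp
      rw [h5] at h4
      linarith
    rw [Real.rpow_one] at h1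
    have h2 : (2 : ℝ) ≤ (sp n : ℝ) := by exact_mod_cast two_le_sp n hn
    linarith

theorem sp_upper (n : ℕ) : sp n ≤ 2 ^ (n.choose 2) := by
  unfold sp
  refine Finset.card_image_le.trans ?_
  rw [Finset.card_univ, ← card_graph_fin]

end Pool.Agent.H95.SQ
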