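import Pool.Agent.H66.SP.Prim
import Pool.Agent.H95.SQ.Defs

/-!
# Job SQ-CtlEq: control in one characteristic gives control over the complex numbers

`ctlC_of_ctlP`.  PROOF.  By `krylov_top` over `KK p₀` (algebraically closed) the vectors
`(adj (KK p₀) G)^j *ᵥ bv (b i)`, `j < card V`, span `(KK p₀)^V`; choose a basis among them, given by
`c v = (j_v, i_v)`; the integer matrix `W v u = ((adj ℤ G)^(j_v) *ᵥ bv ℤ (b (i_v))) u` has a
determinant which is nonzero in `KK p₀` (`prim_cast`), so nonzero in `ℤ`, so nonzero in `ℂ`.  (This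
is the first half of the proof of `primes_ctrl` in H66/SP/Prim.lean, with `KK p₀` and `ℂ`
exchanged.)  If `x ∈ eig (adj ℂ G) μ` is orthogonal to all `bv ℂ (b i)` then by `prim_dot`
`((adj ℂ G)^j *ᵥ bv ℂ (b i)) ⬝ᵥ x = μ^j (bv ℂ (b i) ⬝ᵥ x) = 0`, so `W x = 0` over `ℂ` and `x = 0`.
-/

set_option autoImplicit false

namespace Pool.Agent.H95.SQ

open Matrix Classical Pool.Agent.H66.SP

theorem ctlC_of_ctlP (p₀ : ℕ) [Fact p₀.Prime] {V : Type*} [Fintype V] [DecidableEq V]
    (G : SimpleGraph V) {ι : Type*} (b : ι → V → Bool) (h : CtlP p₀ G b) : CtlC G b := by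
  haveI : CharP (KK p₀) p₀ :=
    charP_of_injective_algebraMap (algebraMap (ZMod p₀) (KK p₀)).injective p₀
  have hspan := krylov_top (adj (KK p₀) G) (prim_symm G) (fun i => bv (KK p₀) (b i)) h
  obtain ⟨B, hBs, hBspan, hBli⟩ := exists_linearIndependent (KK p₀)
    {y : V → KK p₀ | ∃ j < Fintype.card V, ∃ i, y = ((adj (KK p₀) G) ^ j) *ᵥ (bv (KK p₀) (b i))}
  have hBtop : ⊤ ≤ Submodule.span (KK p₀) (Set.range (fun x : B => (x : V → KK p₀))) := by
    rw [Subtype.range_coe, hBspan, hspan]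
  let bas := Module.Basis.mk hBli hBtop
  have : Finite B := hBli.finite
  have : Fintype B := Fintype.ofFinite B
  have hcard : Fintype.card V = Fintype.card B := by
    rw [← Module.finrank_eq_card_basis bas, Module.finrank_fintype_fun_eq_card]
  let e : V ≃ B := Fintype.equivOfCardEq hcard
  have hc : ∀ v : V, ∃ j < Fintype.card V, ∃ i,
      ((e v : B) : V → KK p₀) = ((adj (KK p₀) G) ^ j) *ᵥ (bv (KK p₀) (b i)) :=
    fun v => hBs (e v).2
  choose j hj i hi using hc
  obtain ⟨W, hW⟩ : ∃ W : Matrix V V ℤ,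
      W = Matrix.of fun v u => ((adj ℤ G) ^ (j v) *ᵥ bv ℤ (b (i v))) u :=
    ⟨_, rfl⟩
  have hWK : ∀ (K : Type) [Field K] (v u : V), (W.map (Int.castRingHom K)) v u =
      ((adj K G) ^ (j v) *ᵥ bv K (b (i v))) u := by
    intro K _ v u
    rw [hW, Matrix.map_apply, Matrix.of_apply]
    exact prim_cast G (b (i v)) (j v) u
  have hdet : W.det ≠ 0 := by
    have h1 : LinearIndependent (KK p₀) (W.map (Int.castRingHom (KK p₀))).row := by
      have h2 : (W.map (Int.castRingHom (KK p₀))).row = fun v => ((e v : B) : V → KK p₀) := by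
        funext v u
        rw [hi v]
        exact hWK (KK p₀) v u
      rw [h2]
      exact hBli.comp _ e.injective
    have h3 := (Matrix.isUnit_iff_isUnit_det _).1 (Matrix.linearIndependent_rows_iff_isUnit.1 h1)
    have h4 : (W.map (Int.castRingHom (KK p₀))).det = ((W.det : ℤ) : KK p₀) := by
      have := RingHom.map_det (Int.castRingHom (KK p₀)) W
      rw [RingHom.mapMatrix_apply] at this
      exact this.symm
    rw [h4] at h3
    intro h5
    rw [h5] at h3
    simp at h3
  have hdetC : (W.map (Int.castRingHom ℂ)).det ≠ 0 := by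
    have h4 : (W.map (Int.castRingHom ℂ)).det = ((W.det : ℤ) : ℂ) := by
      have := RingHom.map_det (Int.castRingHom ℂ) W
      rw [RingHom.mapMatrix_apply] at this
      exact this.symm
    rw [h4]
    exact_mod_cast hdet
  intro μ x hx hbx
  have hx' := (mem_eig _ _ _).1 hx
  refine Matrix.eq_zero_of_mulVec_eq_zero hdetC ?_
  funext v
  have h6 : ((W.map (Int.castRingHom ℂ)) *ᵥ x) v =
      ((adj ℂ G) ^ (j v) *ᵥ bv ℂ (b (i v))) ⬝ᵥ x := by
    show ∑ u, (W.map (Int.castRingHom ℂ)) v u * x u = ∑ u, _ * x u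
    refine Finset.sum_congr rfl fun u _ => ?_
    rw [hWK ℂ v u]
  rw [h6, prim_dot _ (prim_symm G) hx', hbx, mul_zero]
  rfl

end Pool.Agent.H95.SQ
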