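import Pool.Agent.H95.SQ.Defs

/-!
# Job SQ-Desc: descent of an eigenspace to the prime field

`ann E` = the vectors over `ZMod p` orthogonal to `E`, `desc E` = the vectors over `ZMod p`
orthogonal to `ann E`.

`desc_orth` is clear: if the 0/1 vector `b` is orthogonal to `E` then `bv (ZMod p) b ∈ ann E`
(`algebraMap ∘ bv (ZMod p) b = bv (KK p) b`).
`desc_inv`: if `E ≤ eig A μ` and `c ∈ ann E` then `A c ∈ ann E`: `(A c) · x = c · (A x) = μ c · x = 0`
(`A` symmetric with entries 0, 1).  So for `y ∈ desc E`: `c · (A y) = (A c) · y = 0`.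
-/

set_option autoImplicit false

namespace Pool.Agent.H95.SQ

open Matrix Classical Pool.Agent.H66.SP

/-- the vectors over `ZMod p` orthogonal to `E` -/
def ann (p : ℕ) [Fact p.Prime] {V : Type*} [Fintype V] (E : Submodule (KK p) (V → KK p)) :
    Submodule (ZMod p) (V → ZMod p) where
  carrier := {c | ∀ x ∈ E, (fun v => algebraMap (ZMod p) (KK p) (c v)) ⬝ᵥ x = 0}
  add_mem' := by
    intro a b ha hb x hx
    have h1 := ha x hx
    have h2 := hb x hx
    have h3 : (fun v => algebraMap (ZMod p) (KK p) ((a + b) v)) =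
        (fun v => algebraMap (ZMod p) (KK p) (a v)) + (fun v => algebraMap (ZMod p) (KK p) (b v)) := by
      funext v
      simp
    rw [h3, add_dotProduct, h1, h2, add_zero]
  zero_mem' := by
    intro x _
    simp [dotProduct]
  smul_mem' := by
    intro r a ha x hx
    have h1 := ha x hx
    have h3 : (fun v => algebraMap (ZMod p) (KK p) ((r • a) v)) =
        (algebraMap (ZMod p) (KK p) r) • (fun v => algebraMap (ZMod p) (KK p) (a v)) := by
      funext v
      simp
    rw [h3, smul_dotProduct, h1, smul_zero]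

/-- the vectors over `ZMod p` orthogonal to `ann E` -/
def desc (p : ℕ) [Fact p.Prime] {V : Type*} [Fintype V] (E : Submodule (KK p) (V → KK p)) :
    Submodule (ZMod p) (V → ZMod p) where
  carrier := {y | ∀ c ∈ ann p E, c ⬝ᵥ y = 0}
  add_mem' := by
    intro a b ha hb c hc
    rw [dotProduct_add, ha c hc, hb c hc, add_zero]
  zero_mem' := by
    intro c _
    exact dotProduct_zero _
  smul_mem' := by
    intro r a ha c hc
    rw [dotProduct_smul, ha c hc, smul_zero]

theorem Desc_map (p : ℕ) [Fact p.Prime] {V : Type*} [Fintype V] (G : SimpleGraph V)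
    (c : V → ZMod p) : (fun v => algebraMap (ZMod p) (KK p) ((c ᵥ* adj (ZMod p) G) v)) =
      (fun v => algebraMap (ZMod p) (KK p) (c v)) ᵥ* adj (KK p) G := by
  funext v
  show algebraMap (ZMod p) (KK p) (∑ u, c u * adj (ZMod p) G u v) =
    ∑ u, algebraMap (ZMod p) (KK p) (c u) * adj (KK p) G u v
  rw [map_sum]
  refine Finset.sum_congr rfl fun u _ => ?_
  rw [map_mul]
  congr 1
  simp only [adj, Matrix.of_apply]
  split_ifs
  · exact map_one _
  · exact map_zero _

theorem desc_orth (p : ℕ) [Fact p.Prime] {V : Type*} [Fintype V] [DecidableEq V]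
    (E : Submodule (KK p) (V → KK p)) (b : V → Bool)
    (hb : ∀ x ∈ E, bv (KK p) b ⬝ᵥ x = 0) : ∀ y ∈ desc p E, bv (ZMod p) b ⬝ᵥ y = 0 := by
  intro y hy
  refine hy (bv (ZMod p) b) fun x hx => ?_
  have h : (fun v => algebraMap (ZMod p) (KK p) (bv (ZMod p) b v)) = bv (KK p) b := by
    funext v
    simp only [bv]
    split_ifs
    · exact map_one _
    · exact map_zero _
  rw [h]
  exact hb x hx

theorem desc_inv (p : ℕ) [Fact p.Prime] {V : Type*} [Fintype V] [DecidableEq V]
    (G : SimpleGraph V) (μ : KK p) (E : Submodule (KK p) (V → KK p))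
    (hE : E ≤ eig (adj (KK p) G) μ) : ∀ y ∈ desc p E, adj (ZMod p) G *ᵥ y ∈ desc p E := by
  intro y hy c hc
  rw [Matrix.dotProduct_mulVec]
  refine hy _ fun x hx => ?_
  rw [Desc_map, ← Matrix.dotProduct_mulVec, (mem_eig _ _ _).1 (hE hx), dotProduct_smul, hc x hx,
    smul_zero]

end Pool.Agent.H95.SQ
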