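import Pool.Agent.H66.SP.Eigs
import Pool.Agent.H95.SQ.Bad
import Pool.Agent.H95.SQ.Qb
import Pool.Agent.H95.SQ.Kill2

/-!
# Job SQ-StepL2: 60 random vectors control in characteristic `p₀`

`exists_ctl60`.  PROOF.  For every `μ` in the set `S` of `card_eigs` apply `kill2` with
`E = eig (adj (KK p₀) G) μ`, `t = 40`, `m = 60`, `ρ = z`: for `E' ≤ E`, `E' ≠ ⊥`,
`orth E' ≤ 2^k (gg p₀ N)^(min ((finrank E' + 1)/2) T) ≤ 2^k z` as the exponent is at least `1`
(`orth_le'`).  So the number of `b` which do not control is at most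
`2^(60 k) * (k (17/16)^60 16^40 z^20) < 2^(60 k)`.
`card_not_ctl60` is this count.
-/

set_option autoImplicit false

namespace Pool.Agent.H95.SQ

open Matrix Classical Pool.Agent.H66.SP

theorem stl_orth_le (p₀ : ℕ) [Fact p₀.Prime] {V : Type*} [Fintype V] [DecidableEq V]
    (G : SimpleGraph V) (s T N : ℕ) (hNS : NS s G) (hT : 1 ≤ T) (hN : N * T * T ≤ s)
    (z : ℝ) (hz : gg p₀ N ≤ z) (hz1 : z ≤ 1) (μ : KK p₀)
    (E' : Submodule (KK p₀) (V → KK p₀)) (hE' : E' ≤ eig (adj (KK p₀) G) μ) (hne : E' ≠ ⊥) :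
    (orth E' : ℝ) ≤ 2 ^ Fintype.card V * z := by
  refine (orth_le' p₀ G s T N hNS hT hN μ E' hE').trans ?_
  refine mul_le_mul_of_nonneg_left ?_ (by positivity)
  have hf : 1 ≤ Module.finrank (KK p₀) E' :=
    Nat.one_le_iff_ne_zero.2 fun h => hne (Submodule.finrank_eq_zero.1 h)
  have he : min ((Module.finrank (KK p₀) E' + 1) / 2) T ≠ 0 := by omega
  have hg0 : 0 ≤ gg p₀ N := (gg_pos p₀ N (Nat.Prime.one_lt Fact.out).le).le
  exact (pow_le_of_le_one hg0 (hz.trans hz1) he).trans hz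

theorem card_not_ctl60 (p₀ : ℕ) [Fact p₀.Prime] {V : Type*} [Fintype V] [DecidableEq V]
    (G : SimpleGraph V) (s T N : ℕ) (hNS : NS s G) (hT : 1 ≤ T) (hN : N * T * T ≤ s)
    (z : ℝ) (hz0 : 0 < z) (hz : gg p₀ N ≤ z) (hz1 : z ≤ 1)
    (hmult : ∀ μ : KK p₀, mult (adj (KK p₀) G) μ ≤ 40) :
    (((Finset.univ : Finset (Fin 60 → V → Bool)).filter (fun b => ¬ CtlP p₀ G b)).card : ℝ) ≤
      2 ^ (Fintype.card V * 60) *
        (Fintype.card V * ((17 / 16) ^ 60 * 16 ^ 40 * z ^ 20)) := by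
  obtain ⟨S, hS, hmem⟩ := card_eigs (adj (KK p₀) G)
  have hsub : ((Finset.univ : Finset (Fin 60 → V → Bool)).filter
      (fun b => ¬ CtlP p₀ G b)) ⊆
      S.biUnion (fun μ => (Finset.univ : Finset (Fin 60 → V → Bool)).filter
        (fun b => ∃ x ∈ eig (adj (KK p₀) G) μ, x ≠ 0 ∧ ∀ i, bv (KK p₀) (b i) ⬝ᵥ x = 0)) := by
    intro b hb
    rw [Finset.mem_filter] at hb
    have h1 := hb.2
    unfold CtlP Ctl at h1
    push Not at h1
    obtain ⟨μ, x, hx, hort, hne⟩ := h1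
    rw [Finset.mem_biUnion]
    refine ⟨μ, hmem μ ?_, ?_⟩
    · intro hbot
      rw [hbot, Submodule.mem_bot] at hx
      exact hne hx
    · rw [Finset.mem_filter]
      exact ⟨Finset.mem_univ _, x, hx, hne, hort⟩
  have h2 := (Finset.card_le_card hsub).trans Finset.card_biUnion_le
  have hC : 0 ≤ (2 : ℝ) ^ (Fintype.card V * 60) * ((17 / 16) ^ 60 * 16 ^ 40 * z ^ 20) := by
    positivity
  calc (((Finset.univ : Finset (Fin 60 → V → Bool)).filter (fun b => ¬ CtlP p₀ G b)).card : ℝ)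
      ≤ ∑ μ ∈ S, (((Finset.univ : Finset (Fin 60 → V → Bool)).filter
        (fun b => ∃ x ∈ eig (adj (KK p₀) G) μ, x ≠ 0 ∧
          ∀ i, bv (KK p₀) (b i) ⬝ᵥ x = 0)).card : ℝ) := by exact_mod_cast h2
    _ ≤ ∑ μ ∈ S, (2 : ℝ) ^ (Fintype.card V * 60) * ((17 / 16) ^ 60 * 16 ^ 40 * z ^ 20) := by
        refine Finset.sum_le_sum fun μ _ => ?_
        exact kill2 60 40 (eig (adj (KK p₀) G) μ) (hmult μ) (by norm_num) z hz0 hz1
          fun E' hE' hne => stl_orth_le p₀ G s T N hNS hT hN z hz hz1 μ E' hE' hne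
    _ = (S.card : ℝ) * ((2 : ℝ) ^ (Fintype.card V * 60) *
          ((17 / 16) ^ 60 * 16 ^ 40 * z ^ 20)) := by rw [Finset.sum_const, nsmul_eq_mul]
    _ ≤ (Fintype.card V : ℝ) * ((2 : ℝ) ^ (Fintype.card V * 60) *
          ((17 / 16) ^ 60 * 16 ^ 40 * z ^ 20)) :=
        mul_le_mul_of_nonneg_right (by exact_mod_cast hS) hC
    _ = _ := by ring

theorem exists_ctl60 (p₀ : ℕ) [Fact p₀.Prime] {V : Type*} [Fintype V] [DecidableEq V]
    (G : SimpleGraph V) (s T N : ℕ) (hNS : NS s G) (hT : 1 ≤ T) (hN : N * T * T ≤ s)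
    (z : ℝ) (hz0 : 0 < z) (hz : gg p₀ N ≤ z) (hz1 : z ≤ 1)
    (hmult : ∀ μ : KK p₀, mult (adj (KK p₀) G) μ ≤ 40)
    (hnum : (Fintype.card V : ℝ) * ((17 / 16) ^ 60 * 16 ^ 40 * z ^ 20) < 1) :
    ∃ b₀ : Fin 60 → V → Bool, CtlP p₀ G b₀ := by
  by_contra hno
  push Not at hno
  have h1 := card_not_ctl60 p₀ G s T N hNS hT hN z hz0 hz hz1 hmult
  have h2 : ((Finset.univ : Finset (Fin 60 → V → Bool)).filter
      (fun b => ¬ CtlP p₀ G b)) = Finset.univ := by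
    rw [Finset.filter_eq_self]
    intro b _
    exact hno b
  rw [h2] at h1
  have h3 : (Finset.univ : Finset (Fin 60 → V → Bool)).card = 2 ^ (Fintype.card V * 60) := by
    rw [Finset.card_univ, Fintype.card_fun, Fintype.card_fun, Fintype.card_bool, Fintype.card_fin,
      ← pow_mul]
  rw [h3] at h1
  have h4 : (0 : ℝ) < 2 ^ (Fintype.card V * 60) := by positivity
  have h5 := mul_lt_mul_of_pos_left hnum h4
  rw [mul_one] at h5
  have h6 : (((2 ^ (Fintype.card V * 60) : ℕ)) : ℝ) = 2 ^ (Fintype.card V * 60) := by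
    push_cast; rfl
  rw [h6] at h1
  exact absurd h5 (not_lt.2 h1)

end Pool.Agent.H95.SQ
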