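import Pool.Agent.H95.SQ.NsB

/-!
# Job SQ-NsC: almost all graphs are non sparse, numerics

`card_not_ns`: `s = k / 400`, `a = 400`: the proportion is at most
`(400^s (1 + 1/400)^k)^2 (1 + s^2) 3^s (2/3)^((k - 2 s)/2)`.  With `s ≤ k / 400` the base 2 logarithm
divided by `k` is at most `2 (8.65 / 400 + 0.00361) + 1.59 / 400 - 0.58 * (0.995 / 2) + o(1) =
0.0505 + 0.004 - 0.288 + o(1) < -1/8`.  (For instance: `400^(k/400) ≤ 1.0151^k`, i.e.
`400 ≤ 1.0151^400`; `(1 + 1/400)^k`; `3^(k/400) ≤ 1.0028^k`; `(2/3)^((k - 2 s)/2) ≤ (3/2) (0.8187)^k`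
as `(k - 2s)/2 ≥ 0.4975 k - 1` and `(2/3)^0.4975 ≤ 0.8174`; the product of the bases is
`1.0151^2 * 1.0025^2 * 1.0028 * 0.8187 < 0.8504 < 0.9170 = 2^(-1/8)`, and
`(3/2) (1 + k^2) (0.8504 / 0.917)^k ≤ 1` for large `k`.)  Note `(1/2)^(k/8)` with natural division.
-/

set_option autoImplicit false

namespace Pool.Agent.H95.SQ

open Matrix Classical Pool.Agent.H66.SP

theorem card_not_ns : ∃ k₀ : ℕ, ∀ k : ℕ, k₀ ≤ k →
    (((Finset.univ : Finset (SimpleGraph (Fin k))).filter (fun G => ¬ NS (k / 400) G)).card : ℝ) ≤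
      (Fintype.card (SimpleGraph (Fin k)) : ℝ) * (1 / 2) ^ (k / 8) := by
  refine ⟨800, fun k hk => ?_⟩
  refine (card_not_ns_le k (k / 400) (by omega)).trans ?_
  refine mul_le_mul_of_nonneg_left ?_ (Nat.cast_nonneg _)
  have hs2 : 2 ≤ k / 400 := by omega
  have hk1 : k ≤ 400 * (k / 400) + 399 := by omega
  have hk2 : 400 * (k / 400) ≤ k := by omega
  generalize k / 400 = s at *
  have e1 : ((400 : ℝ) ^ s * (1 + 1 / 400) ^ k) ^ 2 ≤ 160000 ^ s * (8 ^ s * 8) := by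
    have a0 : ((1 : ℝ) + 1 / 400) ^ 100 ≤ 129 / 100 := by norm_num
    have a1 : ((1 : ℝ) + 1 / 400) ^ 800 ≤ 8 := by
      calc ((1 : ℝ) + 1 / 400) ^ 800 = ((1 + 1 / 400) ^ 100) ^ 8 := by rw [← pow_mul]
        _ ≤ (129 / 100) ^ 8 := pow_le_pow_left₀ (by positivity) a0 _
        _ ≤ 8 := by norm_num
    have a2 : ((1 : ℝ) + 1 / 400) ^ (k * 2) ≤ 8 ^ s * 8 := by
      calc ((1 : ℝ) + 1 / 400) ^ (k * 2) ≤ (1 + 1 / 400) ^ (800 * (s + 1)) :=
            pow_le_pow_right₀ (by norm_num) (by omega)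
        _ = ((1 + 1 / 400) ^ 800) ^ (s + 1) := by rw [pow_mul]
        _ ≤ 8 ^ (s + 1) := pow_le_pow_left₀ (by positivity) a1 _
        _ = 8 ^ s * 8 := pow_succ _ _
    have a3 : ((400 : ℝ) ^ s) ^ 2 = 160000 ^ s := by
      rw [← pow_mul, mul_comm s 2, pow_mul]
      norm_num
    rw [mul_pow, a3, ← pow_mul]
    exact mul_le_mul_of_nonneg_left a2 (by positivity)
  have e2 : ((2 : ℝ) / 3) ^ ((k - 2 * s) / 2) ≤ ((1 / 2) ^ 116) ^ s := by
    have b1 : ((2 : ℝ) / 3) ^ 199 ≤ (1 / 2) ^ 116 := by norm_num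
    calc ((2 : ℝ) / 3) ^ ((k - 2 * s) / 2) ≤ (2 / 3) ^ (199 * s) :=
          pow_le_pow_of_le_one (by norm_num) (by norm_num) (by omega)
      _ = ((2 / 3) ^ 199) ^ s := by rw [pow_mul]
      _ ≤ ((1 / 2) ^ 116) ^ s := pow_le_pow_left₀ (by positivity) b1 _
  have e3 : (1 : ℝ) + (s : ℝ) ^ 2 ≤ 4 ^ s := by
    have c1 : s + 1 ≤ 2 ^ s := Nat.lt_two_pow_self
    have c2 : (s : ℝ) + 1 ≤ 2 ^ s := by exact_mod_cast c1
    have c3 : (4 : ℝ) ^ s = (2 ^ s) ^ 2 := by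
      rw [← pow_mul, mul_comm s 2, pow_mul]
      norm_num
    have c4 : (0 : ℝ) ≤ s := Nat.cast_nonneg _
    rw [c3]
    nlinarith
  calc ((400 : ℝ) ^ s * (1 + 1 / 400) ^ k) ^ 2 *
        ((2 / 3) ^ ((k - 2 * s) / 2) * 3 ^ s * (1 + (s : ℝ) ^ 2))
      ≤ (160000 ^ s * (8 ^ s * 8)) * (((1 / 2) ^ 116) ^ s * 3 ^ s * 4 ^ s) := by
        refine mul_le_mul e1 ?_ (by positivity) (by positivity)
        refine mul_le_mul ?_ e3 (by positivity) (by positivity)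
        exact mul_le_mul_of_nonneg_right e2 (by positivity)
    _ = 8 * (160000 * 8 * (1 / 2) ^ 116 * 3 * 4) ^ s := by
        rw [mul_pow, mul_pow, mul_pow, mul_pow]
        ring
    _ ≤ 8 * ((1 / 2) ^ 92) ^ s := by
        refine mul_le_mul_of_nonneg_left (pow_le_pow_left₀ (by positivity) ?_ _) (by norm_num)
        norm_num
    _ = 8 * (1 / 2) ^ (92 * s) := by rw [pow_mul]
    _ ≤ 8 * (1 / 2) ^ (3 + (50 * s + 50)) := by
        refine mul_le_mul_of_nonneg_left (pow_le_pow_of_le_one (by norm_num) (by norm_num) ?_)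
          (by norm_num)
        omega
    _ = (1 / 2) ^ (50 * s + 50) := by
        rw [pow_add]
        ring
    _ ≤ (1 / 2) ^ (k / 8) := pow_le_pow_of_le_one (by norm_num) (by norm_num) (by omega)

end Pool.Agent.H95.SQ
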