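import Pool.Agent.H95.SQ.NumDefs

/-!
# Job SQ-NumC: numerics for the final step

Facts: `n < (qn n + 1)^4` and `qn n ^ 4 ≤ n` (`Nat.sqrt_le`, `Nat.lt_succ_sqrt`); so `zn n ^ 4 ≤ 16 / n`,
`zn n ^ 20 ≤ 16^5 / n^5`, `zn n ^ 40 ≤ 16^10 / n^10`, `zn n ^ 320 ≤ 16^80 / n^80`;
`(1/2)^(Tn n) ≤ (1/2)^100 / n^10` (`Nat.le_pow_clog`).
`numC`: `k z^20 ≤ 16^5 / n^4`.
`numE`: `n (17/16)^60 16^40 z^20 → 0`, `2 n^4 (17/16)^400 16^80 z^320 → 0`,
`(17/16)^400 16^30 * 13 * (1/2)^182 ≤ 2^35 * 2^120 * 13 / 2^182 < 0.001` (`(17/16)^400 ≤ 2^35`: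
`(17/16)^80 ≤ 2^7`), and `q n (0.505)^(370 T) ≤ n^2 (1/2)^T → 0` (`0.505^370 ≤ 1/2`).
All the statements are for `n ≥ n₀` with an unspecified `n₀`; one may use `Filter.eventually_atTop`.
-/

set_option autoImplicit false

namespace Pool.Agent.H95.SQ

open Matrix Classical Pool.Agent.H66.SP

theorem lt_qn_pow (n : ℕ) : n < (qn n + 1) ^ 4 := by
  unfold qn
  have h1 := Nat.lt_succ_sqrt n
  have h2 := Nat.lt_succ_sqrt (Nat.sqrt n)
  have h3 : Nat.sqrt n + 1 ≤ (Nat.sqrt (Nat.sqrt n) + 1) * (Nat.sqrt (Nat.sqrt n) + 1) := h2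
  have h4 := Nat.mul_le_mul h3 h3
  calc n < (Nat.sqrt n + 1) * (Nat.sqrt n + 1) := h1
    _ ≤ _ := h4
    _ = _ := by ring

theorem qn_le (n : ℕ) : qn n ≤ n := by
  unfold qn
  exact (Nat.sqrt_le_self _).trans (Nat.sqrt_le_self _)

theorem zn_nonneg (n : ℕ) : 0 ≤ zn n := by
  unfold zn
  positivity

theorem zn_pow4 (n : ℕ) (hn : 0 < n) : zn n ^ 4 ≤ 16 / n := by
  have h1 : (n : ℝ) < ((qn n : ℝ) + 1) ^ 4 := by exact_mod_cast lt_qn_pow n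
  have hn0 : (0 : ℝ) < n := by exact_mod_cast hn
  unfold zn
  rw [div_pow]
  norm_num
  exact div_le_div_of_nonneg_left (by norm_num) hn0 h1.le

theorem zn_pow20 (n : ℕ) (hn : 0 < n) : zn n ^ 20 ≤ 16 ^ 5 / (n : ℝ) ^ 5 := by
  have h := pow_le_pow_left₀ (pow_nonneg (zn_nonneg n) 4) (zn_pow4 n hn) 5
  rw [← pow_mul, div_pow] at h
  exact h

theorem zn_pow40 (n : ℕ) (hn : 0 < n) : zn n ^ 40 ≤ 16 ^ 10 / (n : ℝ) ^ 10 := by
  have h := pow_le_pow_left₀ (pow_nonneg (zn_nonneg n) 4) (zn_pow4 n hn) 10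
  rw [← pow_mul, div_pow] at h
  exact h

theorem zn_pow320 (n : ℕ) (hn : 0 < n) : zn n ^ 320 ≤ 16 ^ 80 / (n : ℝ) ^ 80 := by
  have h := pow_le_pow_left₀ (pow_nonneg (zn_nonneg n) 4) (zn_pow4 n hn) 80
  rw [← pow_mul, div_pow] at h
  exact h

theorem half_pow_Tn (n : ℕ) (hn : 0 < n) :
    (1 / 2 : ℝ) ^ (Tn n) ≤ (1 / 2) ^ 100 / (n : ℝ) ^ 10 := by
  unfold Tn
  have hn0 : (0 : ℝ) < n := by exact_mod_cast hn
  have h1 : (n : ℝ) ≤ 2 ^ Nat.clog 2 n := by exact_mod_cast Nat.le_pow_clog (by norm_num) n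
  have h2 : (n : ℝ) ^ 10 ≤ (2 ^ Nat.clog 2 n) ^ 10 := pow_le_pow_left₀ hn0.le h1 10
  rw [pow_add, mul_comm]
  rw [div_eq_mul_inv _ ((n : ℝ) ^ 10)]
  apply mul_le_mul_of_nonneg_left _ (by positivity)
  rw [mul_comm 10, pow_mul]
  rw [_root_.one_div_pow, _root_.one_div_pow, ← one_div]
  exact one_div_le_one_div_of_le (by positivity) h2

theorem c60 : ((17 / 16 : ℝ)) ^ 60 ≤ 2 ^ 6 := by norm_num

theorem c400 : ((17 / 16 : ℝ)) ^ 400 ≤ 2 ^ 35 := by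
  have h : ((17 / 16 : ℝ)) ^ 80 ≤ 2 ^ 7 := by norm_num
  have h2 := pow_le_pow_left₀ (by positivity) h 5
  rw [← pow_mul, ← pow_mul] at h2
  exact h2

/-- `n * (17/16)^60 * 16^40 * z^20` is small -/
theorem first_small (n : ℕ) (hn : 2 ^ 50 ≤ n) :
    (n : ℝ) * ((17 / 16) ^ 60 * 16 ^ 40 * zn n ^ 20) ≤ 1 / 1000 := by
  have hn1 : 0 < n := lt_of_lt_of_le (by norm_num) hn
  have hnR : (2 : ℝ) ^ 50 ≤ n := by exact_mod_cast hn
  have hn0 : (0 : ℝ) < n := by exact_mod_cast hn1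
  have h1 := zn_pow20 n hn1
  calc (n : ℝ) * ((17 / 16) ^ 60 * 16 ^ 40 * zn n ^ 20)
      ≤ (n : ℝ) * (2 ^ 6 * 16 ^ 40 * (16 ^ 5 / (n : ℝ) ^ 5)) := by
        apply mul_le_mul_of_nonneg_left _ hn0.le
        apply mul_le_mul _ h1 (pow_nonneg (zn_nonneg n) 20) (by positivity)
        exact mul_le_mul_of_nonneg_right c60 (by positivity)
    _ = 2 ^ 186 / (n : ℝ) ^ 4 := by
        field_simp
        norm_num
    _ ≤ 2 ^ 186 / ((2 : ℝ) ^ 50) ^ 4 := by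
        apply div_le_div_of_nonneg_left (by positivity) (by positivity)
        exact pow_le_pow_left₀ (by positivity) hnR 4
    _ ≤ 1 / 1000 := by norm_num

theorem numC : ∃ n₀ : ℕ, ∀ n : ℕ, n₀ ≤ n → ∀ k ≤ n,
    (k : ℝ) * ((17 / 16) ^ 60 * 16 ^ 40 * zn n ^ 20) < 1 := by
  refine ⟨2 ^ 50, ?_⟩
  intro n hn k hk
  have h := first_small n hn
  have hkR : (k : ℝ) ≤ n := by exact_mod_cast hk
  have h0 : (0 : ℝ) ≤ (17 / 16) ^ 60 * 16 ^ 40 * zn n ^ 20 := by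
    have := pow_nonneg (zn_nonneg n) 20
    positivity
  have h2 := mul_le_mul_of_nonneg_right hkR h0
  linarith

theorem numE : ∃ n₀ : ℕ, ∀ n : ℕ, n₀ ≤ n →
    ((n : ℝ) * ((17 / 16) ^ 60 * 16 ^ 40 * zn n ^ 20) +
      2 * (n : ℝ) ^ 4 * ((17 / 16) ^ 400 * 16 ^ 80 * zn n ^ 320) +
      (17 / 16) ^ 400 * 16 ^ 30 *
        (qn n * n * (0.505 : ℝ) ^ (370 * Tn n) + 13 * (1 / 2) ^ 182)) ≤ 1 / 4 := by
  refine ⟨2 ^ 50, ?_⟩
  intro n hn
  have hn1 : 0 < n := lt_of_lt_of_le (by norm_num) hn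
  have hnR : (2 : ℝ) ^ 50 ≤ n := by exact_mod_cast hn
  have hn0 : (0 : ℝ) < n := by exact_mod_cast hn1
  have h1 := first_small n hn
  have h2 : 2 * (n : ℝ) ^ 4 * ((17 / 16) ^ 400 * 16 ^ 80 * zn n ^ 320) ≤ 1 / 1000 := by
    have hz := zn_pow320 n hn1
    calc 2 * (n : ℝ) ^ 4 * ((17 / 16) ^ 400 * 16 ^ 80 * zn n ^ 320)
        ≤ 2 * (n : ℝ) ^ 4 * (2 ^ 35 * 16 ^ 80 * (16 ^ 80 / (n : ℝ) ^ 80)) := by
          apply mul_le_mul_of_nonneg_left _ (by positivity)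
          apply mul_le_mul _ hz (pow_nonneg (zn_nonneg n) 320) (by positivity)
          exact mul_le_mul_of_nonneg_right c400 (by positivity)
      _ = 2 ^ 676 / (n : ℝ) ^ 76 := by
          rw [show (n : ℝ) ^ 80 = (n : ℝ) ^ 4 * (n : ℝ) ^ 76 by ring]
          rw [show (16 : ℝ) ^ 80 = 2 ^ 320 by rw [show (16 : ℝ) = 2 ^ 4 by norm_num, ← pow_mul]]
          rw [show (2 : ℝ) ^ 676 = 2 * 2 ^ 35 * 2 ^ 320 * 2 ^ 320 by
            rw [← pow_succ', ← pow_add, ← pow_add]]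
          field_simp
      _ ≤ 2 ^ 676 / ((2 : ℝ) ^ 50) ^ 76 := by
          apply div_le_div_of_nonneg_left (by positivity) (by positivity)
          exact pow_le_pow_left₀ (by positivity) hnR 76
      _ ≤ 1 / 1000 := by
          rw [← pow_mul, div_le_iff₀ (by positivity)]
          rw [show (50 * 76 : ℕ) = 676 + (3114 + 10) by norm_num, pow_add, pow_add]
          have h4 : (1 : ℝ) ≤ 2 ^ 3114 := one_le_pow₀ (by norm_num)
          have h5 : (0 : ℝ) < 2 ^ 676 := by positivity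
          generalize (2 : ℝ) ^ 3114 = x at h4 ⊢
          generalize (2 : ℝ) ^ 676 = y at h5 ⊢
          have h6 := mul_le_mul_of_nonneg_left h4 h5.le
          nlinarith
  have h3 : (17 / 16) ^ 400 * 16 ^ 30 *
        (qn n * n * (0.505 : ℝ) ^ (370 * Tn n) + 13 * (1 / 2) ^ 182) ≤ 1 / 1000 := by
    have hq : (qn n : ℝ) ≤ n := by exact_mod_cast qn_le n
    have hT := half_pow_Tn n hn1
    have hT2 : (1 / 2 : ℝ) ^ (Tn n) ≤ (1 / 2) ^ 100 / (n : ℝ) ^ 2 := by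
      refine hT.trans ?_
      apply div_le_div_of_nonneg_left (by positivity) (by positivity)
      apply pow_le_pow_right₀ _ (by norm_num)
      have : (1 : ℝ) ≤ 2 ^ 50 := by norm_num
      linarith
    have hT3 : (1 / 2 : ℝ) ^ (Tn n) ≤ (1 / 2) ^ 100 := by
      apply pow_le_pow_of_le_one (by norm_num) (by norm_num)
      unfold Tn
      omega
    have h505 : (0.505 : ℝ) ^ (370 * Tn n) ≤ ((1 / 2) ^ Tn n) ^ 2 := by
      rw [pow_mul, ← pow_mul (1 / 2 : ℝ) (Tn n) 2, mul_comm (Tn n) 2, pow_mul (1 / 2 : ℝ) 2 (Tn n)]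
      apply pow_le_pow_left₀ (by positivity)
      have h6 : (0.505 : ℝ) ^ 2 ≤ 1 / 2 := by norm_num
      calc (0.505 : ℝ) ^ 370 ≤ (0.505 : ℝ) ^ 4 :=
            pow_le_pow_of_le_one (by norm_num) (by norm_num) (by norm_num)
        _ ≤ (1 / 2) ^ 2 := by norm_num
    have h7 : ((1 / 2 : ℝ) ^ Tn n) ^ 2 ≤ (1 / 2) ^ 200 / (n : ℝ) ^ 2 := by
      rw [sq]
      calc (1 / 2 : ℝ) ^ Tn n * (1 / 2 : ℝ) ^ Tn n
          ≤ (1 / 2) ^ 100 * ((1 / 2) ^ 100 / (n : ℝ) ^ 2) :=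
            mul_le_mul hT3 hT2 (by positivity) (by positivity)
        _ = (1 / 2) ^ 200 / (n : ℝ) ^ 2 := by
            rw [← mul_div_assoc, ← pow_add]
    have h8 : (qn n : ℝ) * n * (0.505 : ℝ) ^ (370 * Tn n) ≤ (1 / 2) ^ 200 := by
      calc (qn n : ℝ) * n * (0.505 : ℝ) ^ (370 * Tn n)
          ≤ (n * n) * ((1 / 2) ^ 200 / (n : ℝ) ^ 2) := by
            apply mul_le_mul _ (h505.trans h7) (by positivity) (by positivity)
            exact mul_le_mul_of_nonneg_right hq hn0.le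
        _ = (1 / 2) ^ 200 := by
            field_simp
    have h9 : (0 : ℝ) ≤ qn n * n * (0.505 : ℝ) ^ (370 * Tn n) + 13 * (1 / 2) ^ 182 := by
      positivity
    calc (17 / 16) ^ 400 * 16 ^ 30 *
        (qn n * n * (0.505 : ℝ) ^ (370 * Tn n) + 13 * (1 / 2) ^ 182)
        ≤ 2 ^ 35 * 16 ^ 30 * ((1 / 2) ^ 200 + 13 * (1 / 2) ^ 182) := by
          apply mul_le_mul _ _ h9 (by positivity)
          · exact mul_le_mul_of_nonneg_right c400 (by positivity)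
          · linarith
      _ ≤ 1 / 1000 := by norm_num
  exact (add_le_add (add_le_add h1 h2) h3).trans (by norm_num)

end Pool.Agent.H95.SQ
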