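import Pool.Agent.H95.SQ.NumDefs
import Pool.Agent.H95.SQ.NumC

/-!
# Job SQ-NumD: numerics for the induction

Facts: `n < (qn n + 1)^4` and `qn n ^ 4 ≤ n` (`Nat.sqrt_le`, `Nat.lt_succ_sqrt`); so `zn n ^ 4 ≤ 16 / n`,
`zn n ^ 20 ≤ 16^5 / n^5`, `zn n ^ 40 ≤ 16^10 / n^10`, `zn n ^ 320 ≤ 16^80 / n^80`;
`(1/2)^(Tn n) ≤ (1/2)^100 / n^10` (`Nat.le_pow_clog`).
`numD`: `∑_{k < n} (k z^20 + 2 k^4 z^40 + 3 k q (1/2)^T) ≤ n (16^5/n^4 + 2 * 16^10/n^6 + 3/n^8)`, tends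
to `0`; `∑_{k < n} 48 (1/2)^((30 + (n-1-k))/2) ≤ 48 * 2^(-15) * ∑_{h ≥ 0} (1/2)^(h/2) = 48 * 2^(-15) * 4
< 0.006` (natural division `h/2`, every value occurs twice; `(30 + h)/2 = 15 + h/2`);
`∑_{k ≥ n/4} (1/2)^(k/8) ≤ (n + 1) (1/2)^((n/4)/8)`, tends to `0`.
All the statements are for `n ≥ n₀` with an unspecified `n₀`; one may use `Filter.eventually_atTop`.
-/

set_option autoImplicit false

namespace Pool.Agent.H95.SQ

open Matrix Classical Pool.Agent.H66.SP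

theorem sum_half_div (n : ℕ) :
    ∑ h ∈ Finset.range (2 * n), (1 / 2 : ℝ) ^ (h / 2) = 4 - 4 * (1 / 2) ^ n := by
  induction n with
  | zero => simp
  | succ n ih =>
    rw [show 2 * (n + 1) = 2 * n + 1 + 1 by ring, Finset.sum_range_succ, Finset.sum_range_succ, ih]
    rw [show (2 * n + 1) / 2 = n by omega, show 2 * n / 2 = n by omega, pow_succ]
    ring

theorem sum_half_div_le (n : ℕ) : ∑ h ∈ Finset.range n, (1 / 2 : ℝ) ^ (h / 2) ≤ 4 := by
  have h1 : ∑ h ∈ Finset.range n, (1 / 2 : ℝ) ^ (h / 2) ≤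
      ∑ h ∈ Finset.range (2 * n), (1 / 2 : ℝ) ^ (h / 2) := by
    apply Finset.sum_le_sum_of_subset_of_nonneg
    · apply Finset.range_mono
      show n ≤ 2 * n
      omega
    · intro i _ _
      positivity
  rw [sum_half_div] at h1
  have h2 : (0 : ℝ) ≤ (1 / 2) ^ n := by positivity
  linarith

/-- the first three terms of `del` for `k ≤ n` -/
theorem del_first (n : ℕ) (hn : 2 ^ 50 ≤ n) (k : ℕ) (hk : k ≤ n) :
    (k : ℝ) * zn n ^ 20 + 2 * (k : ℝ) ^ 4 * zn n ^ 40 + 3 * k * qn n * (1 / 2) ^ Tn n ≤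
      1 / 1000 * (1 / n) := by
  have hn1 : 0 < n := lt_of_lt_of_le (by norm_num) hn
  have hnR : (2 : ℝ) ^ 50 ≤ n := by exact_mod_cast hn
  have hn0 : (0 : ℝ) < n := by exact_mod_cast hn1
  have hkR : (k : ℝ) ≤ n := by exact_mod_cast hk
  have hk0 : (0 : ℝ) ≤ k := Nat.cast_nonneg k
  have hq : (qn n : ℝ) ≤ n := by exact_mod_cast qn_le n
  have h1 : (k : ℝ) * zn n ^ 20 ≤ 1 / 4000 * (1 / n) := by
    calc (k : ℝ) * zn n ^ 20 ≤ n * (16 ^ 5 / (n : ℝ) ^ 5) :=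
          mul_le_mul hkR (zn_pow20 n hn1) (pow_nonneg (zn_nonneg n) 20) hn0.le
      _ = 16 ^ 5 / (n : ℝ) ^ 3 * (1 / n) := by field_simp
      _ ≤ 1 / 4000 * (1 / n) := by
          apply mul_le_mul_of_nonneg_right _ (by positivity)
          calc (16 : ℝ) ^ 5 / (n : ℝ) ^ 3 ≤ 16 ^ 5 / ((2 : ℝ) ^ 50) ^ 3 := by
                apply div_le_div_of_nonneg_left (by positivity) (by positivity)
                exact pow_le_pow_left₀ (by positivity) hnR 3
            _ ≤ 1 / 4000 := by norm_num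
  have h2 : 2 * (k : ℝ) ^ 4 * zn n ^ 40 ≤ 1 / 4000 * (1 / n) := by
    calc 2 * (k : ℝ) ^ 4 * zn n ^ 40 ≤ 2 * (n : ℝ) ^ 4 * (16 ^ 10 / (n : ℝ) ^ 10) := by
          apply mul_le_mul _ (zn_pow40 n hn1) (pow_nonneg (zn_nonneg n) 40) (by positivity)
          exact mul_le_mul_of_nonneg_left (pow_le_pow_left₀ hk0 hkR 4) (by norm_num)
      _ = 2 * 16 ^ 10 / (n : ℝ) ^ 5 * (1 / n) := by field_simp
      _ ≤ 1 / 4000 * (1 / n) := by
          apply mul_le_mul_of_nonneg_right _ (by positivity)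
          calc 2 * (16 : ℝ) ^ 10 / (n : ℝ) ^ 5 ≤ 2 * 16 ^ 10 / ((2 : ℝ) ^ 50) ^ 5 := by
                apply div_le_div_of_nonneg_left (by positivity) (by positivity)
                exact pow_le_pow_left₀ (by positivity) hnR 5
            _ ≤ 1 / 4000 := by norm_num
  have h3 : 3 * k * qn n * (1 / 2 : ℝ) ^ Tn n ≤ 1 / 4000 * (1 / n) := by
    calc 3 * k * qn n * (1 / 2 : ℝ) ^ Tn n
        ≤ 3 * n * n * ((1 / 2) ^ 100 / (n : ℝ) ^ 10) := by
          apply mul_le_mul _ (half_pow_Tn n hn1) (by positivity) (by positivity)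
          apply mul_le_mul _ hq (Nat.cast_nonneg _) (by positivity)
          linarith
      _ = 3 * (1 / 2) ^ 100 / (n : ℝ) ^ 7 * (1 / n) := by field_simp
      _ ≤ 1 / 4000 * (1 / n) := by
          apply mul_le_mul_of_nonneg_right _ (by positivity)
          calc 3 * (1 / 2 : ℝ) ^ 100 / (n : ℝ) ^ 7 ≤ 3 * (1 / 2) ^ 100 / ((2 : ℝ) ^ 50) ^ 7 := by
                apply div_le_div_of_nonneg_left (by positivity) (by positivity)
                exact pow_le_pow_left₀ (by positivity) hnR 7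
            _ ≤ 1 / 4000 := by norm_num
  have h4 : (0 : ℝ) ≤ 1 / n := by positivity
  linarith

/-- `(n + 1) (1/2)^(n/32)` is small -/
theorem last_small (n : ℕ) (hn : 2 ^ 50 ≤ n) :
    ((n : ℝ) + 1) * (1 / 2) ^ (n / 4 / 8) ≤ 1 / 100 := by
  have hnR : (2 : ℝ) ^ 50 ≤ n := by exact_mod_cast hn
  have h1 : n / 4 / 8 = n / 32 := by omega
  set m := n / 64 with hm
  have h2 : m * 2 ≤ n / 32 := by omega
  have h3 : n ≤ 64 * m + 63 := by omega
  have h4 : (m : ℝ) ≤ 2 ^ m := by exact_mod_cast (Nat.lt_two_pow_self (n := m)).le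
  have h5 : (n : ℝ) ≤ 64 * m + 63 := by exact_mod_cast h3
  have h6 : (1 / 2 : ℝ) ^ (n / 4 / 8) ≤ ((1 / 2) ^ m) ^ 2 := by
    rw [h1, ← pow_mul]
    exact pow_le_pow_of_le_one (by norm_num) (by norm_num) h2
  have h7 : (2 : ℝ) ^ 40 ≤ m := by
    norm_num at hnR ⊢
    linarith
  have hm0 : (0 : ℝ) < m := by
    have : (0 : ℝ) < 2 ^ 40 := by positivity
    linarith
  have h8 : (1 / 2 : ℝ) ^ m ≤ 1 / m := by
    rw [_root_.one_div_pow]
    exact one_div_le_one_div_of_le hm0 h4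
  have h9 : ((1 / 2 : ℝ) ^ m) ^ 2 ≤ (1 / m) ^ 2 := pow_le_pow_left₀ (by positivity) h8 2
  calc ((n : ℝ) + 1) * (1 / 2) ^ (n / 4 / 8) ≤ (64 * m + 64) * (1 / m) ^ 2 := by
        apply mul_le_mul _ (h6.trans h9) (by positivity) (by positivity)
        linarith
    _ ≤ (128 * m) * (1 / m) ^ 2 := by
        apply mul_le_mul_of_nonneg_right _ (by positivity)
        norm_num at h7
        linarith
    _ = 128 / m := by field_simp
    _ ≤ 1 / 100 := by
        rw [div_le_iff₀ hm0]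
        norm_num at h7
        linarith

theorem numD : ∃ n₀ : ℕ, ∀ n : ℕ, n₀ ≤ n →
    (∑ i ∈ Finset.Ico (n / 4) n, del n (qn n) (Tn n) i (zn n) +
      ∑ i ∈ Finset.Icc (n / 4) n, (1 / 2 : ℝ) ^ (i / 8)) ≤ 1 / 4 := by
  refine ⟨2 ^ 50, ?_⟩
  intro n hn
  have hn1 : 0 < n := lt_of_lt_of_le (by norm_num) hn
  have hnR : (2 : ℝ) ^ 50 ≤ n := by exact_mod_cast hn
  have hn0 : (0 : ℝ) < n := by exact_mod_cast hn1
  have hz := zn_nonneg n
  have hA : ∑ i ∈ Finset.Ico (n / 4) n, del n (qn n) (Tn n) i (zn n) ≤ 1 / 100 := by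
    have h1 : ∑ i ∈ Finset.Ico (n / 4) n, del n (qn n) (Tn n) i (zn n) ≤
        ∑ i ∈ Finset.range n, (1 / 1000 * (1 / (n : ℝ)) +
          48 * (1 / 2 : ℝ) ^ ((30 + (n - 1 - i)) / 2)) := by
      refine le_trans (Finset.sum_le_sum (g := fun i => (1 / 1000 * (1 / (n : ℝ)) +
          48 * (1 / 2 : ℝ) ^ ((30 + (n - 1 - i)) / 2))) ?_) ?_
      · intro i hi
        rw [Finset.mem_Ico] at hi
        unfold del
        have := del_first n hn i hi.2.le
        linarith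
      · apply Finset.sum_le_sum_of_subset_of_nonneg
        · intro i hi
          rw [Finset.mem_Ico] at hi
          exact Finset.mem_range.2 hi.2
        · intro i _ _
          positivity
    refine h1.trans ?_
    rw [Finset.sum_add_distrib, Finset.sum_const, Finset.card_range, nsmul_eq_mul]
    have h2 : ∑ i ∈ Finset.range n, 48 * (1 / 2 : ℝ) ^ ((30 + (n - 1 - i)) / 2) =
        ∑ i ∈ Finset.range n, 48 * (1 / 2 : ℝ) ^ ((30 + i) / 2) :=
      Finset.sum_range_reflect (fun i => 48 * (1 / 2 : ℝ) ^ ((30 + i) / 2)) n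
    rw [h2]
    have h3 : ∑ i ∈ Finset.range n, 48 * (1 / 2 : ℝ) ^ ((30 + i) / 2) =
        48 * (1 / 2) ^ 15 * ∑ i ∈ Finset.range n, (1 / 2 : ℝ) ^ (i / 2) := by
      rw [Finset.mul_sum]
      refine Finset.sum_congr rfl fun i _ => ?_
      rw [show (30 + i) / 2 = 15 + i / 2 by omega, pow_add]
      ring
    rw [h3]
    have h4 := sum_half_div_le n
    have h5 : (n : ℝ) * (1 / 1000 * (1 / (n : ℝ))) = 1 / 1000 := by field_simp
    rw [h5]
    have h6 : 48 * (1 / 2) ^ 15 * ∑ i ∈ Finset.range n, (1 / 2 : ℝ) ^ (i / 2) ≤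
        48 * (1 / 2) ^ 15 * 4 := mul_le_mul_of_nonneg_left h4 (by positivity)
    refine (add_le_add le_rfl h6).trans ?_
    norm_num
  have hB : ∑ i ∈ Finset.Icc (n / 4) n, (1 / 2 : ℝ) ^ (i / 8) ≤ 1 / 100 := by
    have h1 : ∑ i ∈ Finset.Icc (n / 4) n, (1 / 2 : ℝ) ^ (i / 8) ≤
        ∑ i ∈ Finset.Icc (n / 4) n, (1 / 2 : ℝ) ^ (n / 4 / 8) := by
      apply Finset.sum_le_sum
      intro i hi
      rw [Finset.mem_Icc] at hi
      apply pow_le_pow_of_le_one (by norm_num) (by norm_num)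
      exact Nat.div_le_div_right hi.1
    refine h1.trans ?_
    rw [Finset.sum_const, nsmul_eq_mul, Nat.card_Icc]
    refine le_trans (mul_le_mul_of_nonneg_right ?_ (by positivity)) (last_small n hn)
    have : n + 1 - n / 4 ≤ n + 1 := Nat.sub_le _ _
    exact_mod_cast this
  refine (add_le_add hA hB).trans ?_
  norm_num

end Pool.Agent.H95.SQ
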