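import Pool.Agent.H95.SQ.Par

/-!
# The parameters as functions of `n`
-/

set_option autoImplicit false

namespace Pool.Agent.H95.SQ

open Matrix Classical Pool.Agent.H66.SP

def qn (n : ℕ) : ℕ := Nat.sqrt (Nat.sqrt n)

noncomputable def zn (n : ℕ) : ℝ := 2 / ((qn n : ℝ) + 1)

def Tn (n : ℕ) : ℕ := 10 * Nat.clog 2 n + 100

def Mn (n : ℕ) : ℕ := ((n / 4) / 400) / 1600

def Ln (n : ℕ) : ℕ := ((n / 4) / 400) / (Tn n * Tn n)

end Pool.Agent.H95.SQ
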