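import Pool.Agent.H95.SQ.Gb2
import Pool.Agent.H95.SQ.NumDefs

/-!
# Job SQ-NumL: numerics for large characteristics

`numL`: `gg p N ≤ 1/p + 3/√N` (`gg_le`), `p ≥ qn n + 1`, and `3/√(Mn n) ≤ 1/(qn n + 1)` for large `n`
since `(qn n + 1)^2 ≤ 4 √n` and `Mn n ≥ n / 2560000 - 2 ≥ 36 √n`.
All the statements are for `n ≥ n₀` with an unspecified `n₀`; one may use `Filter.eventually_atTop`.
-/

set_option autoImplicit false

namespace Pool.Agent.H95.SQ

open Matrix Classical Pool.Agent.H66.SP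

theorem numL : ∃ n₀ : ℕ, ∀ n : ℕ, n₀ ≤ n → 0 < zn n ∧ zn n ≤ 1 ∧
    ∀ p : ℕ, p.Prime → qn n < p → gg p (Mn n) ≤ zn n := by
  refine ⟨10 ^ 16, fun n hn => ?_⟩
  have hq4 : qn n * qn n * (qn n * qn n) ≤ n := by
    have h1 : qn n * qn n ≤ Nat.sqrt n := Nat.sqrt_le (Nat.sqrt n)
    exact (Nat.mul_le_mul h1 h1).trans (Nat.sqrt_le n)
  have hq1 : 1 ≤ qn n := by
    unfold qn
    rw [Nat.le_sqrt, Nat.le_sqrt]
    omega
  have ht2 : ((qn n + 1) * (qn n + 1)) * ((qn n + 1) * (qn n + 1)) ≤ 16 * n := by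
    have h1 : (qn n + 1) * (qn n + 1) ≤ 4 * (qn n * qn n) := by nlinarith
    calc ((qn n + 1) * (qn n + 1)) * ((qn n + 1) * (qn n + 1))
        ≤ (4 * (qn n * qn n)) * (4 * (qn n * qn n)) := Nat.mul_le_mul h1 h1
      _ = 16 * (qn n * qn n * (qn n * qn n)) := by ring
      _ ≤ 16 * n := Nat.mul_le_mul_left _ hq4
  have hM : 9 * ((qn n + 1) * (qn n + 1)) ≤ Mn n := by
    unfold Mn
    rw [Nat.div_div_eq_div_mul, Nat.div_div_eq_div_mul, Nat.le_div_iff_mul_le (by norm_num)]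
    generalize (qn n + 1) * (qn n + 1) = t at ht2
    rcases Nat.lt_or_ge t 368640000 with h | h
    · norm_num at hn ⊢
      omega
    · have h2 : 368640000 * t ≤ 16 * n := (Nat.mul_le_mul_right t h).trans ht2
      omega
  have hqR : (1 : ℝ) ≤ (qn n : ℝ) := by exact_mod_cast hq1
  have hzdef : zn n = 1 / ((qn n : ℝ) + 1) + 1 / ((qn n : ℝ) + 1) := by
    unfold zn
    ring
  refine ⟨by unfold zn; positivity, ?_, ?_⟩
  · unfold zn
    rw [div_le_one (by positivity)]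
    linarith
  · intro p hp hqp
    have hM1 : 1 ≤ Mn n := le_trans (by nlinarith) hM
    refine (gg_le p (Mn n) hp.one_lt.le hM1).trans ?_
    rw [hzdef]
    have hMR : (0 : ℝ) < (Mn n : ℝ) := by exact_mod_cast hM1
    have hs : 0 < Real.sqrt (Mn n) := Real.sqrt_pos.2 hMR
    have hpR : (qn n : ℝ) + 1 ≤ p := by exact_mod_cast hqp
    refine add_le_add ?_ ?_
    · exact one_div_le_one_div_of_le (by positivity) hpR
    · rw [div_le_div_iff₀ hs (by positivity)]
      have h3 : 3 * ((qn n : ℝ) + 1) ≤ Real.sqrt (Mn n) := by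
        apply Real.le_sqrt_of_sq_le
        have : (9 : ℝ) * (((qn n : ℝ) + 1) * ((qn n : ℝ) + 1)) ≤ Mn n := by exact_mod_cast hM
        nlinarith
      linarith

end Pool.Agent.H95.SQ
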