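import Pool.Agent.H95.SQ.Gb
import Pool.Agent.H95.SQ.NumDefs

/-!
# Job SQ-NumS: numerics for small characteristics

`numS`: `gg_le_small`: `gg p N ≤ (1/p)(1 + p exp (-2N/p^2))`; for `2 ≤ p ≤ qn n`, `p^2 ≤ √n`,
`N = Ln n ≥ n / (1600 (Tn n)^2) - 2`, so `2 N / p^2 ≥ √n / (1000 (Tn n)^2) - 4`, and
`p exp (-2N/p^2) ≤ 1 / Tn n` for large `n` (`Tn n` is logarithmic in `n`: `√n / (1000 (Tn n)^2)` grows
faster than `log n`).
All the statements are for `n ≥ n₀` with an unspecified `n₀`; one may use `Filter.eventually_atTop`.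
-/

set_option autoImplicit false

namespace Pool.Agent.H95.SQ

open Matrix Classical Pool.Agent.H66.SP

theorem numS_Tn (n : ℕ) (y : ℝ) (hy : y = Real.sqrt n) (hl : 1 ≤ Real.log y) (hn : 2 ≤ n) :
    (Tn n : ℝ) ≤ 140 * Real.log y := by
  have hlog : Real.log n = 2 * Real.log y := by
    rw [hy, Real.log_sqrt (Nat.cast_nonneg n)]
    ring
  have h1 : 2 ^ (Nat.clog 2 n).pred < n := Nat.pow_pred_clog_lt_self (by norm_num) (by omega)
  have h2 : ((2 : ℝ)) ^ (Nat.clog 2 n).pred < n := by exact_mod_cast h1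
  have h3 := Real.log_lt_log (by positivity) h2
  rw [Real.log_pow, hlog] at h3
  have h4 : (0.69 : ℝ) < Real.log 2 := by
    have := Real.log_two_gt_d9
    linarith
  have h5 : (0.69 : ℝ) * ((Nat.clog 2 n).pred : ℕ) ≤ 2 * Real.log y := by
    have h6 : (0 : ℝ) ≤ ((Nat.clog 2 n).pred : ℕ) := Nat.cast_nonneg _
    have h7 := mul_le_mul_of_nonneg_left h4.le h6
    linarith
  have h8 : Tn n ≤ 10 * ((Nat.clog 2 n).pred + 1) + 100 := by
    unfold Tn
    have : Nat.clog 2 n ≤ (Nat.clog 2 n).pred + 1 := by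
      rw [Nat.pred_eq_sub_one]
      omega
    omega
  have h9 : (Tn n : ℝ) ≤ 10 * (((Nat.clog 2 n).pred : ℕ) + 1) + 100 := by exact_mod_cast h8
  linarith

theorem numS : ∃ n₀ : ℕ, ∀ n : ℕ, n₀ ≤ n →
    ∀ p : ℕ, p.Prime → p ≤ qn n → gg p (Ln n) ≤ (1 / (p : ℝ)) * (1 + 1 / (Tn n : ℕ)) := by
  have h1 : ∀ᶠ y : ℝ in Filter.atTop, (Real.log y) ^ 3 ≤ (1 / 10 ^ 9) * y ∧ Real.exp 1 ≤ y := by
    have h2 := (Real.isLittleO_pow_log_id_atTop (n := 3)).bound
      (show (0 : ℝ) < 1 / 10 ^ 9 by norm_num)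
    filter_upwards [h2, Filter.eventually_ge_atTop (Real.exp 1)] with y hy hy1
    refine ⟨?_, hy1⟩
    have hy0 : 0 ≤ y := (Real.exp_pos 1).le.trans hy1
    rw [Real.norm_eq_abs, id, Real.norm_eq_abs, abs_of_nonneg hy0] at hy
    exact (le_abs_self _).trans hy
  have h2 : Filter.Tendsto (fun n : ℕ => Real.sqrt n) Filter.atTop Filter.atTop :=
    Real.tendsto_sqrt_atTop.comp tendsto_natCast_atTop_atTop
  obtain ⟨n₀, hn₀⟩ := Filter.eventually_atTop.1 (h2.eventually h1)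
  refine ⟨n₀ + 2, fun n hn p hp hpq => ?_⟩
  obtain ⟨hy3, hy1⟩ := hn₀ n (by omega)
  obtain ⟨y, hy⟩ : ∃ y, y = Real.sqrt n := ⟨_, rfl⟩
  rw [← hy] at hy3 hy1
  have hexp1 : (1 : ℝ) ≤ Real.exp 1 := Real.one_le_exp (by norm_num)
  have hy1' : 1 ≤ y := hexp1.trans hy1
  have hy0 : 0 < y := by linarith
  obtain ⟨l, hl⟩ : ∃ l, l = Real.log y := ⟨_, rfl⟩
  have hl1 : 1 ≤ l := by
    rw [hl, Real.le_log_iff_exp_le hy0]
    exact hy1
  have hysq : y ^ 2 = n := by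
    rw [hy]
    exact Real.sq_sqrt (Nat.cast_nonneg n)
  have hT := numS_Tn n y hy (by rw [← hl]; exact hl1) (by omega)
  rw [← hl] at hT hy3
  obtain ⟨T, hTdef⟩ : ∃ T, T = Tn n := ⟨_, rfl⟩
  rw [← hTdef] at hT
  have hT100 : 100 ≤ T := by
    rw [hTdef]
    unfold Tn
    omega
  have hT0 : (0 : ℝ) < T := by
    have : (100 : ℝ) ≤ T := by exact_mod_cast hT100
    linarith
  -- lower bound for N
  obtain ⟨N, hN⟩ : ∃ N, N = Ln n := ⟨_, rfl⟩
  have hN1 : n < (N + 1) * (1600 * (T * T)) := by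
    have h3 : N = n / (1600 * (T * T)) := by
      have h9 : ∀ m : ℕ, 4 * (400 * m) = 1600 * m := fun m => by omega
      rw [hN, hTdef]
      unfold Ln
      rw [Nat.div_div_eq_div_mul, Nat.div_div_eq_div_mul, h9]
    have h4 : 0 < 1600 * (T * T) := by positivity
    rw [h3]
    have h5 := Nat.lt_mul_div_succ n h4
    rw [Nat.mul_comm]
    exact h5
  have hN2 : y ^ 2 ≤ ((N : ℝ) + 1) * (1600 * (T * T)) := by
    rw [hysq]
    exact_mod_cast hN1.le
  have hTT : (T : ℝ) * T ≤ 19600 * l ^ 2 := by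
    have h3 : (T : ℝ) * T ≤ (140 * l) * (140 * l) :=
      mul_le_mul hT hT hT0.le (by positivity)
    linarith [h3, show (140 * l) * (140 * l) = 19600 * l ^ 2 by ring]
  have hN0 : (0 : ℝ) ≤ (N : ℝ) := Nat.cast_nonneg _
  have hN3 : y ^ 2 ≤ ((N : ℝ) + 1) * (31360000 * l ^ 2) := by
    refine hN2.trans (mul_le_mul_of_nonneg_left ?_ (by linarith))
    linarith
  have hN4 : 31 * (l * y) ≤ (N : ℝ) + 1 := by
    by_contra hcon
    push Not at hcon
    have h3 : ((N : ℝ) + 1) * (31360000 * l ^ 2) < 31 * (l * y) * (31360000 * l ^ 2) :=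
      mul_lt_mul_of_pos_right hcon (by positivity)
    have h4 : 31 * (l * y) * (31360000 * l ^ 2) = 972160000 * (l ^ 3 * y) := by ring
    have h5 : l ^ 3 * y ≤ (1 / 10 ^ 9) * y * y := mul_le_mul_of_nonneg_right hy3 hy0.le
    have h6 : 0 < y * y := by positivity
    have h7 : y ^ 2 = y * y := sq y
    rw [h7] at hN3
    have h8 : (1 / 10 ^ 9 : ℝ) * y * y = (1 / 10 ^ 9) * (y * y) := by ring
    rw [h8] at h5
    linarith
  -- p
  have hp1 : 1 ≤ p := hp.one_lt.le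
  have hp1R : (1 : ℝ) ≤ p := by exact_mod_cast hp1
  have hp0R : (0 : ℝ) < p := by linarith
  have hpsq : (p : ℝ) ^ 2 ≤ y := by
    have h3 : p ^ 2 ≤ Nat.sqrt n := by
      refine (Nat.pow_le_pow_left hpq 2).trans ?_
      unfold qn
      exact Nat.sqrt_le' _
    have h4 : ((p ^ 2 : ℕ) : ℝ) ≤ (Nat.sqrt n : ℝ) := by exact_mod_cast h3
    have h5 : (Nat.sqrt n : ℝ) ≤ Real.sqrt n := Real.nat_sqrt_le_real_sqrt
    rw [← hy] at h5
    push_cast at h4
    exact h4.trans h5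
  have hly : 1 ≤ l * y := by
    calc (1 : ℝ) = 1 * 1 := by norm_num
      _ ≤ l * y := mul_le_mul hl1 hy1' (by norm_num) (by linarith)
  have h2N : 6 * l * (p : ℝ) ^ 2 ≤ 2 * N := by
    have h3 : 6 * l * (p : ℝ) ^ 2 ≤ 6 * l * y := mul_le_mul_of_nonneg_left hpsq (by positivity)
    have h4 : 6 * l * y = 6 * (l * y) := by ring
    linarith
  have hdiv : 6 * l ≤ 2 * N / (p : ℝ) ^ 2 := by
    rw [le_div_iff₀ (by positivity)]
    exact h2N
  have hexp : Real.exp (-(2 * N / (p : ℝ) ^ 2)) ≤ (y ^ 6)⁻¹ := by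
    have h3 : Real.exp (-(2 * N / (p : ℝ) ^ 2)) ≤ Real.exp (-(6 * l)) :=
      Real.exp_le_exp.2 (by linarith)
    refine h3.trans (le_of_eq ?_)
    rw [Real.exp_neg]
    congr 1
    have h4 : Real.exp (((6 : ℕ) : ℝ) * l) = Real.exp l ^ 6 := Real.exp_nat_mul l 6
    rw [hl, Real.exp_log hy0] at h4
    rw [hl]
    exact_mod_cast h4
  have hfin : (p : ℝ) * Real.exp (-(2 * N / (p : ℝ) ^ 2)) ≤ 1 / (T : ℝ) := by
    have h3 : (p : ℝ) * Real.exp (-(2 * N / (p : ℝ) ^ 2)) ≤ p * (y ^ 6)⁻¹ :=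
      mul_le_mul_of_nonneg_left hexp hp0R.le
    refine h3.trans ?_
    rw [← div_eq_mul_inv, div_le_div_iff₀ (by positivity) hT0, one_mul]
    have h4 : (p : ℝ) ≤ y := by
      refine le_trans ?_ hpsq
      rw [sq]
      exact le_mul_of_one_le_left hp0R.le hp1R
    have h5 : (T : ℝ) ≤ y := by
      have h6 : l ≤ l ^ 3 := by
        calc l = l * 1 := (mul_one l).symm
          _ ≤ l * (l * l) := by
              refine mul_le_mul_of_nonneg_left ?_ (by linarith)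
              calc (1 : ℝ) = 1 * 1 := by norm_num
                _ ≤ l * l := mul_le_mul hl1 hl1 (by norm_num) (by linarith)
          _ = l ^ 3 := by ring
      have h7 : l ≤ (1 / 10 ^ 9) * y := h6.trans hy3
      have h8 : 140 * ((1 / 10 ^ 9) * y) ≤ y := by
        have : 140 * ((1 / 10 ^ 9) * y) = (140 / 10 ^ 9) * y := by ring
        rw [this]
        have h9 : (140 / 10 ^ 9 : ℝ) ≤ 1 := by norm_num
        calc (140 / 10 ^ 9 : ℝ) * y ≤ 1 * y := mul_le_mul_of_nonneg_right h9 hy0.le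
          _ = y := one_mul y
      linarith
    calc (p : ℝ) * T ≤ y * y := mul_le_mul h4 h5 hT0.le hy0.le
      _ = y ^ 2 := (sq y).symm
      _ ≤ y ^ 6 := pow_le_pow_right₀ hy1' (by norm_num)
  refine (gg_le_small p (Ln n) hp1).trans ?_
  rw [← hN, ← hTdef]
  refine mul_le_mul_of_nonneg_left ?_ (by positivity)
  linarith

end Pool.Agent.H95.SQ
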