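import Pool.Agent.H95.SQ.Step
import Pool.Agent.H66.SP.Rec

/-!
# Job SQ-Rec2: induction over the vertices

`card_not_okk_le`.  PROOF.  Let `B k = #{G on Fin k | ¬ OKK n q p₀ G}`,
`C k = card (SimpleGraph (Fin k))`, `C (k+1) = C k * 2^k` (`rec_card_succ`).  Claim: for
`n/4 ≤ k ≤ n`: `B k ≤ C k * (∑_{i ∈ [n/4, k)} del n q T₂ i z + ∑_{i ∈ [n/4, k]} (1/2)^(i/8))`.
Start `k = n/4`: `B k ≤ #{¬ NS (k/400) G} ≤ C k (1/2)^(k/8)` by `okk_base` and `hNS`.  Step: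
`card_step` and `hNS (k+1)`.
-/

set_option autoImplicit false

namespace Pool.Agent.H95.SQ

open Matrix Classical Pool.Agent.H66.SP

theorem rec2_aux (n q p₀ N₁ N₂ T₂ : ℕ) (z : ℝ) [Fact p₀.Prime] (hn : 2 ≤ n)
    (hP : ∀ k, n / 4 ≤ k → k ≤ n → PP q p₀ N₁ N₂ T₂ k z)
    (hNS : ∀ k, n / 4 ≤ k → k ≤ n →
      (((Finset.univ : Finset (SimpleGraph (Fin k))).filter
        (fun G => ¬ NS (k / 400) G)).card : ℝ) ≤
      (Fintype.card (SimpleGraph (Fin k)) : ℝ) * (1 / 2) ^ (k / 8))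
    (k : ℕ) (hk4 : n / 4 ≤ k) : k ≤ n →
    (((Finset.univ : Finset (SimpleGraph (Fin k))).filter
      (fun G => ¬ OKK n q p₀ G)).card : ℝ) ≤
      (Fintype.card (SimpleGraph (Fin k)) : ℝ) *
        (∑ i ∈ Finset.Ico (n / 4) k, del n q T₂ i z +
          ∑ i ∈ Finset.Icc (n / 4) k, (1 / 2 : ℝ) ^ (i / 8)) := by
  induction k, hk4 using Nat.le_induction with
  | base =>
    intro hk
    have h1 := hNS (n / 4) le_rfl hk
    rw [Finset.Ico_self, Finset.sum_empty, Finset.Icc_self, Finset.sum_singleton, zero_add]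
    refine le_trans ?_ h1
    refine Nat.cast_le.2 (Finset.card_le_card fun G hG => ?_)
    rw [Finset.mem_filter] at hG ⊢
    refine ⟨hG.1, fun h => hG.2 ?_⟩
    refine okk_base n q p₀ hn G (Fintype.card_fin _) ?_
    rw [Fintype.card_fin]
    exact h
  | succ k hk4 ih =>
    intro hk
    have ih' := ih (by omega)
    have h1 := card_step n q p₀ N₁ N₂ T₂ k z (hP k hk4 (by omega)) (by omega)
    have h2 := hNS (k + 1) (by omega) hk
    have hc : (Fintype.card (SimpleGraph (Fin (k + 1))) : ℝ) =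
        (Fintype.card (SimpleGraph (Fin k)) : ℝ) * 2 ^ k := by
      rw [rec_card_succ]; push_cast; ring
    rw [Finset.sum_Ico_succ_top hk4, Finset.sum_Icc_succ_top (by omega)]
    have h2k : (0 : ℝ) < 2 ^ k := by positivity
    have h3 := mul_le_mul_of_nonneg_right ih' h2k.le
    refine h1.trans ?_
    rw [hc] at h2 ⊢
    calc _ ≤ (Fintype.card (SimpleGraph (Fin k)) : ℝ) *
        (∑ i ∈ Finset.Ico (n / 4) k, del n q T₂ i z +
          ∑ i ∈ Finset.Icc (n / 4) k, (1 / 2 : ℝ) ^ (i / 8)) * 2 ^ k +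
        (Fintype.card (SimpleGraph (Fin k)) : ℝ) * (2 ^ k * del n q T₂ k z) +
        (Fintype.card (SimpleGraph (Fin k)) : ℝ) * 2 ^ k * (1 / 2) ^ ((k + 1) / 8) :=
          add_le_add (add_le_add h3 le_rfl) h2
      _ = _ := by ring

theorem card_not_okk_le (n q p₀ N₁ N₂ T₂ : ℕ) (z : ℝ) [Fact p₀.Prime] (hn : 2 ≤ n)
    (hP : ∀ k, n / 4 ≤ k → k ≤ n → PP q p₀ N₁ N₂ T₂ k z)
    (hNS : ∀ k, n / 4 ≤ k → k ≤ n →
      (((Finset.univ : Finset (SimpleGraph (Fin k))).filter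
        (fun G => ¬ NS (k / 400) G)).card : ℝ) ≤
      (Fintype.card (SimpleGraph (Fin k)) : ℝ) * (1 / 2) ^ (k / 8)) :
    (((Finset.univ : Finset (SimpleGraph (Fin n))).filter
      (fun G => ¬ OKK n q p₀ G)).card : ℝ) ≤
      (Fintype.card (SimpleGraph (Fin n)) : ℝ) *
        (∑ i ∈ Finset.Ico (n / 4) n, del n q T₂ i z +
          ∑ i ∈ Finset.Icc (n / 4) n, (1 / 2 : ℝ) ^ (i / 8)) :=
  rec2_aux n q p₀ N₁ N₂ T₂ z hn hP hNS n (Nat.div_le_self n 4) le_rfl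

end Pool.Agent.H95.SQ
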