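import Pool.Agent.H66.SP.SpanTop
import Pool.Agent.H66.SP.Main
import Pool.Agent.H95.SQ.NsC
import Pool.Agent.H95.SQ.Rec2
import Pool.Agent.H95.SQ.FinL
import Pool.Agent.H95.SQ.NumL
import Pool.Agent.H95.SQ.NumS
import Pool.Agent.H95.SQ.NumC
import Pool.Agent.H95.SQ.NumD

/-!
# Job SQ-Full2a: half of all graphs on `Fin n ⊕ (Fin 60 ⊕ Fin 400)` are generated by the last 460 vertices

`card_not_full2_sum`.  PROOF.  Let `n` be large, `p₀` a prime with `n < p₀ ≤ 2 n`
(`Nat.exists_prime_lt_and_le_two_mul`), `q = qn n ≤ n < p₀`, `z = zn n`, `N₁ = Mn n`, `N₂ = Ln n`,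
`T₂ = Tn n`.  `PP q p₀ N₁ N₂ T₂ k z` holds for `n/4 ≤ k ≤ n` by `numL`, `numS`, `numC` and
`N₁ * 1600 ≤ (n/4)/400 ≤ k/400`, same for `N₂`.  By `card_not_ns` (for `n/4 ≥ k₀`),
`card_not_okk_le` and `numD` at most a quarter of the graphs `G` on `Fin n` are not `OKK n q p₀`.  If
`OKK n q p₀ G` then (`card V = n`: `n - n = 0`, `2 (n/2) - n = 0`, `2 (n/4) - n = 0`, `n / 2 ≤ n`) the
hypotheses of `card_final2_le` hold with `s = n/400`, and with `numE` at most a quarter of
the `b` do not control in all characteristics; otherwise `Full (glue G b H) (range inr)` by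
`full_glue`.  Count with `card_filter_glue` and `card_graph_sum`, exactly as in
`card_not_full_sum` (H66/SP/Main.lean).
-/

set_option autoImplicit false

namespace Pool.Agent.H95.SQ

open Matrix Classical Pool.Agent.H66.SP

/-- the type of the roots -/
abbrev RQ : Type := Fin 60 ⊕ Fin 400

lemma full2a_okk (n q p₀ : ℕ) [Fact p₀.Prime] (G : SimpleGraph (Fin n)) (h : OKK n q p₀ G) :
    NS (n / 400) G ∧ (∀ μ : KK p₀, mult (adj (KK p₀) G) μ ≤ 40) ∧
      (∀ (p : ℕ) [Fact p.Prime] (μ : KK p), p ≤ q → mult (adj (KK p) G) μ ≤ 30) ∧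
      (∀ (p : ℕ) [Fact p.Prime] (μ : KK p), q < p → mult (adj (KK p) G) μ ≤ 80) := by
  obtain ⟨h1, h2, h3⟩ := h
  rw [Fintype.card_fin] at h1 h3
  simp only [Fintype.card_fin] at h2
  obtain ⟨h4, h5⟩ := h3 (Nat.div_le_self n 2)
  refine ⟨h1, ?_, ?_, ?_⟩
  · intro μ
    have := h2 μ
    omega
  · intro p _ μ hp
    have := h4 p μ hp
    omega
  · intro p _ μ hp
    have := h5 p μ hp
    omega

lemma full2a_count (n : ℕ) (P : SimpleGraph (Fin n) → Prop) (ε₁ ε₂ : ℝ) (hε₂ : 0 ≤ ε₂)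
    (h1 : (((Finset.univ : Finset (SimpleGraph (Fin n))).filter (fun G => ¬ P G)).card : ℝ) ≤
      (Fintype.card (SimpleGraph (Fin n)) : ℝ) * ε₁)
    (h2 : ∀ G : SimpleGraph (Fin n), P G →
      (((Finset.univ : Finset (RQ → Fin n → Bool)).filter
        (fun b => ¬ ∀ (p : ℕ) [Fact p.Prime], CtlP p G b)).card : ℝ) ≤ 2 ^ (n * 460) * ε₂) :
    (((Finset.univ : Finset (SimpleGraph (Fin n ⊕ (Fin 60 ⊕ Fin 400)))).filter
      (fun K => ¬ Full K (Set.range Sum.inr))).card : ℝ) ≤
      (ε₁ + ε₂) * (Fintype.card (SimpleGraph (Fin n ⊕ (Fin 60 ⊕ Fin 400))) : ℝ) := by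
  have hRc0 : Fintype.card (Fin 60 ⊕ Fin 400) = 460 := by
    rw [Fintype.card_sum, Fintype.card_fin, Fintype.card_fin]
  have hcg : ((Finset.univ : Finset (SimpleGraph (Fin n ⊕ (Fin 60 ⊕ Fin 400)))).filter
      (fun K => ¬ Full K (Set.range Sum.inr))).card =
      ∑ G : SimpleGraph (Fin n), ∑ H : SimpleGraph (Fin 60 ⊕ Fin 400),
        ((Finset.univ : Finset ((Fin 60 ⊕ Fin 400) → Fin n → Bool)).filter
          (fun b => ¬ Full (glue G b H) (Set.range Sum.inr))).card := by
    convert card_filter_glue (V := Fin n) (R := Fin 60 ⊕ Fin 400)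
      (fun K => ¬ Full K (Set.range Sum.inr)) using 6
  rw [hcg]
  clear hcg
  set T : ℝ := 2 ^ (n * 460) with hT
  have hT0 : 0 ≤ T := by positivity
  have hb : ∀ G : SimpleGraph (Fin n), ∀ H : SimpleGraph RQ,
      (((Finset.univ : Finset (RQ → Fin n → Bool)).filter
        (fun b => ¬ Full (glue G b H) (Set.range Sum.inr))).card : ℝ) ≤
      T * ((if ¬ P G then 1 else 0) + ε₂) := by
    intro G H
    by_cases hG : P G
    · rw [if_neg (by simpa using hG), zero_add]
      refine le_trans ?_ (h2 G hG)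
      have hsub : ((Finset.univ : Finset (RQ → Fin n → Bool)).filter
          (fun b => ¬ Full (glue G b H) (Set.range Sum.inr))) ⊆
          ((Finset.univ : Finset (RQ → Fin n → Bool)).filter
          (fun b => ¬ ∀ (p : ℕ) [Fact p.Prime], CtlP p G b)) := by
        intro b hb
        rw [Finset.mem_filter] at hb ⊢
        refine ⟨hb.1, fun h => hb.2 (full_glue G b H h)⟩
      exact_mod_cast Finset.card_le_card hsub
    · rw [if_pos (by simpa using hG)]
      have h1 : (((Finset.univ : Finset (RQ → Fin n → Bool)).filter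
        (fun b => ¬ Full (glue G b H) (Set.range Sum.inr))).card : ℝ) ≤ T := by
        have h2 : ((Finset.univ : Finset (RQ → Fin n → Bool)).filter
          (fun b => ¬ Full (glue G b H) (Set.range Sum.inr))).card ≤
          2 ^ (n * 460) := by
          refine le_trans (Finset.card_filter_le _ _) ?_
          rw [Finset.card_univ, Fintype.card_fun, Fintype.card_fun, Fintype.card_bool,
            Fintype.card_fin, hRc0, ← pow_mul]
        rw [hT]
        exact_mod_cast h2
      refine h1.trans ?_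
      rw [mul_add, mul_one]
      exact le_add_of_nonneg_right (mul_nonneg hT0 hε₂)
  push_cast
  have hsum : (∑ G : SimpleGraph (Fin n), ∑ H : SimpleGraph RQ,
      (((Finset.univ : Finset (RQ → Fin n → Bool)).filter
        (fun b => ¬ Full (glue G b H) (Set.range Sum.inr))).card : ℝ)) ≤
      (Fintype.card (SimpleGraph RQ) : ℝ) * (T * ((Fintype.card (SimpleGraph (Fin n)) : ℝ) *
        (ε₁ + ε₂))) := by
    calc _ ≤ ∑ G : SimpleGraph (Fin n), ∑ H : SimpleGraph RQ,
          T * ((if ¬ P G then 1 else 0) + ε₂) :=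
          Finset.sum_le_sum fun G _ => Finset.sum_le_sum fun H _ => hb G H
      _ = (Fintype.card (SimpleGraph RQ) : ℝ) * (T * ((((Finset.univ : Finset (SimpleGraph
            (Fin n))).filter (fun G => ¬ P G)).card : ℝ) +
            (Fintype.card (SimpleGraph (Fin n)) : ℝ) * ε₂)) := by
          simp only [Finset.sum_const, Finset.card_univ, nsmul_eq_mul]
          rw [← Finset.mul_sum, ← Finset.mul_sum, Finset.sum_add_distrib, Finset.sum_boole,
            Finset.sum_const, Finset.card_univ, nsmul_eq_mul]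
      _ ≤ _ := by
          have hR0 : (0 : ℝ) ≤ (Fintype.card (SimpleGraph RQ) : ℝ) := Nat.cast_nonneg _
          apply mul_le_mul_of_nonneg_left _ hR0
          apply mul_le_mul_of_nonneg_left _ hT0
          linarith
  have htot : (Fintype.card (SimpleGraph (Fin n ⊕ RQ)) : ℝ) =
      (Fintype.card (SimpleGraph RQ) : ℝ) * (T * (Fintype.card (SimpleGraph (Fin n)) : ℝ)) := by
    rw [card_graph_sum, Fintype.card_fin, hRc0, hT]
    push_cast
    ring
  rw [htot]
  refine hsum.trans (le_of_eq ?_)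
  ring

theorem card_not_full2_sum : ∃ n₀ : ℕ, ∀ n : ℕ, n₀ ≤ n →
    (((Finset.univ : Finset (SimpleGraph (Fin n ⊕ (Fin 60 ⊕ Fin 400)))).filter
      (fun K => ¬ Full K (Set.range Sum.inr))).card : ℝ) ≤
      (1 / 2) * (Fintype.card (SimpleGraph (Fin n ⊕ (Fin 60 ⊕ Fin 400))) : ℝ) := by
  obtain ⟨nL, hL⟩ := numL
  obtain ⟨nS, hS⟩ := numS
  obtain ⟨nC, hC⟩ := numC
  obtain ⟨nE, hE⟩ := numE
  obtain ⟨nD, hD⟩ := numD
  obtain ⟨k₀, hk₀⟩ := card_not_ns
  refine ⟨nL + nS + nC + nE + nD + 4 * k₀ + 4, fun n hn => ?_⟩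
  obtain ⟨hz0, hz1, hgL⟩ := hL n (by omega)
  have hgS := hS n (by omega)
  have hgC := hC n (by omega)
  have hgE := hE n (by omega)
  have hgD := hD n (by omega)
  obtain ⟨p₀, hp₀, hp₀p⟩ := Nat.exists_infinite_primes (qn n + 1)
  have : Fact p₀.Prime := ⟨hp₀p⟩
  have hq : qn n < p₀ := hp₀
  have hM : Mn n * 40 * 40 ≤ (n / 4) / 400 := by
    unfold Mn
    have := Nat.div_mul_le_self (n / 4 / 400) 1600
    omega
  have hLn : Ln n * Tn n * Tn n ≤ (n / 4) / 400 := by
    unfold Ln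
    have := Nat.div_mul_le_self (n / 4 / 400) (Tn n * Tn n)
    rwa [mul_assoc]
  have hT : 100 ≤ Tn n := by
    unfold Tn
    omega
  have hPP : ∀ k, n / 4 ≤ k → k ≤ n → PP (qn n) p₀ (Mn n) (Ln n) (Tn n) k (zn n) := by
    intro k hk1 hk2
    have hk3 : n / 4 / 400 ≤ k / 400 := Nat.div_le_div_right hk1
    exact { hq := hq
            hz0 := hz0
            hz1 := hz1
            hN₁ := hM.trans hk3
            hN₂ := hLn.trans hk3
            hT₂ := hT
            hL := hgL
            hS := hgS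
            hC := hgC k hk2 }
  have hokk := card_not_okk_le n (qn n) p₀ (Mn n) (Ln n) (Tn n) (zn n) (by omega) hPP
    (fun k hk1 hk2 => hk₀ k (by omega))
  have hokk2 : (((Finset.univ : Finset (SimpleGraph (Fin n))).filter
      (fun G => ¬ OKK n (qn n) p₀ G)).card : ℝ) ≤
      (Fintype.card (SimpleGraph (Fin n)) : ℝ) * (1 / 4) := by
    refine hokk.trans (mul_le_mul_of_nonneg_left hgD (Nat.cast_nonneg _))
  have hn4 : n / 4 / 400 ≤ n / 400 := Nat.div_le_div_right (Nat.div_le_self n 4)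
  have hfin : ∀ G : SimpleGraph (Fin n), OKK n (qn n) p₀ G →
      (((Finset.univ : Finset (RQ → Fin n → Bool)).filter
        (fun b => ¬ ∀ (p : ℕ) [Fact p.Prime], CtlP p G b)).card : ℝ) ≤
        2 ^ (n * 460) * (1 / 4) := by
    intro G hG
    obtain ⟨g1, g2, g3, g4⟩ := full2a_okk n (qn n) p₀ G hG
    have h1 := card_final2_le (qn n) p₀ (n / 400) (Mn n) (Ln n) (Tn n) (zn n) G g1 hq
      (hM.trans hn4) (hLn.trans hn4) hT hz0 hz1 hgL hgS g2 g3 g4
    rw [Fintype.card_fin] at h1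
    refine h1.trans (mul_le_mul_of_nonneg_left ?_ (by positivity))
    exact hgE
  have h := full2a_count n (OKK n (qn n) p₀) (1 / 4) (1 / 4) (by norm_num) hokk2 hfin
  refine h.trans (le_of_eq ?_)
  norm_num

end Pool.Agent.H95.SQ
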