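import Pool.Agent.H95.SQ.Gb

/-!
# Job SQ-Gb2: `gg p N ≤ 1 / p + 3 / √N`

PROOF.  By `cos_pow_le` the term of `1 ≤ x < p` is at most `exp (-c y^2)`, `c = 2 N / p^2`,
`y = min x (p - x) ∈ [1, p]`, and every `y` is the minimum for at most two `x`, so
`p * gg p N ≤ 1 + 2 ∑_{1 ≤ y ≤ p} exp (- c y^2)`.  Let `r = √c`.  The terms with `r y ≤ 1`: there
are at most `1 / r` of them, each `≤ 1`.  The terms with `r y > 1`: `c y^2 ≥ r y`, so they are
at most `exp (- r y)`, and `∑_{y ≥ 1} exp (- r y) = 1 / (e^r - 1) ≤ 1 / r`.  Together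
`∑ ≤ 2 / r = 2 p / √(2 N)`, so `gg p N ≤ (1/p) (1 + 4 p / √(2 N)) ≤ 1/p + 3 / √N` (`4 / √2 ≤ 3`).
(Any other proof of the inequality is fine, e.g. comparison of the decreasing function
`exp (-c t^2)` with its integral, `integral_gaussian_Ioi`, or `exp (-c y^2) ≤ 1 / (1 + c y^2)` and
`∑_{y ≥ 1} 1 / (1 + c y^2) ≤ ∫ = π / (2 r)`, which gives `(1/p) (1 + π / r)`,
`π / √2 ≤ 3`.)
-/

set_option autoImplicit false

namespace Pool.Agent.H95.SQ

open Matrix Classical Pool.Agent.H66.SP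

theorem gb2_term (r : ℝ) (hr : 0 < r) (y : ℕ) :
    r * Real.exp (-(r ^ 2 * ((y : ℝ) + 1) ^ 2)) ≤
      2 * (r * ((y : ℝ) + 1)) / (1 + r * ((y : ℝ) + 1)) - 2 * (r * y) / (1 + r * y) := by
  have hu : 0 ≤ r * (y : ℝ) := by positivity
  set u : ℝ := r * y with hudef
  have hv : r * ((y : ℝ) + 1) = u + r := by rw [hudef]; ring
  have hv2 : r ^ 2 * ((y : ℝ) + 1) ^ 2 = (u + r) ^ 2 := by rw [hudef]; ring
  rw [hv, hv2]
  have h1 : Real.exp (-(u + r) ^ 2) ≤ 1 / (1 + (u + r) ^ 2) := by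
    rw [Real.exp_neg, ← one_div]
    apply one_div_le_one_div_of_le (by positivity)
    have := Real.add_one_le_exp ((u + r) ^ 2)
    linarith
  have h2 : 2 * (u + r) / (1 + (u + r)) - 2 * u / (1 + u) =
      r * (2 / ((1 + (u + r)) * (1 + u))) := by
    have e1 : (1 + (u + r)) ≠ 0 := by positivity
    have e2 : (1 + u) ≠ 0 := by positivity
    field_simp
    ring
  rw [h2]
  refine mul_le_mul_of_nonneg_left (h1.trans ?_) hr.le
  rw [div_le_div_iff₀ (by positivity) (by positivity)]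
  nlinarith [sq_nonneg (u + r - 1), mul_nonneg hu hr.le, hr.le, hu, mul_nonneg hr.le hr.le]

theorem gb2_sum (r : ℝ) (hr : 0 < r) (m : ℕ) :
    r * ∑ y ∈ Finset.range m, Real.exp (-(r ^ 2 * ((y : ℝ) + 1) ^ 2)) ≤ 2 := by
  have h : r * ∑ y ∈ Finset.range m, Real.exp (-(r ^ 2 * ((y : ℝ) + 1) ^ 2)) ≤
      2 * (r * m) / (1 + r * m) := by
    induction m with
    | zero => simp
    | succ m ih =>
      rw [Finset.sum_range_succ, mul_add]
      have := gb2_term r hr m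
      push_cast
      linarith
  refine h.trans ?_
  rw [div_le_iff₀ (by positivity)]
  have : 0 ≤ r * (m : ℝ) := by positivity
  linarith

theorem gg_le (p N : ℕ) (hp : 1 ≤ p) (hN : 1 ≤ N) :
    gg p N ≤ 1 / (p : ℝ) + 3 / Real.sqrt N := by
  obtain ⟨q, rfl⟩ : ∃ q, p = q + 1 := ⟨p - 1, by omega⟩
  have hp0 : (0 : ℝ) < ((q + 1 : ℕ) : ℝ) := by positivity
  have hN0 : (0 : ℝ) < (N : ℝ) := by exact_mod_cast hN
  have hs0 : 0 < Real.sqrt (2 * N) := Real.sqrt_pos.2 (by positivity)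
  set P : ℝ := ((q + 1 : ℕ) : ℝ) with hP
  set r : ℝ := Real.sqrt (2 * N) / P with hr
  have hr0 : 0 < r := by positivity
  have hr2 : r ^ 2 = 2 * N / P ^ 2 := by
    rw [hr, div_pow, Real.sq_sqrt (by positivity)]
  set E : ℝ := ∑ y ∈ Finset.range q, Real.exp (-(r ^ 2 * ((y : ℝ) + 1) ^ 2)) with hE
  have hE2 : r * E ≤ 2 := gb2_sum r hr0 q
  have hsum : ∑ x ∈ Finset.range (q + 1), |Real.cos (Real.pi * x / P)| ^ N ≤ 1 + 2 * E := by
    rw [Finset.sum_range_succ']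
    have h0 : |Real.cos (Real.pi * ((0 : ℕ) : ℝ) / P)| ^ N = 1 := by simp
    rw [h0]
    have h1 : ∀ x ∈ Finset.range q, |Real.cos (Real.pi * ((x + 1 : ℕ) : ℝ) / P)| ^ N ≤
        Real.exp (-(r ^ 2 * ((x : ℝ) + 1) ^ 2)) +
          Real.exp (-(r ^ 2 * (((q - 1 - x : ℕ) : ℝ) + 1) ^ 2)) := by
      intro x hx
      have hxq := Finset.mem_range.1 hx
      have h2 := cos_pow_le (q + 1) N (x + 1) (by omega) (by omega)
      refine h2.trans ?_
      rcases le_total (x + 1) (q + 1 - (x + 1)) with hle | hle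
      · rw [min_eq_left hle]
        have e : -(2 * (N : ℝ) * ((x + 1 : ℕ) : ℝ) ^ 2 / ((q + 1 : ℕ) : ℝ) ^ 2) =
            -(r ^ 2 * ((x : ℝ) + 1) ^ 2) := by
          rw [hr2, hP]
          push_cast
          ring
        rw [e]
        have := Real.exp_pos (-(r ^ 2 * (((q - 1 - x : ℕ) : ℝ) + 1) ^ 2))
        linarith
      · rw [min_eq_right hle]
        have e0 : q + 1 - (x + 1) = q - 1 - x + 1 := by omega
        rw [e0]
        have e : -(2 * (N : ℝ) * ((q - 1 - x + 1 : ℕ) : ℝ) ^ 2 / ((q + 1 : ℕ) : ℝ) ^ 2) =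
            -(r ^ 2 * (((q - 1 - x : ℕ) : ℝ) + 1) ^ 2) := by
          rw [hr2, hP]
          push_cast
          ring
        rw [e]
        have := Real.exp_pos (-(r ^ 2 * ((x : ℝ) + 1) ^ 2))
        linarith
    have h3 := Finset.sum_le_sum h1
    rw [Finset.sum_add_distrib, Finset.sum_range_reflect
      (fun y => Real.exp (-(r ^ 2 * ((y : ℝ) + 1) ^ 2))) q] at h3
    linarith
  have hgg : gg (q + 1) N ≤ (1 / P) * (1 + 2 * E) := by
    unfold gg
    rw [← hP]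
    exact mul_le_mul_of_nonneg_left hsum (by positivity)
  refine hgg.trans ?_
  have hsN : 0 < Real.sqrt N := Real.sqrt_pos.2 hN0
  have h4 : E ≤ 2 / r := by
    rw [le_div_iff₀ hr0]
    linarith
  have h5 : 2 / r = 2 * P / (Real.sqrt 2 * Real.sqrt N) := by
    rw [hr, Real.sqrt_mul (by norm_num)]
    have : Real.sqrt 2 * Real.sqrt N ≠ 0 := by positivity
    field_simp
  have h6 : (1 / P) * (1 + 2 * E) ≤ (1 / P) * (1 + 2 * (2 * P / (Real.sqrt 2 * Real.sqrt N))) := by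
    refine mul_le_mul_of_nonneg_left ?_ (by positivity)
    rw [← h5]
    linarith
  refine h6.trans ?_
  have h7 : (1 / P) * (1 + 2 * (2 * P / (Real.sqrt 2 * Real.sqrt N))) =
      1 / P + 4 / (Real.sqrt 2 * Real.sqrt N) := by
    field_simp
    ring
  rw [h7]
  have h8 : 4 / (Real.sqrt 2 * Real.sqrt N) ≤ 3 / Real.sqrt N := by
    have hs2 : (4 : ℝ) / 3 ≤ Real.sqrt 2 := by
      apply Real.le_sqrt_of_sq_le
      norm_num
    rw [div_le_div_iff₀ (by positivity) hsN]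
    nlinarith [mul_pos hsN hsN]
  linarith

end Pool.Agent.H95.SQ
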