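import Pool.Agent.H95.SQ.HalA
import Pool.Agent.H95.SQ.HalB

/-!
# Job SQ-HalC: Halasz inequality for 0/1 vectors orthogonal to a dense subspace

`amgm_bound`.  PROOF.  `N = 0`: both sides are `p^T` (empty product; `|cos|^0 = 1`).  `N ≥ 1`: put
`G_l ξ = ∏_{a'} |cos (π (M_lᵀ ξ)_{a'}.val / p)| ≥ 0`.  By the inequality of the arithmetic and
geometric means `∏_l G_l ξ ≤ (1/N) ∑_l (G_l ξ)^N`
(`Real.geom_mean_le_arith_mean_weighted Finset.univ (fun _ => 1/N) (fun l => (G_l ξ)^N)`), and, since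
`ξ ↦ M_lᵀ ξ` is a bijection of `Fin T → ZMod p` (the determinant of `M_l` is a unit),
`∑_ξ (G_l ξ)^N = ∑_η ∏_{a'} |cos (π (η a').val / p)|^N = (∑_{y : ZMod p} |cos (π y.val / p)|^N)^T`
(`Finset.prod_univ_sum`), and the sum over `ZMod p` is the sum over `Finset.range p`.

`halasz`.  PROOF.  Let `T = finrank W` and `w` a basis of `W` (`Module.finBasis`), `c` the map of
`exists_bases`; apply `fourier_bound` and `amgm_bound` and divide by `p^T`
(`gg p N = (1/p) ∑ ...`).
-/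

set_option autoImplicit false

namespace Pool.Agent.H95.SQ

open Matrix Classical Pool.Agent.H66.SP

theorem halC_sum_val (p : ℕ) [Fact p.Prime] (F : ℕ → ℝ) :
    ∑ y : ZMod p, F y.val = ∑ x ∈ Finset.range p, F x := by
  refine Finset.sum_nbij' (fun y => y.val) (fun x => (x : ZMod p)) ?_ ?_ ?_ ?_ ?_
  · intro y _
    exact Finset.mem_range.2 (ZMod.val_lt y)
  · intro x _
    exact Finset.mem_univ _
  · intro y _
    exact ZMod.natCast_zmod_val y
  · intro x hx
    exact ZMod.val_cast_of_lt (Finset.mem_range.1 hx)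
  · intro y _
    rfl

theorem halC_inner (p : ℕ) [Fact p.Prime] (T N : ℕ) (M : Matrix (Fin T) (Fin T) (ZMod p))
    (hM : IsUnit M.det) :
    ∑ ξ : Fin T → ZMod p, (∏ a' : Fin T,
        |Real.cos (Real.pi * ((∑ a : Fin T, ξ a * M a a' : ZMod p).val : ℝ) / p)|) ^ N =
      (∑ x ∈ Finset.range p, |Real.cos (Real.pi * x / p)| ^ N) ^ T := by
  have hinj : Function.Injective (fun ξ : Fin T → ZMod p => Matrix.vecMul ξ M) :=
    Matrix.vecMul_injective_iff_isUnit.2 ((Matrix.isUnit_iff_isUnit_det M).2 hM)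
  have hbij : Function.Bijective (fun ξ : Fin T → ZMod p => Matrix.vecMul ξ M) :=
    Finite.injective_iff_bijective.1 hinj
  have h1 : ∑ ξ : Fin T → ZMod p, (∏ a' : Fin T,
        |Real.cos (Real.pi * ((∑ a : Fin T, ξ a * M a a' : ZMod p).val : ℝ) / p)|) ^ N =
      ∑ η : Fin T → ZMod p, (∏ a' : Fin T,
        |Real.cos (Real.pi * ((η a').val : ℝ) / p)|) ^ N := by
    exact hbij.sum_comp (fun η : Fin T → ZMod p => (∏ a' : Fin T,
        |Real.cos (Real.pi * ((η a').val : ℝ) / p)|) ^ N)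
  rw [h1, ← halC_sum_val p (fun x => |Real.cos (Real.pi * x / p)| ^ N), Fintype.sum_pow]
  refine Finset.sum_congr rfl (fun η _ => ?_)
  rw [Finset.prod_pow]

theorem amgm_bound (p : ℕ) [Fact p.Prime] (T N : ℕ) (M : Fin N → Matrix (Fin T) (Fin T) (ZMod p))
    (hM : ∀ l, IsUnit (M l).det) :
    ∑ ξ : Fin T → ZMod p, ∏ l : Fin N, ∏ a' : Fin T,
        |Real.cos (Real.pi * ((∑ a : Fin T, ξ a * M l a a' : ZMod p).val : ℝ) / p)| ≤
      (∑ x ∈ Finset.range p, |Real.cos (Real.pi * x / p)| ^ N) ^ T := by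
  rcases Nat.eq_zero_or_pos N with hN | hN
  · subst hN
    simp
  · set G : Fin N → (Fin T → ZMod p) → ℝ := fun l ξ => ∏ a' : Fin T,
        |Real.cos (Real.pi * ((∑ a : Fin T, ξ a * M l a a' : ZMod p).val : ℝ) / p)| with hG
    have hG0 : ∀ l ξ, 0 ≤ G l ξ := fun l ξ => Finset.prod_nonneg (fun _ _ => abs_nonneg _)
    have hN' : (N : ℝ) ≠ 0 := by exact_mod_cast hN.ne'
    have h1 : ∀ ξ : Fin T → ZMod p, ∏ l : Fin N, G l ξ ≤ ∑ l : Fin N, (N : ℝ)⁻¹ * (G l ξ) ^ N := by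
      intro ξ
      have h2 := Real.geom_mean_le_arith_mean_weighted (Finset.univ : Finset (Fin N))
        (fun _ => (N : ℝ)⁻¹) (fun l => (G l ξ) ^ N) (fun _ _ => by positivity)
        (by simp [hN'])
        (fun l _ => pow_nonneg (hG0 l ξ) N)
      refine le_trans (le_of_eq ?_) h2
      refine Finset.prod_congr rfl (fun l _ => ?_)
      exact (Real.pow_rpow_inv_natCast (hG0 l ξ) hN.ne').symm
    calc ∑ ξ : Fin T → ZMod p, ∏ l : Fin N, G l ξ
        ≤ ∑ ξ : Fin T → ZMod p, ∑ l : Fin N, (N : ℝ)⁻¹ * (G l ξ) ^ N :=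
          Finset.sum_le_sum (fun ξ _ => h1 ξ)
      _ = ∑ l : Fin N, (N : ℝ)⁻¹ * ∑ ξ : Fin T → ZMod p, (G l ξ) ^ N := by
          rw [Finset.sum_comm]
          refine Finset.sum_congr rfl (fun l _ => ?_)
          rw [Finset.mul_sum]
      _ = ∑ _l : Fin N, (N : ℝ)⁻¹ *
            (∑ x ∈ Finset.range p, |Real.cos (Real.pi * x / p)| ^ N) ^ T := by
          refine Finset.sum_congr rfl (fun l _ => ?_)
          rw [← halC_inner p T N (M l) (hM l)]
      _ = (∑ x ∈ Finset.range p, |Real.cos (Real.pi * x / p)| ^ N) ^ T := by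
          rw [Finset.sum_const, Finset.card_univ, Fintype.card_fin, nsmul_eq_mul, ← mul_assoc,
            mul_inv_cancel₀ hN', one_mul]

theorem halasz (p : ℕ) [Fact p.Prime] {V : Type*} [Fintype V] [DecidableEq V]
    (W : Submodule (ZMod p) (V → ZMod p)) (s N : ℕ) (hW : Dense W s)
    (hN : N * Module.finrank (ZMod p) W ≤ s) :
    (orth W : ℝ) ≤ 2 ^ Fintype.card V * gg p N ^ Module.finrank (ZMod p) W := by
  set T := Module.finrank (ZMod p) W with hT
  let w : Module.Basis (Fin T) (ZMod p) W := Module.finBasis (ZMod p) W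
  obtain ⟨c, hc, hdet⟩ := exists_bases W w s N hW hN
  have h1 := fourier_bound p W w c hc
  have h2 := amgm_bound p T N
    (fun l => Matrix.of fun a a' : Fin T => ((w a : W) : V → ZMod p) (c (l, a'))) hdet
  have hp : (0 : ℝ) < p := by exact_mod_cast (Fact.out : p.Prime).pos
  have hpT : (0 : ℝ) < (p : ℝ) ^ T := pow_pos hp T
  have h3 : (orth W : ℝ) * (p : ℝ) ^ T ≤ 2 ^ Fintype.card V *
      (∑ x ∈ Finset.range p, |Real.cos (Real.pi * x / p)| ^ N) ^ T :=
    h1.trans (mul_le_mul_of_nonneg_left h2 (by positivity))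
  have h4 : 2 ^ Fintype.card V * gg p N ^ T * (p : ℝ) ^ T = 2 ^ Fintype.card V *
      (∑ x ∈ Finset.range p, |Real.cos (Real.pi * x / p)| ^ N) ^ T := by
    unfold gg
    rw [mul_assoc, ← mul_pow]
    congr 2
    field_simp
  rw [← h4] at h3
  exact le_of_mul_le_mul_right h3 hpT

end Pool.Agent.H95.SQ
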