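import Pool.Agent.H66.SP.Inter
import Pool.Agent.H95.SQ.Defs

/-!
# Job SQ-Int2: strict interlacing

`mult_ext_lt`.  PROOF.  Let `E = eig A μ`, `A = adj K G`, and `x₀ ∈ E` with `b · x₀ ≠ 0`.  Let
`z = (w, t)` be in the eigenspace of `ext G b`: `A w + t b = μ w` and `b · w = μ t`.  Taking the dot
product of the first equation with `x₀` and using the symmetry of `A`:
`t (b · x₀) = (μ w - A w) · x₀ = w · (μ x₀ - A x₀) = 0`, so `t = 0`.  So `z = (w, 0)` with `w ∈ E`,
`b · w = 0`, and the eigenspace of `ext G b` embeds into `{w ∈ E | b · w = 0}`, a proper subspace of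
`E` (it does not contain `x₀`), of dimension `< finrank E`.  (See `ext_mulVec_inl`,
`ext_mulVec_inr` in H66/SP/Inter.lean.)
-/

set_option autoImplicit false

namespace Pool.Agent.H95.SQ

open Matrix Classical Pool.Agent.H66.SP

theorem Int2_symm {K : Type*} [Field K] {V : Type*} (G : SimpleGraph V) :
    (adj K G)ᵀ = adj K G := by
  ext i j
  simp only [Matrix.transpose_apply, adj, Matrix.of_apply]
  rw [G.adj_comm]

theorem Int2_last {K : Type*} [Field K] {V : Type*} [Fintype V] [DecidableEq V]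
    (G : SimpleGraph V) (b : V → Bool) (μ : K)
    (h : ∃ x ∈ eig (adj K G) μ, bv K b ⬝ᵥ x ≠ 0) (z : V ⊕ Unit → K)
    (hz : z ∈ eig (adj K (ext G b)) μ) : z (Sum.inr ()) = 0 := by
  obtain ⟨x, hx, hne⟩ := h
  rw [mem_eig] at hz hx
  set w : V → K := fun u => z (Sum.inl u) with hw
  have h1 : adj K G *ᵥ w + z (Sum.inr ()) • bv K b = μ • w := by
    funext v
    have h2 := congrFun hz (Sum.inl v)
    rw [ext_mulVec_inl] at h2
    simp only [Pi.add_apply, Pi.smul_apply, smul_eq_mul] at h2 ⊢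
    rw [mul_comm (z (Sum.inr ()))]
    exact h2
  have h3 : x ⬝ᵥ (adj K G *ᵥ w) = μ * (x ⬝ᵥ w) := by
    rw [Matrix.dotProduct_mulVec, ← Matrix.mulVec_transpose, Int2_symm, hx, smul_dotProduct,
      smul_eq_mul]
  have h4 : x ⬝ᵥ (adj K G *ᵥ w + z (Sum.inr ()) • bv K b) = x ⬝ᵥ (μ • w) := by rw [h1]
  rw [dotProduct_add, h3, dotProduct_smul, dotProduct_smul, smul_eq_mul, smul_eq_mul] at h4
  have h5 : z (Sum.inr ()) * (x ⬝ᵥ bv K b) = 0 := by
    have h6 : μ * (x ⬝ᵥ w) + z (Sum.inr ()) * (x ⬝ᵥ bv K b) = μ * (x ⬝ᵥ w) + 0 := by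
      rw [h4, add_zero]
    exact add_left_cancel h6
  rcases mul_eq_zero.1 h5 with h7 | h7
  · exact h7
  · rw [dotProduct_comm] at h7
    exact absurd h7 hne

theorem mult_ext_lt {K : Type*} [Field K] {V : Type*} [Fintype V] [DecidableEq V]
    (G : SimpleGraph V) (b : V → Bool) (μ : K)
    (h : ∃ x ∈ eig (adj K G) μ, bv K b ⬝ᵥ x ≠ 0) :
    mult (adj K (ext G b)) μ + 1 ≤ mult (adj K G) μ := by
  have h1 : Module.finrank K (interF G b μ) < mult (adj K G) μ := by
    apply Submodule.finrank_lt_finrank_of_lt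
    refine lt_of_le_of_ne (interF_le G b μ) ?_
    intro he
    obtain ⟨x, hx, hne⟩ := h
    rw [← he] at hx
    exact hne hx.2
  have hl : ∀ z : eig (adj K (ext G b)) μ, (z : V ⊕ Unit → K) (Sum.inr ()) = 0 :=
    fun z => Int2_last G b μ h z.1 z.2
  let g : eig (adj K (ext G b)) μ →ₗ[K] interF G b μ :=
    { toFun := fun z => ⟨fun u => (z : V ⊕ Unit → K) (Sum.inl u), inter_mem G b μ _ z.2 (hl z)⟩
      map_add' := fun x y => by ext; rfl
      map_smul' := fun c x => by ext; rfl }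
  have hginj : Function.Injective g := by
    intro x y hxy
    apply Subtype.ext
    funext w
    rcases w with u | ⟨⟩
    · exact congrFun (congrArg Subtype.val hxy) u
    · rw [hl x, hl y]
  have h2 : Module.finrank K (eig (adj K (ext G b)) μ) ≤ Module.finrank K (interF G b μ) :=
    LinearMap.finrank_le_finrank_of_injective hginj
  unfold mult at h1 ⊢
  omega

end Pool.Agent.H95.SQ
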