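import Pool.Agent.H66.SP.GEquiv
import Pool.Agent.H95.SQ.Bad

/-!
# Job SQ-Iso: the invariant does not depend on the names of the vertices

`ns_iso`: transport `x` along `φ`: `x ∘ φ.symm`; supports have the same cardinality and
`(adj K H *ᵥ (x ∘ φ.symm)) (φ v) = (adj K G *ᵥ x) v`.  `okk_iso`: `ns_iso`, `mult_iso`
(H66/SP/GEquiv.lean) and `Fintype.card_congr φ.toEquiv`.
-/

set_option autoImplicit false

namespace Pool.Agent.H95.SQ

open Matrix Classical Pool.Agent.H66.SP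

lemma iso_card_filter {V W : Type*} [Fintype V] [Fintype W] (e : V ≃ W) (P : V → Prop)
    (Q : W → Prop) [DecidablePred P] [DecidablePred Q] (h : ∀ v, P v ↔ Q (e v)) :
    ((Finset.univ : Finset V).filter P).card = ((Finset.univ : Finset W).filter Q).card := by
  refine Finset.card_bij (fun v _ => e v) ?_ ?_ ?_
  · intro v hv
    exact Finset.mem_filter.2 ⟨Finset.mem_univ _, (h v).1 (Finset.mem_filter.1 hv).2⟩
  · intro v _ w _ hvw
    exact e.injective hvw
  · intro w hw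
    refine ⟨e.symm w, ?_, e.apply_symm_apply w⟩
    refine Finset.mem_filter.2 ⟨Finset.mem_univ _, (h _).2 ?_⟩
    rw [e.apply_symm_apply]
    exact (Finset.mem_filter.1 hw).2

lemma iso_nz {K : Type*} [Zero K] {V W : Type*} [Fintype V] [Fintype W] (e : V ≃ W) (x : W → K) :
    nz (fun v => x (e v)) = nz x := by
  unfold nz
  exact iso_card_filter e _ _ (fun v => Iff.rfl)

lemma ns_of_iso {V W : Type*} [Fintype V] [Fintype W] [DecidableEq V] [DecidableEq W]
    {G : SimpleGraph V} {H : SimpleGraph W} (φ : G ≃g H) (s : ℕ) (h : NS s G) : NS s H := by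
  intro p _ x hx0 hx
  have h1 := h p (fun v => x (φ.toEquiv v)) (by
    intro h0
    apply hx0
    funext w
    have h2 := congrFun h0 (φ.toEquiv.symm w)
    simp only [Equiv.apply_symm_apply] at h2
    exact h2) (by rw [iso_nz]; exact hx)
  refine lt_of_lt_of_eq h1 (iso_card_filter φ.toEquiv _ _ ?_)
  intro v
  have h3 := gequiv_mulVec (K := ZMod p) φ.symm x
  have h4 := congrFun h3 v
  have h5 : (adj (ZMod p) G *ᵥ fun v => x (φ.toEquiv v)) v = (adj (ZMod p) H *ᵥ x) (φ.toEquiv v) :=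
    h4
  rw [h5]

theorem ns_iso {V W : Type*} [Fintype V] [Fintype W] [DecidableEq V] [DecidableEq W]
    {G : SimpleGraph V} {H : SimpleGraph W} (φ : G ≃g H) (s : ℕ) : NS s G ↔ NS s H :=
  ⟨ns_of_iso φ s, ns_of_iso φ.symm s⟩

theorem okk_iso (n q p₀ : ℕ) [Fact p₀.Prime] {V W : Type*} [Fintype V] [Fintype W]
    [DecidableEq V] [DecidableEq W] {G : SimpleGraph V} {H : SimpleGraph W} (φ : G ≃g H) :
    OKK n q p₀ G ↔ OKK n q p₀ H := by
  have hc : Fintype.card V = Fintype.card W := Fintype.card_congr φ.toEquiv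
  unfold OKK
  rw [ns_iso φ, hc]
  constructor
  · rintro ⟨h1, h2, h3⟩
    refine ⟨h1, fun μ => (mult_iso φ μ) ▸ h2 μ, fun hn => ⟨?_, ?_⟩⟩
    · intro p _ μ hp
      exact (mult_iso φ μ) ▸ (h3 hn).1 p μ hp
    · intro p _ μ hp
      exact (mult_iso φ μ) ▸ (h3 hn).2 p μ hp
  · rintro ⟨h1, h2, h3⟩
    refine ⟨h1, fun μ => (mult_iso φ μ).symm ▸ h2 μ, fun hn => ⟨?_, ?_⟩⟩
    · intro p _ μ hp
      exact (mult_iso φ μ).symm ▸ (h3 hn).1 p μ hp
    · intro p _ μ hp
      exact (mult_iso φ μ).symm ▸ (h3 hn).2 p μ hp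

end Pool.Agent.H95.SQ
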