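import Pool.Agent.H95.SQ.NsA

/-!
# Job SQ-NsB: almost all graphs are non sparse, modulo all primes at once

`card_not_ns_le`.  PROOF.  If `NS s G` fails there are a prime `p` and `x ≠ 0` with
`S = supp x`, `card S ≤ s`, and `T = {v | x v = 0, (A x) v ≠ 0}`, `card T ≤ s`; `S, T` are disjoint and
`(A x) v = 0` for `v ∉ S ∪ T`.  Union bound over the pairs `(S, T)` of disjoint sets with at most `s`
elements: let `m = k - card S - card T ≥ k - 2 s`, `N₁ = m / 2`, `N₂ = m - N₁`, both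
`≥ (k - 2 s - 1) / 2 ≥ h`, `h = (k - 2 s) / 2` (natural division, so `N₁ ≥ h`, `N₂ ≥ h`).  By
`card_ker_graph` every pair contributes at most `card * ((2/3)^h 3^s (1 + s^2))`.

`card_small_sets`: `∑_{S : card S ≤ s} 1 ≤ ∑_S a^(s - card S) ≤ a^s ∑_S (1/a)^(card S) =
a^s (1 + 1/a)^k` for `a ≥ 1` (`Finset.sum_pow_mul_eq_add_pow` or `Finset.prod_one_add`).
-/

set_option autoImplicit false

namespace Pool.Agent.H95.SQ

open Matrix Classical Pool.Agent.H66.SP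

theorem card_small_sets (k s : ℕ) (a : ℝ) (ha : 1 ≤ a) :
    (((Finset.univ : Finset (Finset (Fin k))).filter (fun S => S.card ≤ s)).card : ℝ) ≤
      a ^ s * (1 + 1 / a) ^ k := by
  have ha0 : 0 < a := by linarith
  have h1 : ∑ S : Finset (Fin k), (1 / a) ^ S.card = (1 + 1 / a) ^ k := by
    have h := Finset.sum_pow_mul_eq_add_pow (1 / a) (1 : ℝ) (Finset.univ : Finset (Fin k))
    rw [Finset.powerset_univ, Finset.card_univ, Fintype.card_fin] at h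
    rw [add_comm, ← h]
    exact Finset.sum_congr rfl fun S _ => by rw [one_pow, mul_one]
  rw [← h1, Finset.mul_sum, Finset.card_eq_sum_ones, Nat.cast_sum]
  refine le_trans (Finset.sum_le_sum (g := fun S : Finset (Fin k) => a ^ s * (1 / a) ^ S.card)
    fun S hS => ?_) (Finset.sum_le_sum_of_subset_of_nonneg (Finset.subset_univ _)
      fun S _ _ => by positivity)
  have hSs : S.card ≤ s := (Finset.mem_filter.1 hS).2
  have h2 : a ^ s = a ^ (s - S.card) * a ^ S.card := by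
    rw [← pow_add, Nat.sub_add_cancel hSs]
  rw [Nat.cast_one, h2, mul_assoc, ← mul_pow, mul_one_div_cancel ha0.ne', one_pow, mul_one]
  exact one_le_pow₀ ha

/-- the bad graphs for the supports `S`, `T` -/
def nsbBad {V : Type*} [Fintype V] (S T : Finset V) (G : SimpleGraph V) : Prop :=
  ∃ (p : ℕ) (_ : Fact p.Prime) (x : V → ZMod p), x ≠ 0 ∧ (∀ v, v ∉ S → x v = 0) ∧
    ∀ v, v ∉ S → v ∉ T → (adj (ZMod p) G *ᵥ x) v = 0

theorem nsb_pair (k s : ℕ) (hs : 2 * s ≤ k) (S T : Finset (Fin k)) (hST : Disjoint S T)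
    (hS : S.card ≤ s) (hT : T.card ≤ s) :
    (((Finset.univ : Finset (SimpleGraph (Fin k))).filter (fun G => nsbBad S T G)).card : ℝ) ≤
      (Fintype.card (SimpleGraph (Fin k)) : ℝ) *
        ((2 / 3) ^ ((k - 2 * s) / 2) * 3 ^ s * (1 + (s : ℝ) ^ 2)) := by
  obtain ⟨N₁, hN₁⟩ : ∃ N₁, N₁ = (k - S.card - T.card) / 2 := ⟨_, rfl⟩
  obtain ⟨N₂, hN₂⟩ : ∃ N₂, N₂ = (k - S.card - T.card) - N₁ := ⟨_, rfl⟩
  have h1 : (k - 2 * s) / 2 ≤ N₁ := by omega
  have h2 : (k - 2 * s) / 2 ≤ N₂ := by omega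
  have hN : N₁ + N₂ + S.card + T.card = Fintype.card (Fin k) := by
    rw [Fintype.card_fin]; omega
  refine le_trans (card_ker_graph S T hST N₁ N₂ hN) ?_
  refine mul_le_mul_of_nonneg_left ?_ (Nat.cast_nonneg _)
  have e1 : ((2 : ℝ) / 3) ^ N₁ ≤ (2 / 3) ^ ((k - 2 * s) / 2) :=
    pow_le_pow_of_le_one (by norm_num) (by norm_num) h1
  have e2 : ((2 : ℝ) / 3) ^ N₂ ≤ (2 / 3) ^ ((k - 2 * s) / 2) :=
    pow_le_pow_of_le_one (by norm_num) (by norm_num) h2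
  have e3 : (3 : ℝ) ^ S.card ≤ 3 ^ s := pow_le_pow_right₀ (by norm_num) hS
  have e4 : ((S.card : ℝ)) ^ 2 ≤ (s : ℝ) ^ 2 :=
    pow_le_pow_left₀ (Nat.cast_nonneg _) (by exact_mod_cast hS) 2
  have f1 : ((2 : ℝ) / 3) ^ N₁ * 3 ^ S.card ≤ (2 / 3) ^ ((k - 2 * s) / 2) * 3 ^ s :=
    mul_le_mul e1 e3 (by positivity) (by positivity)
  have f2 : ((2 : ℝ) / 3) ^ N₂ * 3 ^ S.card ≤ (2 / 3) ^ ((k - 2 * s) / 2) * 3 ^ s :=
    mul_le_mul e2 e3 (by positivity) (by positivity)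
  have f3 : ((S.card : ℝ)) ^ 2 * (((2 : ℝ) / 3) ^ N₂ * 3 ^ S.card) ≤
      (s : ℝ) ^ 2 * ((2 / 3) ^ ((k - 2 * s) / 2) * 3 ^ s) :=
    mul_le_mul e4 f2 (by positivity) (by positivity)
  calc ((2 : ℝ) / 3) ^ N₁ * 3 ^ S.card + ((S.card : ℝ)) ^ 2 * ((2 / 3) ^ N₂ * 3 ^ S.card)
      ≤ (2 / 3) ^ ((k - 2 * s) / 2) * 3 ^ s +
        (s : ℝ) ^ 2 * ((2 / 3) ^ ((k - 2 * s) / 2) * 3 ^ s) := add_le_add f1 f3
    _ = (2 / 3) ^ ((k - 2 * s) / 2) * 3 ^ s * (1 + (s : ℝ) ^ 2) := by ring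

theorem nsb_cover (k s : ℕ) (G : SimpleGraph (Fin k)) (h : ¬ NS s G) :
    ∃ S T : Finset (Fin k), Disjoint S T ∧ S.card ≤ s ∧ T.card ≤ s ∧ nsbBad S T G := by
  unfold NS at h
  push Not at h
  obtain ⟨p, hp, x, hx0, hxs, hT⟩ := h
  refine ⟨Finset.univ.filter (fun v => x v ≠ 0),
    Finset.univ.filter (fun v => x v = 0 ∧ (adj (ZMod p) G *ᵥ x) v ≠ 0), ?_, ?_, ?_,
    p, hp, x, hx0, ?_, ?_⟩
  rotate_left
  · unfold nz at hxs
    convert hxs
  · convert hT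
  rotate_left
  rotate_left
  · rw [Finset.disjoint_left]
    intro v hv hv'
    exact (Finset.mem_filter.1 hv).2 (Finset.mem_filter.1 hv').2.1
  · intro v hv
    by_contra hne
    exact hv (Finset.mem_filter.2 ⟨Finset.mem_univ _, hne⟩)
  · intro v hv hv'
    by_contra hne
    refine hv' (Finset.mem_filter.2 ⟨Finset.mem_univ _, ?_, hne⟩)
    by_contra hne'
    exact hv (Finset.mem_filter.2 ⟨Finset.mem_univ _, hne'⟩)

theorem card_not_ns_le (k s : ℕ) (hs : 2 * s ≤ k) :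
    (((Finset.univ : Finset (SimpleGraph (Fin k))).filter (fun G => ¬ NS s G)).card : ℝ) ≤
      (Fintype.card (SimpleGraph (Fin k)) : ℝ) *
        ((400 ^ s * (1 + 1 / 400) ^ k) ^ 2 *
          ((2 / 3) ^ ((k - 2 * s) / 2) * 3 ^ s * (1 + (s : ℝ) ^ 2))) := by
  set A : Finset (Finset (Fin k)) := Finset.univ.filter (fun S => S.card ≤ s) with hA
  set F : Finset (Finset (Fin k) × Finset (Fin k)) :=
    (A ×ˢ A).filter (fun P => Disjoint P.1 P.2) with hF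
  set C : ℝ := (2 / 3) ^ ((k - 2 * s) / 2) * 3 ^ s * (1 + (s : ℝ) ^ 2) with hC
  have hC0 : 0 ≤ C := by rw [hC]; positivity
  have hsub : (Finset.univ : Finset (SimpleGraph (Fin k))).filter (fun G => ¬ NS s G) ⊆
      F.biUnion (fun P => Finset.univ.filter (fun G => nsbBad P.1 P.2 G)) := by
    intro G hG
    obtain ⟨S, T, hd, hS, hT, hb⟩ := nsb_cover k s G (Finset.mem_filter.1 hG).2
    refine Finset.mem_biUnion.2 ⟨(S, T), ?_, Finset.mem_filter.2 ⟨Finset.mem_univ _, hb⟩⟩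
    refine Finset.mem_filter.2 ⟨Finset.mem_product.2 ⟨?_, ?_⟩, hd⟩
    · exact Finset.mem_filter.2 ⟨Finset.mem_univ _, hS⟩
    · exact Finset.mem_filter.2 ⟨Finset.mem_univ _, hT⟩
  have h1 : (((Finset.univ : Finset (SimpleGraph (Fin k))).filter
      (fun G => ¬ NS s G)).card : ℝ) ≤
      ∑ P ∈ F, (((Finset.univ : Finset (SimpleGraph (Fin k))).filter
        (fun G => nsbBad P.1 P.2 G)).card : ℝ) := by
    have h := (Finset.card_le_card hsub).trans Finset.card_biUnion_le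
    exact_mod_cast h
  have h2 : ∑ P ∈ F, (((Finset.univ : Finset (SimpleGraph (Fin k))).filter
        (fun G => nsbBad P.1 P.2 G)).card : ℝ) ≤
      ∑ _P ∈ F, (Fintype.card (SimpleGraph (Fin k)) : ℝ) * C := by
    refine Finset.sum_le_sum fun P hP => ?_
    obtain ⟨hP1, hd⟩ := Finset.mem_filter.1 hP
    obtain ⟨hPS, hPT⟩ := Finset.mem_product.1 hP1
    exact nsb_pair k s hs P.1 P.2 hd (Finset.mem_filter.1 hPS).2 (Finset.mem_filter.1 hPT).2
  have h3 : (F.card : ℝ) ≤ (400 ^ s * (1 + 1 / 400) ^ k) ^ 2 := by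
    have h4 : F.card ≤ A.card * A.card := by
      have := Finset.card_filter_le (A ×ˢ A) (fun P => Disjoint P.1 P.2)
      rwa [Finset.card_product] at this
    have h5 : (A.card : ℝ) ≤ 400 ^ s * (1 + 1 / 400) ^ k :=
      card_small_sets k s 400 (by norm_num)
    calc (F.card : ℝ) ≤ (A.card : ℝ) * (A.card : ℝ) := by exact_mod_cast h4
      _ ≤ (400 ^ s * (1 + 1 / 400) ^ k) * (400 ^ s * (1 + 1 / 400) ^ k) :=
        mul_le_mul h5 h5 (Nat.cast_nonneg _) (by positivity)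
      _ = (400 ^ s * (1 + 1 / 400) ^ k) ^ 2 := by ring
  refine h1.trans (h2.trans ?_)
  rw [Finset.sum_const, nsmul_eq_mul]
  calc (F.card : ℝ) * ((Fintype.card (SimpleGraph (Fin k)) : ℝ) * C)
      = (Fintype.card (SimpleGraph (Fin k)) : ℝ) * ((F.card : ℝ) * C) := by ring
    _ ≤ (Fintype.card (SimpleGraph (Fin k)) : ℝ) *
        ((400 ^ s * (1 + 1 / 400) ^ k) ^ 2 * C) :=
      mul_le_mul_of_nonneg_left (mul_le_mul_of_nonneg_right h3 hC0) (Nat.cast_nonneg _)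

end Pool.Agent.H95.SQ
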