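import Pool.Agent.H66.SP.Exist
import Pool.Agent.H66.SP.Prim
import Pool.Agent.H95.SQ.Bad
import Pool.Agent.H95.SQ.Qb

/-!
# Job SQ-StepL: one exposure step in large characteristics

`step_one`.  PROOF.  Let `S` be the finite set of `card_eigs` for `adj (KK p) G`, at most `card V`
elements.  If `b` is bad then `μ ∈ S` (`mult ≥ M ≥ 1`).  For every `μ` with `m_μ = mult ≥ M`
`orth (eig μ) ≤ 2^(card V) (gg p N)^(min ((m_μ+1)/2) T) ≤ 2^(card V) z^(min ((M+1)/2) T)`
(`orth_le'`, `0 ≤ gg ≤ z ≤ 1`).  Union bound.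

`step_large`.  PROOF.  `primes_ctrl G b₀ hb₀` gives a set `P` with `card P ≤ 2 (card V)^3`, such that
`b₀` controls in all characteristics `p ∉ P`; then all multiplicities are at most `m < M`
(`mult_le_of_ctl`).  So a bad `b` is bad for some prime `p ∈ P`, `p > q`: union bound over `P` of
`step_one`, `2 k^3 * k = 2 k^4`.  (For the union over primes with the `Fact` instance use
`if hp : p.Prime then (filter ...) else ∅`, see `card_trans_le` in H66/SP/Trans.lean.)
-/

set_option autoImplicit false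

namespace Pool.Agent.H95.SQ

open Matrix Classical Pool.Agent.H66.SP

theorem step_one (p : ℕ) [Fact p.Prime] {V : Type*} [Fintype V] [DecidableEq V]
    (G : SimpleGraph V) (s T N M : ℕ) (hNS : NS s G) (hT : 1 ≤ T) (hN : N * T * T ≤ s)
    (hM : 1 ≤ M) (z : ℝ) (hz : gg p N ≤ z) (hz1 : z ≤ 1) :
    (((Finset.univ : Finset (V → Bool)).filter (fun b => BadO p M G b)).card : ℝ) ≤
      2 ^ Fintype.card V * (Fintype.card V * z ^ (min ((M + 1) / 2) T)) := by
  obtain ⟨S, hS, hS'⟩ := card_eigs (adj (KK p) G)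
  have hg0 : 0 < gg p N := gg_pos p N (Fact.out : p.Prime).one_le
  have hz0 : 0 < z := hg0.trans_le hz
  have hsub : (Finset.univ : Finset (V → Bool)).filter (fun b => BadO p M G b) ⊆
      (S.filter (fun μ => M ≤ mult (adj (KK p) G) μ)).biUnion (fun μ =>
        (Finset.univ : Finset (V → Bool)).filter
          (fun b => ∀ x ∈ eig (adj (KK p) G) μ, bv (KK p) b ⬝ᵥ x = 0)) := by
    intro b hb
    rw [Finset.mem_filter] at hb
    obtain ⟨-, μ, h1, h2⟩ := hb
    rw [Finset.mem_biUnion]
    refine ⟨μ, ?_, ?_⟩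
    · rw [Finset.mem_filter]
      refine ⟨hS' μ ?_, h1⟩
      intro h0
      have h3 : mult (adj (KK p) G) μ = 0 := by
        unfold mult
        rw [h0]
        exact finrank_bot (KK p) (V → KK p)
      omega
    · rw [Finset.mem_filter]
      exact ⟨Finset.mem_univ _, h2⟩
  have hcard : (((Finset.univ : Finset (V → Bool)).filter (fun b => BadO p M G b)).card : ℝ) ≤
      ∑ μ ∈ S.filter (fun μ => M ≤ mult (adj (KK p) G) μ),
        (orth (eig (adj (KK p) G) μ) : ℝ) := by
    have h1 := (Finset.card_le_card hsub).trans Finset.card_biUnion_le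
    have h2 : ∀ μ : KK p, orth (eig (adj (KK p) G) μ) =
        ((Finset.univ : Finset (V → Bool)).filter
          (fun b => ∀ x ∈ eig (adj (KK p) G) μ, bv (KK p) b ⬝ᵥ x = 0)).card := by
      intro μ
      unfold orth
      congr
      exact Subsingleton.elim _ _
    simp only [h2]
    exact_mod_cast h1
  have hterm : ∀ μ ∈ S.filter (fun μ => M ≤ mult (adj (KK p) G) μ),
      (orth (eig (adj (KK p) G) μ) : ℝ) ≤
        2 ^ Fintype.card V * z ^ (min ((M + 1) / 2) T) := by
    intro μ hμ
    rw [Finset.mem_filter] at hμ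
    refine (orth_le' p G s T N hNS hT hN μ (eig (adj (KK p) G) μ) le_rfl).trans ?_
    refine mul_le_mul_of_nonneg_left ?_ (by positivity)
    have h1 : min ((M + 1) / 2) T ≤
        min ((Module.finrank (KK p) (eig (adj (KK p) G) μ) + 1) / 2) T := by
      have h2 : M ≤ Module.finrank (KK p) (eig (adj (KK p) G) μ) := hμ.2
      refine min_le_min ?_ le_rfl
      exact Nat.div_le_div_right (by omega)
    exact (pow_le_pow_left₀ hg0.le hz _).trans (pow_le_pow_of_le_one hz0.le hz1 h1)
  refine hcard.trans ((Finset.sum_le_sum hterm).trans ?_)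
  rw [Finset.sum_const, nsmul_eq_mul]
  have h3 : ((S.filter (fun μ => M ≤ mult (adj (KK p) G) μ)).card : ℝ) ≤ Fintype.card V := by
    exact_mod_cast (Finset.card_filter_le _ _).trans hS
  have h4 : (0 : ℝ) ≤ 2 ^ Fintype.card V * z ^ (min ((M + 1) / 2) T) := by positivity
  calc _ ≤ (Fintype.card V : ℝ) * (2 ^ Fintype.card V * z ^ (min ((M + 1) / 2) T)) :=
        mul_le_mul_of_nonneg_right h3 h4
    _ = _ := by ring

theorem step_large {V : Type*} [Fintype V] [DecidableEq V]
    (G : SimpleGraph V) (q s T N M m : ℕ) (hNS : NS s G) (hT : 1 ≤ T) (hN : N * T * T ≤ s)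
    (z : ℝ) (hz0 : 0 ≤ z) (hz : ∀ p : ℕ, p.Prime → q < p → gg p N ≤ z) (hz1 : z ≤ 1)
    (b₀ : Fin m → V → Bool) (hb₀ : CtlC G b₀) (hM : m < M) :
    (((Finset.univ : Finset (V → Bool)).filter (fun b => BadL q M G b)).card : ℝ) ≤
      2 ^ Fintype.card V * (2 * (Fintype.card V : ℝ) ^ 4 * z ^ (min ((M + 1) / 2) T)) := by
  obtain ⟨P, hP, hP'⟩ := primes_ctrl G b₀ hb₀
  let Q : ℕ → Finset (V → Bool) := fun p =>
    if hp : p.Prime ∧ q < p then
      haveI : Fact p.Prime := ⟨hp.1⟩
      (Finset.univ : Finset (V → Bool)).filter (fun b => BadO p M G b)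
    else ∅
  have hQ : ∀ p, ((Q p).card : ℝ) ≤
      2 ^ Fintype.card V * (Fintype.card V * z ^ (min ((M + 1) / 2) T)) := by
    intro p
    by_cases hp : p.Prime ∧ q < p
    · have : Fact p.Prime := ⟨hp.1⟩
      have h2 : Q p = (Finset.univ : Finset (V → Bool)).filter (fun b => BadO p M G b) := by
        simp only [Q, dif_pos hp]
      rw [h2]
      exact step_one p G s T N M hNS hT hN (by omega) z (hz p hp.1 hp.2) hz1
    · have h2 : Q p = ∅ := by
        simp only [Q, dif_neg hp]
      rw [h2, Finset.card_empty, Nat.cast_zero]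
      positivity
  have hsub : (Finset.univ : Finset (V → Bool)).filter (fun b => BadL q M G b) ⊆
      P.biUnion Q := by
    intro b hb
    rw [Finset.mem_filter] at hb
    obtain ⟨-, p, hp, hqp, hbad⟩ := hb
    rw [Finset.mem_biUnion]
    refine ⟨p, ?_, ?_⟩
    · by_contra hpP
      obtain ⟨μ, hμ, -⟩ := hbad
      have h5 := mult_le_of_ctl (adj (KK p) G) _ (hP' p hpP) μ
      omega
    · have h2 : Q p = (Finset.univ : Finset (V → Bool)).filter (fun b => BadO p M G b) := by
        simp only [Q, dif_pos (show p.Prime ∧ q < p from ⟨hp.out, hqp⟩)]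
      rw [h2, Finset.mem_filter]
      exact ⟨Finset.mem_univ _, hbad⟩
  have hcard : (((Finset.univ : Finset (V → Bool)).filter (fun b => BadL q M G b)).card : ℝ) ≤
      ∑ p ∈ P, ((Q p).card : ℝ) := by
    have h1 := (Finset.card_le_card hsub).trans Finset.card_biUnion_le
    exact_mod_cast h1
  refine hcard.trans ((Finset.sum_le_sum (fun p _ => hQ p)).trans ?_)
  rw [Finset.sum_const, nsmul_eq_mul]
  have h3 : (P.card : ℝ) ≤ 2 * (Fintype.card V : ℝ) ^ 3 := by exact_mod_cast hP
  have h4 : (0 : ℝ) ≤ 2 ^ Fintype.card V * (Fintype.card V * z ^ (min ((M + 1) / 2) T)) := by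
    positivity
  calc _ ≤ (2 * (Fintype.card V : ℝ) ^ 3) *
        (2 ^ Fintype.card V * (Fintype.card V * z ^ (min ((M + 1) / 2) T))) :=
        mul_le_mul_of_nonneg_right h3 h4
    _ = _ := by ring

end Pool.Agent.H95.SQ
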