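import Pool.Agent.H95.SQ.StepS

/-!
# Job SQ-StepS2: one exposure step, all small characteristics

`step_small`.  Union bound over the primes `2 ≤ p ≤ q`: `∑ 3 k (1/p)^T ≤ 3 k q (1/2)^T`, and
`(1/p)^(M/2 - 1) ≤ (1/p)^2 (1/2)^(M/2 - 3)`, `∑_{p ≥ 2} 1/p^2 ≤ ∑ 1/(p (p-1)) ≤ 1`, so
`∑ 6 (1/p)^(M/2-1) ≤ 6 * 8 * (1/2)^(M/2)`.
-/

set_option autoImplicit false

namespace Pool.Agent.H95.SQ

open Matrix Classical Pool.Agent.H66.SP

theorem StepS2_sq (n : ℕ) :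
    ∑ p ∈ Finset.Icc 2 (n + 1), (1 / (p : ℝ)) ^ 2 ≤ 1 - 1 / ((n : ℝ) + 1) := by
  induction n with
  | zero => simp
  | succ n ih =>
    rw [Finset.sum_Icc_succ_top (by omega)]
    have h1 : (0 : ℝ) < (n : ℝ) + 1 := by positivity
    have h2 : (1 / (((n + 1 + 1 : ℕ)) : ℝ)) ^ 2 ≤
        1 / ((n : ℝ) + 1) - 1 / (((n + 1 : ℕ) : ℝ) + 1) := by
      push_cast
      have h3 : 1 / ((n : ℝ) + 1) - 1 / ((n : ℝ) + 1 + 1) =
          1 / (((n : ℝ) + 1) * ((n : ℝ) + 1 + 1)) := by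
        field_simp
        ring
      rw [h3, div_pow, one_pow]
      refine one_div_le_one_div_of_le (by positivity) ?_
      nlinarith
    linarith

theorem StepS2_sq' (q : ℕ) : ∑ p ∈ Finset.Icc 2 q, (1 / (p : ℝ)) ^ 2 ≤ 1 := by
  rcases Nat.eq_zero_or_pos q with h | h
  · subst h
    simp
  · obtain ⟨n, rfl⟩ : ∃ n, q = n + 1 := ⟨q - 1, by omega⟩
    have h1 := StepS2_sq n
    have h2 : (0 : ℝ) ≤ 1 / ((n : ℝ) + 1) := by positivity
    linarith

theorem step_small {V : Type*} [Fintype V] [DecidableEq V]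
    (G : SimpleGraph V) (q s T N M : ℕ) (hNS : NS s G) (hT : 1 ≤ T) (hN : N * T * T ≤ s)
    (hM : 6 ≤ M) (hg : ∀ p : ℕ, p.Prime → p ≤ q → gg p N ≤ (1 / (p : ℝ)) * (1 + 1 / T)) :
    (((Finset.univ : Finset (V → Bool)).filter (fun b => BadS q M G b)).card : ℝ) ≤
      2 ^ Fintype.card V *
        (3 * Fintype.card V * q * (1 / 2) ^ T + 48 * (1 / 2) ^ (M / 2)) := by
  set F : ℕ → Finset (V → Bool) := fun p =>
    if h : p.Prime then
      (Finset.univ : Finset (V → Bool)).filter (fun b => @BadO p ⟨h⟩ M V _ G b)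
    else ∅ with hF
  have hsub : (Finset.univ : Finset (V → Bool)).filter (fun b => BadS q M G b) ⊆
      (Finset.Icc 2 q).biUnion F := by
    intro b hb
    obtain ⟨p, hp, hpq, hbad⟩ := (Finset.mem_filter.1 hb).2
    rw [Finset.mem_biUnion]
    refine ⟨p, Finset.mem_Icc.2 ⟨hp.out.two_le, hpq⟩, ?_⟩
    rw [hF]
    simp only [hp.out, dif_pos]
    exact Finset.mem_filter.2 ⟨Finset.mem_univ _, hbad⟩
  have hcard : ∀ p ∈ Finset.Icc 2 q, ((F p).card : ℝ) ≤ 2 ^ Fintype.card V *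
      (3 * Fintype.card V * (1 / 2) ^ T + 6 * ((1 / (p : ℝ)) ^ 2 * (1 / 2) ^ (M / 2 - 3))) := by
    intro p hp
    rw [Finset.mem_Icc] at hp
    by_cases h : p.Prime
    · have h1 := @step_small_one p ⟨h⟩ V _ _ G s T N M hNS hT hN hM (hg p h hp.2)
      have h2 : ((F p).card : ℝ) ≤ 2 ^ Fintype.card V *
          (3 * Fintype.card V * (1 / (p : ℝ)) ^ T + 6 * (1 / (p : ℝ)) ^ (M / 2 - 1)) := by
        refine le_trans (le_of_eq ?_) h1
        rw [hF]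
        simp only [h, dif_pos]
      refine h2.trans (mul_le_mul_of_nonneg_left ?_ (by positivity))
      have hp2 : (2 : ℝ) ≤ p := by exact_mod_cast hp.1
      have hq0 : (0 : ℝ) ≤ 1 / (p : ℝ) := by positivity
      have hq : 1 / (p : ℝ) ≤ 1 / 2 := one_div_le_one_div_of_le (by norm_num) hp2
      have h3 : (1 / (p : ℝ)) ^ T ≤ (1 / 2) ^ T := pow_le_pow_left₀ hq0 hq T
      have h4 : (1 / (p : ℝ)) ^ (M / 2 - 3) ≤ (1 / 2) ^ (M / 2 - 3) := pow_le_pow_left₀ hq0 hq _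
      have h5 : (1 / (p : ℝ)) ^ (M / 2 - 1) = (1 / (p : ℝ)) ^ 2 * (1 / (p : ℝ)) ^ (M / 2 - 3) := by
        rw [← pow_add]
        congr 1
        omega
      have h6 : (1 / (p : ℝ)) ^ (M / 2 - 1) ≤ (1 / (p : ℝ)) ^ 2 * (1 / 2) ^ (M / 2 - 3) := by
        rw [h5]
        exact mul_le_mul_of_nonneg_left h4 (by positivity)
      have h7 : 3 * (Fintype.card V : ℝ) * (1 / (p : ℝ)) ^ T ≤
          3 * (Fintype.card V : ℝ) * (1 / 2) ^ T := mul_le_mul_of_nonneg_left h3 (by positivity)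
      linarith
    · have h1 : F p = ∅ := by
        rw [hF]
        simp only [h, dif_neg, not_false_eq_true]
      rw [h1, Finset.card_empty, Nat.cast_zero]
      positivity
  have h1 : (((Finset.univ : Finset (V → Bool)).filter (fun b => BadS q M G b)).card : ℝ) ≤
      ∑ p ∈ Finset.Icc 2 q, ((F p).card : ℝ) := by
    exact_mod_cast (Finset.card_le_card hsub).trans Finset.card_biUnion_le
  refine h1.trans ((Finset.sum_le_sum hcard).trans ?_)
  rw [← Finset.mul_sum]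
  refine mul_le_mul_of_nonneg_left ?_ (by positivity)
  rw [Finset.sum_add_distrib, Finset.sum_const, nsmul_eq_mul, ← Finset.mul_sum,
    ← Finset.sum_mul, Nat.card_Icc]
  have h2 : (((q + 1 - 2 : ℕ)) : ℝ) ≤ q := by
    exact_mod_cast (by omega : q + 1 - 2 ≤ q)
  have h3 : (0 : ℝ) ≤ 3 * Fintype.card V * (1 / 2) ^ T := by positivity
  have h4 := mul_le_mul_of_nonneg_right h2 h3
  have h5 := StepS2_sq' q
  have h6 : (1 / 2 : ℝ) ^ (M / 2 - 3) = 8 * (1 / 2) ^ (M / 2) := by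
    obtain ⟨m, hm⟩ : ∃ m, M / 2 = m + 3 := ⟨M / 2 - 3, by omega⟩
    rw [hm, Nat.add_sub_cancel, pow_add]
    norm_num
    ring
  have h7 : (0 : ℝ) ≤ (1 / 2 : ℝ) ^ (M / 2 - 3) := by positivity
  have h8 := mul_le_mul_of_nonneg_right h5 h7
  have h9 : (∑ p ∈ Finset.Icc 2 q, (1 / (p : ℝ)) ^ 2) * (1 / 2) ^ (M / 2 - 3) ≤
      8 * (1 / 2) ^ (M / 2) := by linarith
  calc _ ≤ (q : ℝ) * (3 * Fintype.card V * (1 / 2) ^ T) + 6 * (8 * (1 / 2) ^ (M / 2)) := by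
        linarith
    _ = _ := by ring

end Pool.Agent.H95.SQ
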