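import Pool.Agent.H66.SP.Inter
import Pool.Agent.H95.SQ.Bad
import Pool.Agent.H95.SQ.Int2

/-!
# Job SQ-Tr: the invariant is preserved by a step without bad event

`okk_ext`.  PROOF.  Let `k = card V < n`, so `card (V ⊕ Unit) = k + 1`, and `K` any of the fields,
`m_k = mult (adj K G) μ`, `m_{k+1} = mult (adj K (ext G b)) μ`; always `m_{k+1} ≤ m_k + 1`
(`mult_ext_le`), and `m_{k+1} + 1 ≤ m_k` if `b` is not orthogonal to the eigenspace
(`mult_ext_lt`).
GENERAL STEP: if `m_k ≤ max (a + 1) (c)`-type bounds hold: suppose `m_k ≤ max A C`, that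
`m_k ≥ B` implies `m_{k+1} + 1 ≤ m_k`, and `A - 1 ≤ A'`, `C - 1 ≤ C'`, `B ≤ A'`; then
`m_{k+1} ≤ max A' C'`: if `m_k ≥ B` then `m_{k+1} ≤ max A C - 1`; if `m_k < B` then
`m_{k+1} ≤ B ≤ A'`.
(1) `p₀`: `A = A' = B = 40`, `C = 2 (n/4) - k`, `C' = 2 (n/4) - (k+1)`, no bad event `BadO p₀ 40`.
(2) if `n/2 ≤ k`, `p ≤ q`: `A = 30 + (n - k)`, `B = A' = 30 + (n - (k + 1)) = 30 + (n - 1 - k)`,
`C = 2 (n/2) - k`, `C' = 2 (n/2) - (k+1)`, no `BadS`; the same with `80` for `p > q`, no `BadL`.
(3) if `k + 1 = n/2` the bound is `m_{k+1} ≤ card (V ⊕ Unit) = k + 1 = 2 (n/2) - (k + 1)`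
(dimension).  If `k + 1 < n/2` nothing is claimed.

`okk_base`: for `card V = n/4`, `2 ≤ n`: `mult ≤ card V = n/4 = 2 (n/4) - n/4`, and
`n/2 ≤ n/4` is false.
`mult_le_card`: `finrank` of a subspace of `V → K`.
-/

set_option autoImplicit false

namespace Pool.Agent.H95.SQ

open Matrix Classical Pool.Agent.H66.SP

theorem mult_le_card {K : Type*} [Field K] {V : Type*} [Fintype V] [DecidableEq V]
    (A : Matrix V V K) (μ : K) : mult A μ ≤ Fintype.card V := by
  unfold mult
  have h := Submodule.finrank_le (eig A μ)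
  rwa [Module.finrank_fintype_fun_eq_card] at h

theorem okk_base (n q p₀ : ℕ) [Fact p₀.Prime] (hn : 2 ≤ n) {V : Type*} [Fintype V]
    [DecidableEq V] (G : SimpleGraph V) (hV : Fintype.card V = n / 4)
    (hNS : NS (Fintype.card V / 400) G) : OKK n q p₀ G := by
  refine ⟨hNS, ?_, ?_⟩
  · intro μ
    have h := mult_le_card (adj (KK p₀) G) μ
    refine le_trans h (le_trans ?_ (le_max_right _ _))
    omega
  · intro h
    omega

/-- one step for one characteristic -/
lemma tr_step {p : ℕ} [Fact p.Prime] {V : Type*} [Fintype V] [DecidableEq V]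
    (G : SimpleGraph V) (b : V → Bool) (B : ℕ) (h : ¬ BadO p B G b) (μ : KK p) :
    mult (adj (KK p) (ext G b)) μ ≤ B ∨
      mult (adj (KK p) (ext G b)) μ + 1 ≤ mult (adj (KK p) G) μ := by
  by_cases hB : B ≤ mult (adj (KK p) G) μ
  · right
    apply mult_ext_lt
    by_contra hne
    push Not at hne
    exact h ⟨μ, hB, hne⟩
  · left
    have h1 := mult_ext_le G b μ
    omega

theorem okk_ext (n q p₀ : ℕ) [Fact p₀.Prime] {V : Type*} [Fintype V] [DecidableEq V]
    (G : SimpleGraph V) (b : V → Bool) (hk : Fintype.card V < n) (hG : OKK n q p₀ G)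
    (hNS : NS ((Fintype.card V + 1) / 400) (ext G b)) (h0 : ¬ BadO p₀ 40 G b)
    (hS : n / 2 ≤ Fintype.card V → ¬ BadS q (30 + (n - 1 - Fintype.card V)) G b)
    (hL : n / 2 ≤ Fintype.card V → ¬ BadL q (80 + (n - 1 - Fintype.card V)) G b) :
    OKK n q p₀ (ext G b) := by
  have hcard : Fintype.card (V ⊕ Unit) = Fintype.card V + 1 := by simp
  obtain ⟨_, hG2, hG3⟩ := hG
  refine ⟨?_, ?_, ?_⟩
  · rw [hcard]
    exact hNS
  · intro μ
    rw [hcard]
    have h1 := hG2 μ
    rcases tr_step G b 40 h0 μ with h2 | h2 <;> omega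
  · rw [hcard]
    intro hn
    by_cases hk2 : n / 2 ≤ Fintype.card V
    · obtain ⟨h3, h4⟩ := hG3 hk2
      constructor
      · intro p _ μ hp
        have h1 := h3 p μ hp
        have hb : ¬ BadO p (30 + (n - 1 - Fintype.card V)) G b := fun hb =>
          hS hk2 ⟨p, inferInstance, hp, hb⟩
        rcases tr_step G b _ hb μ with h2 | h2 <;> omega
      · intro p _ μ hp
        have h1 := h4 p μ hp
        have hb : ¬ BadO p (80 + (n - 1 - Fintype.card V)) G b := fun hb =>
          hL hk2 ⟨p, inferInstance, hp, hb⟩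
        rcases tr_step G b _ hb μ with h2 | h2 <;> omega
    · constructor
      · intro p _ μ _
        have h := mult_le_card (adj (KK p) (ext G b)) μ
        rw [hcard] at h
        omega
      · intro p _ μ _
        have h := mult_le_card (adj (KK p) (ext G b)) μ
        rw [hcard] at h
        omega

end Pool.Agent.H95.SQ
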