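import Pool.Agent.H95.SQ.Bad
import Pool.Agent.H95.SQ.Qb
import Pool.Agent.H95.SQ.Deg
import Pool.Agent.H66.SP.Eigs

/-!
# Job SQ-StepS: one exposure step in small characteristics

`pow_gg_le`.  `(gg p N)^x ≤ (1/p)^x (1 + 1/T)^x ≤ (1/p)^x (1 + 1/T)^T ≤ 3 (1/p)^x` for `x ≤ T`
(`(1 + 1/T)^T ≤ e < 3`, `Real.add_one_le_exp`, `Real.exp_one_lt_d9`).

`step_small_one`.  PROOF.  Let `S` be the set of `card_eigs` for `adj (KK p) G` (at most `k = card V`
elements), `S' = {μ ∈ S | M ≤ mult}`.  For `μ ∈ S'` with `d = dg p μ` and `x_μ =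
min ((d M + 1)/2) T` we have `orth (eig μ) ≤ 2^k (gg p N)^(x_μ)` (`orth_le`,
`d * mult ≥ d * M`, `0 ≤ gg ≤ 1`).
Those `μ` with `T ≤ (d M + 1)/2`: at most `k`, each contributes `2^k * 3 (1/p)^T` at most.
The others: `x_μ = (d M + 1)/2 ≥ d (M/2)` (natural division), `x_μ ≤ T`, so the contribution is at
most `2^k * 3 (1/p)^(d (M/2))`; there are at most `p^d` of them for every `d ≥ 1` (`card_dg_le`), in
total at most `2^k * 3 ∑_{d ≥ 1} y^d`, `y = (1/p)^(M/2 - 1) ≤ 1/4`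
(`M/2 ≥ 3`, `p ≥ 2`), which is `≤ 2^k * 3 * (4/3) y ≤ 2^k * 6 y`.  (Group the sum over `S'` by the value of
`dg p μ ∈ Finset.Icc 1 D`, `Finset.sum_fiberwise_of_maps_to`; the finite geometric sum is at most
`y / (1 - y)`.)
-/

set_option autoImplicit false

namespace Pool.Agent.H95.SQ

open Matrix Classical Pool.Agent.H66.SP

theorem pow_gg_le (p N T x : ℕ) (hp : 1 ≤ p) (hT : 1 ≤ T)
    (hg : gg p N ≤ (1 / (p : ℝ)) * (1 + 1 / T)) (hx : x ≤ T) :
    gg p N ^ x ≤ 3 * (1 / (p : ℝ)) ^ x := by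
  have hp' : (0 : ℝ) < p := by exact_mod_cast hp
  have hT' : (0 : ℝ) < T := by exact_mod_cast hT
  have h0 : (0 : ℝ) ≤ 1 / (T : ℝ) := by positivity
  have h1 : (1 + 1 / (T : ℝ)) ^ x ≤ 3 := by
    calc (1 + 1 / (T : ℝ)) ^ x ≤ (1 + 1 / (T : ℝ)) ^ T :=
          pow_le_pow_right₀ (by linarith) hx
      _ ≤ (Real.exp (1 / (T : ℝ))) ^ T := by
          refine pow_le_pow_left₀ (by linarith) ?_ _
          have := Real.add_one_le_exp (1 / (T : ℝ))
          linarith
      _ = Real.exp 1 := by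
          rw [← Real.exp_nat_mul]
          congr 1
          field_simp
      _ ≤ 3 := by
          have := Real.exp_one_lt_d9
          linarith
  calc gg p N ^ x ≤ ((1 / (p : ℝ)) * (1 + 1 / T)) ^ x :=
        pow_le_pow_left₀ (gg_nonneg p N) hg x
    _ = (1 + 1 / (T : ℝ)) ^ x * (1 / (p : ℝ)) ^ x := by
        rw [mul_pow]
        ring
    _ ≤ 3 * (1 / (p : ℝ)) ^ x := mul_le_mul_of_nonneg_right h1 (by positivity)

/-- a finite geometric sum -/
theorem stepS_geo (y : ℝ) (hy0 : 0 ≤ y) (hy : y ≤ 1 / 2) (D : ℕ) :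
    ∑ d ∈ Finset.Icc 1 D, y ^ d ≤ 2 * y - 2 * y ^ (D + 1) := by
  induction D with
  | zero => simp
  | succ D ih =>
    rw [Finset.sum_Icc_succ_top (by omega)]
    have h1 : y ^ (D + 1 + 1) = y ^ (D + 1) * y := pow_succ _ _
    have h2 : 0 ≤ y ^ (D + 1) := by positivity
    nlinarith

/-- grouping by the degree -/
theorem stepS_sum (p : ℕ) [Fact p.Prime] (S : Finset (KK p)) (m : ℕ) (hm : 3 ≤ m) :
    ∑ μ ∈ S, (1 / (p : ℝ)) ^ (dg p μ * m) ≤ 2 * (1 / (p : ℝ)) ^ (m - 1) := by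
  have hp2 : (2 : ℝ) ≤ p := by exact_mod_cast (Fact.out : p.Prime).two_le
  have hp' : (0 : ℝ) < p := by linarith
  have hq0 : (0 : ℝ) ≤ 1 / (p : ℝ) := by positivity
  have hq : 1 / (p : ℝ) ≤ 1 / 2 := one_div_le_one_div_of_le (by norm_num) hp2
  set y : ℝ := (1 / (p : ℝ)) ^ (m - 1) with hy
  have hy0 : 0 ≤ y := by positivity
  have hy2 : y ≤ 1 / 2 := by
    calc y ≤ (1 / (p : ℝ)) ^ 1 := pow_le_pow_of_le_one hq0 (by linarith) (by omega)
      _ ≤ 1 / 2 := by rw [pow_one]; exact hq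
  have hmaps : ∀ μ ∈ S, dg p μ ∈ Finset.Icc 1 (S.sup (dg p)) := by
    intro μ hμ
    rw [Finset.mem_Icc]
    exact ⟨dg_pos p μ, Finset.le_sup hμ⟩
  rw [← Finset.sum_fiberwise_of_maps_to hmaps]
  have hterm : ∀ d ∈ Finset.Icc 1 (S.sup (dg p)),
      ∑ μ ∈ S.filter (fun μ => dg p μ = d), (1 / (p : ℝ)) ^ (dg p μ * m) ≤ y ^ d := by
    intro d _
    have h1 : ∑ μ ∈ S.filter (fun μ => dg p μ = d), (1 / (p : ℝ)) ^ (dg p μ * m) =
        ((S.filter (fun μ => dg p μ = d)).card : ℝ) * (1 / (p : ℝ)) ^ (d * m) := by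
      rw [← nsmul_eq_mul, ← Finset.sum_const]
      refine Finset.sum_congr rfl (fun μ hμ => ?_)
      rw [Finset.mem_filter] at hμ
      rw [hμ.2]
    have h2 : ((S.filter (fun μ => dg p μ = d)).card : ℝ) ≤ (p : ℝ) ^ d := by
      exact_mod_cast card_dg_le p d _ (fun μ hμ => (Finset.mem_filter.1 hμ).2)
    rw [h1]
    calc _ ≤ (p : ℝ) ^ d * (1 / (p : ℝ)) ^ (d * m) :=
          mul_le_mul_of_nonneg_right h2 (by positivity)
      _ = y ^ d := by
          obtain ⟨m', rfl⟩ : ∃ m', m = m' + 1 := ⟨m - 1, by omega⟩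
          rw [hy, Nat.add_sub_cancel, ← pow_mul, mul_add, mul_one, pow_add, mul_comm m' d]
          have h3 : (p : ℝ) ^ d * (1 / (p : ℝ)) ^ d = 1 := by
            rw [← mul_pow, mul_one_div_cancel hp'.ne', one_pow]
          calc (p : ℝ) ^ d * ((1 / (p : ℝ)) ^ (d * m') * (1 / (p : ℝ)) ^ d)
              = ((p : ℝ) ^ d * (1 / (p : ℝ)) ^ d) * (1 / (p : ℝ)) ^ (d * m') := by ring
            _ = _ := by rw [h3, one_mul]
  refine (Finset.sum_le_sum hterm).trans ?_
  have h4 := stepS_geo y hy0 hy2 (S.sup (dg p))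
  have h5 : 0 ≤ y ^ (S.sup (dg p) + 1) := by positivity
  linarith

theorem step_small_one (p : ℕ) [Fact p.Prime] {V : Type*} [Fintype V] [DecidableEq V]
    (G : SimpleGraph V) (s T N M : ℕ) (hNS : NS s G) (hT : 1 ≤ T) (hN : N * T * T ≤ s)
    (hM : 6 ≤ M) (hg : gg p N ≤ (1 / (p : ℝ)) * (1 + 1 / T)) :
    (((Finset.univ : Finset (V → Bool)).filter (fun b => BadO p M G b)).card : ℝ) ≤
      2 ^ Fintype.card V *
        (3 * Fintype.card V * (1 / (p : ℝ)) ^ T + 6 * (1 / (p : ℝ)) ^ (M / 2 - 1)) := by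
  obtain ⟨S, hS, hS'⟩ := card_eigs (adj (KK p) G)
  have hp1 : 1 ≤ p := (Fact.out : p.Prime).one_le
  have hp' : (1 : ℝ) ≤ p := by exact_mod_cast hp1
  have hq0 : (0 : ℝ) ≤ 1 / (p : ℝ) := by positivity
  have hq1 : 1 / (p : ℝ) ≤ 1 := by
    rw [div_le_one (by linarith)]
    exact hp'
  have hsub : (Finset.univ : Finset (V → Bool)).filter (fun b => BadO p M G b) ⊆
      (S.filter (fun μ => M ≤ mult (adj (KK p) G) μ)).biUnion (fun μ =>
        (Finset.univ : Finset (V → Bool)).filter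
          (fun b => ∀ x ∈ eig (adj (KK p) G) μ, bv (KK p) b ⬝ᵥ x = 0)) := by
    intro b hb
    rw [Finset.mem_filter] at hb
    obtain ⟨-, μ, h1, h2⟩ := hb
    rw [Finset.mem_biUnion]
    refine ⟨μ, ?_, ?_⟩
    · rw [Finset.mem_filter]
      refine ⟨hS' μ ?_, h1⟩
      intro h0
      have h3 : mult (adj (KK p) G) μ = 0 := by
        unfold mult
        rw [h0]
        exact finrank_bot (KK p) (V → KK p)
      omega
    · rw [Finset.mem_filter]
      exact ⟨Finset.mem_univ _, h2⟩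
  have hcard : (((Finset.univ : Finset (V → Bool)).filter (fun b => BadO p M G b)).card : ℝ) ≤
      ∑ μ ∈ S.filter (fun μ => M ≤ mult (adj (KK p) G) μ),
        (orth (eig (adj (KK p) G) μ) : ℝ) := by
    have h1 := (Finset.card_le_card hsub).trans Finset.card_biUnion_le
    have h2 : ∀ μ : KK p, orth (eig (adj (KK p) G) μ) =
        ((Finset.univ : Finset (V → Bool)).filter
          (fun b => ∀ x ∈ eig (adj (KK p) G) μ, bv (KK p) b ⬝ᵥ x = 0)).card := by
      intro μ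
      unfold orth
      congr
      exact Subsingleton.elim _ _
    simp only [h2]
    exact_mod_cast h1
  have hterm : ∀ μ ∈ S.filter (fun μ => M ≤ mult (adj (KK p) G) μ),
      (orth (eig (adj (KK p) G) μ) : ℝ) ≤
        2 ^ Fintype.card V * (3 * ((1 / (p : ℝ)) ^ T + (1 / (p : ℝ)) ^ (dg p μ * (M / 2)))) := by
    intro μ hμ
    rw [Finset.mem_filter] at hμ
    refine (orth_le p G s T N hNS hT hN μ (eig (adj (KK p) G) μ) le_rfl).trans ?_
    refine mul_le_mul_of_nonneg_left ?_ (by positivity)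
    have h2 : M ≤ Module.finrank (KK p) (eig (adj (KK p) G) μ) := hμ.2
    have h1 : min ((dg p μ * M + 1) / 2) T ≤
        min ((dg p μ * Module.finrank (KK p) (eig (adj (KK p) G) μ) + 1) / 2) T := by
      refine min_le_min ?_ le_rfl
      have h3 := Nat.mul_le_mul_left (dg p μ) h2
      exact Nat.div_le_div_right (by omega)
    refine (pow_le_pow_of_le_one (gg_nonneg p N) (gg_le_one p N hp1) h1).trans ?_
    refine (pow_gg_le p N T _ hp1 hT hg (min_le_right _ _)).trans ?_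
    refine mul_le_mul_of_nonneg_left ?_ (by norm_num)
    have h5 : (0 : ℝ) ≤ (1 / (p : ℝ)) ^ T := by positivity
    have h6 : (0 : ℝ) ≤ (1 / (p : ℝ)) ^ (dg p μ * (M / 2)) := by positivity
    rcases le_total ((dg p μ * M + 1) / 2) T with h | h
    · rw [min_eq_left h]
      have h7 : dg p μ * (M / 2) ≤ (dg p μ * M + 1) / 2 := by
        rw [Nat.le_div_iff_mul_le (by norm_num)]
        have h8 : M / 2 * 2 ≤ M := Nat.div_mul_le_self M 2
        have h9 := Nat.mul_le_mul_left (dg p μ) h8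
        rw [← mul_assoc] at h9
        omega
      have h8 := pow_le_pow_of_le_one hq0 hq1 h7
      linarith
    · rw [min_eq_right h]
      linarith
  refine hcard.trans ((Finset.sum_le_sum hterm).trans ?_)
  rw [← Finset.mul_sum]
  refine mul_le_mul_of_nonneg_left ?_ (by positivity)
  rw [← Finset.mul_sum, Finset.sum_add_distrib, Finset.sum_const, nsmul_eq_mul]
  have h3 : ((S.filter (fun μ => M ≤ mult (adj (KK p) G) μ)).card : ℝ) ≤ Fintype.card V := by
    exact_mod_cast (Finset.card_filter_le _ _).trans hS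
  have h4 := stepS_sum p (S.filter (fun μ => M ≤ mult (adj (KK p) G) μ)) (M / 2) (by omega)
  have h5 : (0 : ℝ) ≤ (1 / (p : ℝ)) ^ T := by positivity
  have h6 := mul_le_mul_of_nonneg_right h3 h5
  calc _ ≤ 3 * ((Fintype.card V : ℝ) * (1 / (p : ℝ)) ^ T +
        2 * (1 / (p : ℝ)) ^ (M / 2 - 1)) := by linarith
    _ = _ := by ring

end Pool.Agent.H95.SQ
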